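import Mathlib

set_option autoImplicit false

/-! The class of groups in the statement. -/

namespace Pool.Agent.Lib_helper74.LR

/-- A finite group `K` is *admissible* with constants `A` and `c` if it is isomorphic to an
alternating group of degree at least `5`, or if it is perfect and `log₂ |K| ≤ A (log₂ n + 1) ^ c`
for every `n` for which `K` has a nontrivial complex representation of dimension `n`. -/
def Admissible (A c : ℕ) (K : Type) [Group K] : Prop :=
  (∃ n : ℕ, 5 ≤ n ∧ Nonempty (K ≃* alternatingGroup (Fin n))) ∨
  (commutator K = ⊤ ∧ ∀ (n : ℕ) (ρ : K →* Matrix.GeneralLinearGroup (Fin n) ℂ), ρ ≠ 1 →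
    Nat.log 2 (Nat.card K) ≤ A * (Nat.log 2 n + 1) ^ c)

end Pool.Agent.Lib_helper74.LR
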