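import Mathlib

set_option autoImplicit false

/-! A complex vector space with `L` pairwise commuting families of injective operators, none of
which has a common eigenvector, has dimension at least `2 ^ L`. -/

namespace Pool.Agent.Lib_helper74.LR

open Module Finset

variable {E : Type*} [AddCommGroup E] [Module ℂ E] [FiniteDimensional ℂ E]

/-- existence of a minimal nonzero submodule inside `U` with a property. -/
theorem exists_minimal_sub (P : Submodule ℂ E → Prop) (U : Submodule ℂ E) (hU : P U)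
    (hne : U ≠ ⊥) : ∃ U₀ : Submodule ℂ E, U₀ ≤ U ∧ U₀ ≠ ⊥ ∧ P U₀ ∧
      ∀ W : Submodule ℂ E, W ≤ U₀ → W ≠ ⊥ → P W → W = U₀ := by
  classical
  have hwf : ∃ n : ℕ, ∃ W : Submodule ℂ E, W ≤ U ∧ W ≠ ⊥ ∧ P W ∧ finrank ℂ W = n :=
    ⟨_, U, le_rfl, hne, hU, rfl⟩
  obtain ⟨U₀, h1, h2, h3, h4⟩ := Nat.find_spec hwf
  refine ⟨U₀, h1, h2, h3, fun W hW hWne hPW => ?_⟩
  refine Submodule.eq_of_le_of_finrank_le hW ?_
  rw [h4]
  exact Nat.find_min' hwf ⟨W, hW.trans h1, hWne, hPW, rfl⟩

theorem two_pow_le_finrank {ι : Type*} [DecidableEq ι] (𝓗 : ι → Set (Module.End ℂ E))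
    (hinj : ∀ i, ∀ a ∈ 𝓗 i, Function.Injective a)
    (hcomm : ∀ i j, i ≠ j → ∀ a ∈ 𝓗 i, ∀ b ∈ 𝓗 j, ∀ v, a (b v) = b (a v)) (T : Finset ι) :
    ∀ U : Submodule ℂ E, U ≠ ⊥ → (∀ i ∈ T, ∀ a ∈ 𝓗 i, ∀ w ∈ U, a w ∈ U) →
      (∀ i ∈ T, ∀ w ∈ U, w ≠ 0 → ∃ a ∈ 𝓗 i, ∀ c : ℂ, a w ≠ c • w) →
      2 ^ T.card ≤ finrank ℂ U := by
  classical
  induction T using Finset.induction_on with
  | empty =>
    intro U hU _ _
    simp only [card_empty, pow_zero]
    have : Nontrivial U := (Submodule.nontrivial_iff_ne_bot).2 hU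
    exact finrank_pos
  | insert i T hi ih =>
    intro U hU hinv heig
    obtain ⟨U₀, h1, h2, h3, h4⟩ := exists_minimal_sub
      (fun W => ∀ j ∈ T, ∀ a ∈ 𝓗 j, ∀ w ∈ W, a w ∈ W) U
      (fun j hj => hinv j (mem_insert_of_mem hj)) hU
    have hdim : 2 ^ T.card ≤ finrank ℂ U₀ := ih U₀ h2 h3
      fun j hj w hw hw0 => heig j (mem_insert_of_mem hj) w (h1 hw) hw0
    rw [card_insert_of_notMem hi, pow_succ]
    by_cases hstab : ∀ a ∈ 𝓗 i, U₀.map a = U₀
    · exfalso
      obtain ⟨w, hw, hw0⟩ := Submodule.exists_mem_ne_zero_of_ne_bot h2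
      obtain ⟨a, ha, haw⟩ := heig i (mem_insert_self i T) w (h1 hw) hw0
      have hmaps : ∀ u ∈ U₀, a u ∈ U₀ := fun u hu => by
        have := Submodule.mem_map_of_mem (f := a) hu
        rwa [hstab a ha] at this
      have : Nontrivial U₀ := (Submodule.nontrivial_iff_ne_bot).2 h2
      obtain ⟨μ, hμ⟩ := Module.End.exists_eigenvalue (LinearMap.restrict a hmaps)
      obtain ⟨v, hv⟩ := hμ.exists_hasEigenvector
      have hv1 : a (v : E) = μ • (v : E) := by
        have := hv.apply_eq_smul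
        have := congrArg (Subtype.val) this
        simpa using this
      let U₁ : Submodule ℂ E :=
        { carrier := {u | u ∈ U₀ ∧ a u = μ • u}
          add_mem' := by
            rintro x y ⟨hx, hx'⟩ ⟨hy, hy'⟩
            exact ⟨U₀.add_mem hx hy, by rw [map_add, hx', hy', smul_add]⟩
          zero_mem' := ⟨U₀.zero_mem, by simp⟩
          smul_mem' := by
            rintro c x ⟨hx, hx'⟩
            exact ⟨U₀.smul_mem c hx, by rw [map_smul, hx', smul_comm]⟩ }
      have hU₁ : U₁ = U₀ := by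
        refine h4 U₁ (fun u hu => hu.1) ?_ ?_
        · rw [Submodule.ne_bot_iff]
          refine ⟨v, ⟨v.2, hv1⟩, ?_⟩
          intro h
          exact hv.2 (Subtype.ext h)
        · rintro j hj b hb u ⟨hu, hu'⟩
          refine ⟨h3 j hj b hb u hu, ?_⟩
          have hij : i ≠ j := fun h => hi (h ▸ hj)
          rw [hcomm i j hij a ha b hb, hu', map_smul]
      have : w ∈ U₁ := hU₁ ▸ hw
      exact haw μ this.2
    · push Not at hstab
      obtain ⟨a, ha, hne⟩ := hstab
      have hfr : finrank ℂ (U₀.map a) = finrank ℂ U₀ :=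
      (Submodule.equivMapOfInjective a (hinj i a ha) U₀).finrank_eq.symm
      have hinf : U₀ ⊓ U₀.map a = ⊥ := by
        by_contra hbot
        have h5 := h4 (U₀ ⊓ U₀.map a) inf_le_left hbot ?_
        · have h6 : U₀ ≤ U₀.map a := inf_eq_left.1 h5
          exact hne (Submodule.eq_of_le_of_finrank_le h6 hfr.le).symm
        · rintro j hj b hb w ⟨hw1, hw2⟩
          refine ⟨h3 j hj b hb w hw1, ?_⟩
          obtain ⟨u, hu, rfl⟩ := hw2
          have hij : i ≠ j := fun h => hi (h ▸ hj)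
          refine ⟨b u, h3 j hj b hb u hu, ?_⟩
          exact hcomm i j hij a ha b hb u
      have hsup : finrank ℂ ↥(U₀ ⊔ U₀.map a) + finrank ℂ ↥(U₀ ⊓ U₀.map a)
          = finrank ℂ U₀ + finrank ℂ (U₀.map a) := Submodule.finrank_sup_add_finrank_inf_eq _ _
      rw [hinf, finrank_bot, add_zero, hfr] at hsup
      have hle : U₀ ⊔ U₀.map a ≤ U := by
        refine sup_le h1 ?_
        rintro _ ⟨u, hu, rfl⟩
        exact hinv i (mem_insert_self i T) a ha u (h1 hu)
      have := Submodule.finrank_mono hle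
      omega

end Pool.Agent.Lib_helper74.LR
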