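import Mathlib
import Pool.Agent.Lib_helper74.LR.Perfect

set_option autoImplicit false

/-! Translation operators, the row space, and vanishing of iterated differences along commuting
perfect groups. -/

namespace Pool.Agent.Lib_helper74.LR

open Module Finset

/-- A group all of whose complex linear characters are trivial (for finite groups: a perfect
group). -/
def IsPerf (K : Type*) [Group K] : Prop := ∀ f : K →* ℂˣ, ∀ a, f a = 1

section

variable {G : Type*} [Group G] {Y : Type*} [Fintype Y] [MulAction G Y]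

/-- translation of functions -/
def lam (g : G) : Module.End ℂ (Y → ℂ) := LinearMap.funLeft ℂ ℂ (fun y => g • y)

theorem lam_apply (g : G) (v : Y → ℂ) (y : Y) : lam g v y = v (g • y) := rfl

theorem lam_mul (g h : G) (v : Y → ℂ) : lam (g * h) v = lam h (lam g v) := by
  funext y; simp [lam_apply, mul_smul]

theorem lam_one (v : Y → ℂ) : lam (1 : G) v = v := by
  funext y; simp [lam_apply]

theorem lam_injective (g : G) : Function.Injective (lam g : (Y → ℂ) → (Y → ℂ)) := by
  intro v w h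
  have := congrArg (lam g⁻¹) h
  rwa [← lam_mul, ← lam_mul, mul_inv_cancel, lam_one, lam_one] at this

/-- the complex row space of the matrix `φ (g • y)` -/
def rowV (G : Type*) [Group G] {Y : Type*} [Fintype Y] [MulAction G Y] (φ : Y → ℂ) :
    Submodule ℂ (Y → ℂ) := Submodule.span ℂ (Set.range fun g : G => lam g φ)

theorem lam_mem_rowV (φ : Y → ℂ) (g : G) : lam g φ ∈ rowV G φ :=
  Submodule.subset_span ⟨g, rfl⟩

theorem rowV_inv (φ : Y → ℂ) (h : G) {v : Y → ℂ} (hv : v ∈ rowV G φ) : lam h v ∈ rowV G φ := by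
  refine Submodule.span_induction (p := fun v _ => lam h v ∈ rowV G φ) ?_ ?_ ?_ ?_ hv
  · rintro _ ⟨g, rfl⟩
    simp only
    rw [← lam_mul]
    exact lam_mem_rowV φ _
  · rw [map_zero]; exact Submodule.zero_mem _
  · intro a b _ _ ha hb
    rw [map_add]; exact Submodule.add_mem _ ha hb
  · intro c a _ ha
    rw [map_smul]; exact Submodule.smul_mem _ c ha

variable {ι : Type*} [DecidableEq ι] {K : ι → Type*} [∀ i, Group (K i)] [∀ i, Fintype (K i)]

/-- the operators of the `i`-th factor -/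
def opA (Φ : (∀ i, K i) →* G) (i : ι) (a : K i) : Module.End ℂ (Y → ℂ) :=
  lam (Φ (Pi.mulSingle i a))

theorem opA_mul (Φ : (∀ i, K i) →* G) (i : ι) (a b : K i) (v : Y → ℂ) :
    opA Φ i (a * b) v = opA Φ i b (opA Φ i a v) := by
  rw [opA, Pi.mulSingle_mul, map_mul, lam_mul]; rfl

theorem opA_comm (Φ : (∀ i, K i) →* G) {i j : ι} (hij : i ≠ j) (a : K i) (b : K j)
    (v : Y → ℂ) : opA Φ i a (opA Φ j b v) = opA Φ j b (opA Φ i a v) := by
  rw [opA, opA, ← lam_mul, ← lam_mul, ← map_mul, ← map_mul]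
  rw [(Pi.mulSingle_commute hij a b).eq]

/-- averaging over the `i`-th factor -/
noncomputable def avg (Φ : (∀ i, K i) →* G) (i : ι) : Module.End ℂ (Y → ℂ) :=
  (Fintype.card (K i) : ℂ)⁻¹ • ∑ a : K i, opA Φ i a

theorem avg_apply (Φ : (∀ i, K i) →* G) (i : ι) (v : Y → ℂ) :
    avg Φ i v = (Fintype.card (K i) : ℂ)⁻¹ • ∑ a : K i, opA Φ i a v := by
  simp [avg, LinearMap.smul_apply, LinearMap.sum_apply]

theorem avg_opA (Φ : (∀ i, K i) →* G) (i : ι) (b : K i) (v : Y → ℂ) :
    avg Φ i (opA Φ i b v) = avg Φ i v := by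
  rw [avg_apply, avg_apply]
  congr 1
  rw [← Equiv.sum_comp (Equiv.mulLeft b) (fun a => opA Φ i a v)]
  refine Finset.sum_congr rfl fun a _ => ?_
  rw [Equiv.coe_mulLeft, opA_mul]

theorem avg_opA_comm (Φ : (∀ i, K i) →* G) {i j : ι} (hij : i ≠ j) (b : K j) (v : Y → ℂ) :
    avg Φ i (opA Φ j b v) = opA Φ j b (avg Φ i v) := by
  rw [avg_apply, avg_apply, map_smul, map_sum]
  congr 1
  exact Finset.sum_congr rfl fun a _ => opA_comm Φ hij a b v

theorem avg_of_inv (Φ : (∀ i, K i) →* G) (i : ι) (v : Y → ℂ) (h : ∀ a, opA Φ i a v = v) :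
    avg Φ i v = v := by
  rw [avg_apply]
  simp only [h, Finset.sum_const, Finset.card_univ]
  rw [← Nat.cast_smul_eq_nsmul ℂ, smul_smul, inv_mul_cancel₀, one_smul]
  exact_mod_cast Fintype.card_ne_zero

theorem opA_avg (Φ : (∀ i, K i) →* G) (i : ι) (b : K i) (v : Y → ℂ) :
    opA Φ i b (avg Φ i v) = avg Φ i v := by
  rw [avg_apply, map_smul, map_sum]
  congr 1
  rw [← Equiv.sum_comp (Equiv.mulRight b) (fun a => opA Φ i a v)]
  refine Finset.sum_congr rfl fun a _ => ?_
  rw [Equiv.coe_mulRight, opA_mul]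

theorem avg_avg (Φ : (∀ i, K i) →* G) (i : ι) (v : Y → ℂ) :
    avg Φ i (avg Φ i v) = avg Φ i v := avg_of_inv Φ i _ fun a => opA_avg Φ i a v

theorem avg_comm (Φ : (∀ i, K i) →* G) (i j : ι) (v : Y → ℂ) :
    avg Φ i (avg Φ j v) = avg Φ j (avg Φ i v) := by
  by_cases hij : i = j
  · subst hij; rfl
  · rw [avg_apply Φ j v, map_smul, map_sum, avg_apply Φ j (avg Φ i v)]
    congr 1
    exact Finset.sum_congr rfl fun a _ => avg_opA_comm Φ hij a v

theorem avg_mem (Φ : (∀ i, K i) →* G) (i : ι) (φ : Y → ℂ) {v : Y → ℂ} (hv : v ∈ rowV G φ) :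
    avg Φ i v ∈ rowV G φ := by
  rw [avg_apply]
  exact Submodule.smul_mem _ _ (Submodule.sum_mem _ fun a _ => rowV_inv φ _ hv)

/-- Key vanishing statement. -/
theorem eq_zero_of_avg (Φ : (∀ i, K i) →* G) (φ : Y → ℂ) (T : Finset ι)
    (hperf : ∀ i ∈ T, IsPerf (K i)) (hr : finrank ℂ (rowV G φ) < 2 ^ T.card) {v : Y → ℂ}
    (hv : v ∈ rowV G φ) (h0 : ∀ i ∈ T, avg Φ i v = 0) : v = 0 := by
  by_contra hv0
  let W : Submodule ℂ (Y → ℂ) :=
    { carrier := {w | w ∈ rowV G φ ∧ ∀ i ∈ T, avg Φ i w = 0}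
      add_mem' := by
        rintro x y ⟨hx, hx'⟩ ⟨hy, hy'⟩
        exact ⟨Submodule.add_mem _ hx hy, fun i hi => by rw [map_add, hx' i hi, hy' i hi, add_zero]⟩
      zero_mem' := ⟨Submodule.zero_mem _, by simp⟩
      smul_mem' := by
        rintro c x ⟨hx, hx'⟩
        exact ⟨Submodule.smul_mem _ c hx, fun i hi => by rw [map_smul, hx' i hi, smul_zero]⟩ }
  have hW : W ≠ ⊥ := by
    rw [Submodule.ne_bot_iff]; exact ⟨v, ⟨hv, h0⟩, hv0⟩
  have key := two_pow_le_finrank (fun i => Set.range (opA Φ i : K i → Module.End ℂ (Y → ℂ)))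
    (by rintro i _ ⟨a, rfl⟩; exact lam_injective _)
    (by rintro i j hij _ ⟨a, rfl⟩ _ ⟨b, rfl⟩ v; exact opA_comm Φ hij a b v) T W hW ?_ ?_
  · have h1 : finrank ℂ W ≤ finrank ℂ (rowV G φ) := Submodule.finrank_mono fun w hw => hw.1
    omega
  · rintro i hi _ ⟨a, rfl⟩ w ⟨hw, hw'⟩
    refine ⟨rowV_inv φ _ hw, fun j hj => ?_⟩
    by_cases hij : j = i
    · subst hij; rw [avg_opA]; exact hw' j hj
    · rw [avg_opA_comm Φ hij, hw' j hj, map_zero]
  · rintro i hi w ⟨hw, hw'⟩ hw0
    by_contra hcon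
    push Not at hcon
    have hc : ∀ a : K i, ∃ c : ℂ, opA Φ i a w = c • w := fun a => hcon _ ⟨a, rfl⟩
    choose c hc using hc
    have hinj : ∀ s t : ℂ, s • w = t • w → s = t := fun s t h => smul_left_injective ℂ hw0 h
    have hone : c 1 = 1 := by
      apply hinj
      rw [← hc, opA, Pi.mulSingle_one, map_one, lam_one, one_smul]
    have hmul : ∀ a b, c (a * b) = c a * c b := by
      intro a b
      apply hinj
      rw [← hc, opA_mul, hc a, map_smul, hc b, smul_smul]
    let f : K i →* ℂˣ := MonoidHom.toHomUnits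
      { toFun := c
        map_one' := hone
        map_mul' := hmul }
    have hf : ∀ a, c a = 1 := by
      intro a
      have := hperf i hi f a
      have h2 : ((f a : ℂˣ) : ℂ) = c a := rfl
      rw [← h2, this]; rfl
    have := avg_of_inv Φ i w fun a => by rw [hc, hf, one_smul]
    rw [hw' i hi] at this
    exact hw0 this.symm

/-- partial products -/
noncomputable def piece (k : ∀ i, K i) (S : Finset ι) : ∀ i, K i := fun i => if i ∈ S then k i else 1

omit [∀ i, Fintype (K i)] in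
theorem piece_insert (k : ∀ i, K i) {S : Finset ι} {i : ι} (hi : i ∉ S) :
    piece k (insert i S) = piece k S * Pi.mulSingle i (k i) := by
  funext j
  by_cases hj : j = i
  · subst hj; simp [piece, hi]
  · simp [piece, hj]

/-- the iterated difference vanishes -/
theorem diff_eq_zero (Φ : (∀ i, K i) →* G) (φ : Y → ℂ) (T : Finset ι)
    (hperf : ∀ i ∈ T, IsPerf (K i)) (hr : finrank ℂ (rowV G φ) < 2 ^ T.card) (k : ∀ i, K i)
    (y : Y) : ∑ S ∈ T.powerset, (-1 : ℂ) ^ S.card * φ (Φ (piece k S) • y) = 0 := by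
  have h := eq_zero_of_avg Φ φ T hperf hr
    (v := ∑ S ∈ T.powerset, (-1 : ℂ) ^ S.card • lam (Φ (piece k S)) φ)
    (Submodule.sum_mem _ fun S _ => Submodule.smul_mem _ _ (lam_mem_rowV φ _)) ?_
  · have := congrFun h y
    simpa [Finset.sum_apply, lam_apply] using this
  · intro i hi
    have hT : T = insert i (T.erase i) := (Finset.insert_erase hi).symm
    rw [map_sum, hT, Finset.sum_powerset_insert (Finset.notMem_erase i T),
      ← Finset.sum_add_distrib]
    refine Finset.sum_eq_zero fun S hS => ?_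
    have hiS : i ∉ S := fun h => Finset.notMem_erase i T (Finset.mem_powerset.1 hS h)
    rw [Finset.card_insert_of_notMem hiS, pow_succ, piece_insert k hiS, map_mul, lam_mul,
      map_smul, map_smul]
    have : avg Φ i (lam (Φ (Pi.mulSingle i (k i))) (lam (Φ (piece k S)) φ))
        = avg Φ i (lam (Φ (piece k S)) φ) := avg_opA Φ i (k i) _
    rw [this]
    rw [← add_smul]
    simp

end

end Pool.Agent.Lib_helper74.LR
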