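import Mathlib
import Pool.Agent.Lib_helper74.LR.Oper
import Pool.Agent.Lib_helper10.LogRank.Cube

set_option autoImplicit false
set_option linter.unusedSectionVars false

/-! Rank facts: complex row space versus real rank, triangular submatrices, and the bound on the
number of commuting perfect sensitive blocks. -/

namespace Pool.Agent.Lib_helper74.LR

open Module Finset

section

variable {G : Type*} [Group G] [Finite G] {Y : Type*} [Fintype Y] [MulAction G Y]

/-- real indicator -/
def ind (b : Bool) : ℝ := if b then 1 else 0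

/-- The real matrix `φ (g • y)`. -/
noncomputable def mat (G : Type*) [Group G] {Y : Type*} [MulAction G Y] (φ : Y → Bool) :
    Matrix G Y ℝ := Matrix.of fun g y => ind (φ (g • y))

theorem finrank_rowV_le (φ : Y → Bool) :
    finrank ℂ (rowV G (fun y => ((ind (φ y) : ℝ) : ℂ))) ≤ (mat G φ).rank := by
  rw [Matrix.rank_eq_finrank_span_row]
  set VR := Submodule.span ℝ (Set.range (mat G φ).row) with hVR
  let b := Module.finBasis ℝ VR
  have hsub : rowV G (fun y => ((ind (φ y) : ℝ) : ℂ)) ≤ Submodule.span ℂ
      (Set.range fun i => (fun y : Y => (((b i : VR) : Y → ℝ) y : ℂ))) := by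
    refine Submodule.span_le.2 ?_
    rintro _ ⟨g, rfl⟩
    have hg : (mat G φ).row g ∈ VR := Submodule.subset_span ⟨g, rfl⟩
    have h1 := b.sum_repr ⟨(mat G φ).row g, hg⟩
    have h2 := congrArg (fun v : VR => (v : Y → ℝ)) h1
    simp only [Submodule.coe_sum, Submodule.coe_smul] at h2
    have h3 : (lam g (fun y => ((ind (φ y) : ℝ) : ℂ)) : Y → ℂ)
        = ∑ i, ((b.repr ⟨(mat G φ).row g, hg⟩ i : ℝ) : ℂ) •
          (fun y : Y => (((b i : VR) : Y → ℝ) y : ℂ)) := by
      funext y
      have h4 := congrFun h2 y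
      simp only [Finset.sum_apply, Pi.smul_apply, smul_eq_mul] at h4 ⊢
      rw [lam_apply]
      have h5 : (mat G φ).row g y = ind (φ (g • y)) := rfl
      rw [h5] at h4
      rw [← h4]
      push_cast
      rfl
    simp only [SetLike.mem_coe]
    rw [h3]
    exact Submodule.sum_mem _ fun i _ => Submodule.smul_mem _ _ (Submodule.subset_span ⟨i, rfl⟩)
  calc finrank ℂ (rowV G (fun y => ((ind (φ y) : ℝ) : ℂ)))
      ≤ finrank ℂ (Submodule.span ℂ
      (Set.range fun i => (fun y : Y => (((b i : VR) : Y → ℝ) y : ℂ)))) :=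
        Submodule.finrank_mono hsub
    _ ≤ Fintype.card (Fin (finrank ℝ VR)) := finrank_range_le_card _
    _ = finrank ℝ VR := Fintype.card_fin _

theorem rank_add_le {m n : Type*} [Fintype m] [Fintype n] (A B : Matrix m n ℝ) :
    (A + B).rank ≤ A.rank + B.rank := by
  have h1 : LinearMap.range (A + B).mulVecLin ≤
      LinearMap.range A.mulVecLin ⊔ LinearMap.range B.mulVecLin := by
    rintro _ ⟨v, rfl⟩
    rw [Matrix.mulVecLin_add, LinearMap.add_apply]
    exact Submodule.add_mem_sup ⟨v, rfl⟩ ⟨v, rfl⟩
  exact (Submodule.finrank_mono h1).trans (Submodule.finrank_add_le_finrank_add_finrank _ _)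

/-- Triangular submatrices indexed by subsets. -/
theorem tri_rank {κ : Type} [Fintype κ] [DecidableEq κ] (φ : Y → Bool) (c : Bool)
    (α : Finset κ → G) (β : Finset κ → Y) (hd : ∀ S, φ (α S • β S) ≠ c)
    (ht : ∀ S S', ¬ S' ⊆ S → φ (α S • β S') = c) :
    2 ^ Fintype.card κ ≤ (mat G φ).rank + 1 := by
  classical
  let M : Matrix (Finset κ) (Finset κ) ℝ := Matrix.of fun S S' => ind (φ (α S • β S')) - ind c
  have hM : LinearIndependent ℝ M.row := by
    rw [Fintype.linearIndependent_iff]
    intro a ha
    by_contra hcon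
    push Not at hcon
    obtain ⟨S, hS⟩ := hcon
    obtain ⟨S₀, hS₀, hmax⟩ := Finset.exists_max_image (univ.filter fun S => a S ≠ 0) Finset.card
      ⟨S, by simp [hS]⟩
    simp only [mem_filter, mem_univ, true_and] at hS₀ hmax
    have h1 := congrFun ha S₀
    simp only [Finset.sum_apply, Pi.smul_apply, smul_eq_mul, Pi.zero_apply] at h1
    rw [Finset.sum_eq_single S₀] at h1
    · have h2 : M.row S₀ S₀ ≠ 0 := by
        have h3 := hd S₀
        simp only [M, Matrix.row, Matrix.of_apply, ind]
        cases hc : c <;> cases hp : φ (α S₀ • β S₀) <;> simp_all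
      exact (mul_ne_zero hS₀ h2) h1
    · intro S₁ _ hne
      by_cases h0 : a S₁ = 0
      · rw [h0, zero_mul]
      · by_cases hsub : S₀ ⊆ S₁
        · exfalso
          have h3 := hmax S₁ h0
          exact hne (Finset.eq_of_subset_of_card_le hsub h3).symm
        · have h4 := ht S₁ S₀ hsub
          have : M.row S₁ S₀ = 0 := by
            simp only [M, Matrix.row, Matrix.of_apply, h4, sub_self]
          rw [this, mul_zero]
    · intro h; exact absurd (mem_univ _) h
  have h1 : M.rank = 2 ^ Fintype.card κ := by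
    rw [hM.rank_matrix, Fintype.card_finset]
  have h2 : M = (mat G φ).submatrix α β + Matrix.of fun _ _ => - ind c := by
    ext S S'
    simp [M, mat, sub_eq_add_neg]
  have h3 : (Matrix.of fun (_ : Finset κ) (_ : Finset κ) => - ind c).rank ≤ 1 := by
    have : (Matrix.of fun (_ : Finset κ) (_ : Finset κ) => - ind c)
        = Matrix.vecMulVec (fun _ => - ind c) (fun _ => 1) := by
      ext; simp [Matrix.vecMulVec]
    rw [this]
    exact Matrix.rank_vecMulVec_le _ _
  have h4 : ((mat G φ).submatrix α β).rank ≤ (mat G φ).rank := by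
    exact Matrix.rank_submatrix_le _ _ _
  calc 2 ^ Fintype.card κ = M.rank := h1.symm
    _ ≤ ((mat G φ).submatrix α β).rank + (Matrix.of fun (_ : Finset κ) (_ : Finset κ) => - ind c).rank := by
        rw [h2]; exact rank_add_le _ _
    _ ≤ _ := by omega

/-- Moebius inversion on subsets -/
theorem moebius {ι : Type} [DecidableEq ι] (S : Finset ι) : ∀ (h : Finset ι → ℝ),
    h S = ∑ T ∈ S.powerset, ∑ U ∈ T.powerset, (-1 : ℝ) ^ (T.card + U.card) * h U := by
  induction S using Finset.induction_on with
  | empty => intro h; simp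
  | insert i S hi ih =>
    intro h
    rw [Finset.sum_powerset_insert hi]
    have e1 := ih h
    have e2 := ih fun U => h (insert i U) - h U
    rw [← e1]
    have e3 : ∑ T ∈ S.powerset, ∑ U ∈ (insert i T).powerset,
        (-1 : ℝ) ^ ((insert i T).card + U.card) * h U
        = ∑ T ∈ S.powerset, ∑ U ∈ T.powerset, (-1 : ℝ) ^ (T.card + U.card) *
          (h (insert i U) - h U) := by
      refine Finset.sum_congr rfl fun T hT => ?_
      have hiT : i ∉ T := fun h => hi (Finset.mem_powerset.1 hT h)
      rw [Finset.sum_powerset_insert hiT, ← Finset.sum_add_distrib]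
      refine Finset.sum_congr rfl fun U hU => ?_
      have hiU : i ∉ U := fun h => hiT (Finset.mem_powerset.1 hU h)
      rw [Finset.card_insert_of_notMem hiT, Finset.card_insert_of_notMem hiU]
      ring
    rw [e3, ← e2]
    ring

variable {ι : Type} [Fintype ι] [DecidableEq ι] {K : ι → Type*} [∀ i, Group (K i)]
  [∀ i, Fintype (K i)]

/-- At most `L ^ 2` commuting perfect blocks are sensitive. -/
theorem sens_card_le (Φ : (∀ i, K i) →* G) (φ : Y → Bool) (L : ℕ)
    (hperf : ∀ i, IsPerf (K i)) (hr : (mat G φ).rank < 2 ^ L) (k : ∀ i, K i) (y : Y)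
    (hs : ∀ i, φ (Φ (Pi.mulSingle i (k i)) • y) ≠ φ y) : Fintype.card ι ≤ L ^ 2 := by
  classical
  let h : Finset ι → ℝ := fun S => if φ (Φ (piece k S) • y) = φ y then 0 else 1
  have hpiece0 : piece k (∅ : Finset ι) = 1 := by funext i; simp [piece]
  have hpiece1 : ∀ i, piece k {i} = Pi.mulSingle i (k i) := by
    intro i
    rw [← Finset.insert_empty, piece_insert k (Finset.notMem_empty i), hpiece0, one_mul]
  have h01 : ∀ V, 0 ≤ h V ∧ h V ≤ 1 := by
    intro V; simp only [h]; split_ifs <;> norm_num
  have hh0 : h ∅ = 0 := by simp [h, hpiece0]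
  have hh1 : ∀ j, h {j} = 1 := by
    intro j; simp only [h, hpiece1, hs j, if_false]
  refine Lib_helper10.LogRank.card_le_sq_of_cubeLow (d := L) (h := h) ?_ h01 hh0 hh1
  -- coefficients
  have hcoef : ∀ T : Finset ι, L < T.card →
      ∑ U ∈ T.powerset, (-1 : ℝ) ^ (T.card + U.card) * h U = 0 := by
    intro T hT
    have hfr : finrank ℂ (rowV G (fun y => ((ind (φ y) : ℝ) : ℂ))) < 2 ^ T.card :=
      (finrank_rowV_le φ).trans_lt (hr.trans_le (Nat.pow_le_pow_right (by norm_num) hT.le))
    have h1 := diff_eq_zero Φ (fun y => ((ind (φ y) : ℝ) : ℂ)) T (fun i _ => hperf i) hfr k y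
    have h2 : ∑ U ∈ T.powerset, (-1 : ℝ) ^ U.card * ind (φ (Φ (piece k U) • y)) = 0 := by
      exact_mod_cast h1
    have h3 : ∑ U ∈ T.powerset, (-1 : ℝ) ^ U.card = 0 := by
      have := Finset.sum_powerset_neg_one_pow_card (x := T)
      have hTne : T ≠ ∅ := by
        intro h; rw [h, Finset.card_empty] at hT; omega
      rw [if_neg hTne] at this
      exact_mod_cast this
    have h4 : ∀ U, h U = ind (φ y) + (1 - 2 * ind (φ y)) * ind (φ (Φ (piece k U) • y)) := by
      intro U
      simp only [h, ind]
      cases φ y <;> cases φ (Φ (piece k U) • y) <;> norm_num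
    have h5 : ∑ U ∈ T.powerset, (-1 : ℝ) ^ U.card * h U = 0 := by
      simp only [h4, mul_add, Finset.sum_add_distrib]
      rw [← Finset.sum_mul, h3, zero_mul, zero_add]
      have : ∀ U : Finset ι, (-1 : ℝ) ^ U.card * ((1 - 2 * ind (φ y)) *
          ind (φ (Φ (piece k U) • y))) = (1 - 2 * ind (φ y)) * ((-1 : ℝ) ^ U.card *
          ind (φ (Φ (piece k U) • y))) := fun U => by ring
      simp only [this]
      rw [← Finset.mul_sum, h2, mul_zero]
    have h6 : ∀ U : Finset ι, (-1 : ℝ) ^ (T.card + U.card) * h U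
        = (-1 : ℝ) ^ T.card * ((-1 : ℝ) ^ U.card * h U) := fun U => by rw [pow_add]; ring
    simp only [h6]
    rw [← Finset.mul_sum, h5, mul_zero]
  -- membership
  have hrep : h = ∑ T : Finset ι, (∑ U ∈ T.powerset, (-1 : ℝ) ^ (T.card + U.card) * h U) •
      (fun V : Finset ι => if T ⊆ V then (1 : ℝ) else 0) := by
    funext V
    rw [Finset.sum_apply]
    simp only [Pi.smul_apply, smul_eq_mul, mul_ite, mul_one, mul_zero]
    rw [← Finset.sum_filter]
    have : (univ.filter fun T : Finset ι => T ⊆ V) = V.powerset := by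
      ext T; simp
    rw [this]
    exact moebius V h
  rw [hrep]
  refine Submodule.sum_mem _ fun T _ => ?_
  by_cases hT : L < T.card
  · rw [hcoef T hT, zero_smul]; exact Submodule.zero_mem _
  · refine Submodule.smul_mem _ _ (Submodule.subset_span ⟨T, by omega, fun V => ?_⟩)
    have : T ⊆ V ↔ T ⊆ V ∩ T := by
      constructor
      · intro h; exact Finset.subset_inter h (Finset.Subset.refl _)
      · intro h; exact h.trans Finset.inter_subset_left
    simp only [← this]

end

end Pool.Agent.Lib_helper74.LR
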