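import Mathlib
import Pool.Agent.Lib_helper74.LR.Sens

set_option autoImplicit false
set_option linter.unusedSectionVars false

/-! The number of pairwise commuting perfect blocks on which a low rank function depends. -/

namespace Pool.Agent.Lib_helper74.LR

open Module Finset

theorem idem_card_le {E : Type*} [AddCommGroup E] [Module ℂ E] [FiniteDimensional ℂ E]
    {ι : Type} [DecidableEq ι] (q : ι → Module.End ℂ E)
    (hidem : ∀ i v, q i (q i v) = q i v) (hcomm : ∀ i j v, q i (q j v) = q j (q i v)) (L : ℕ) :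
    ∀ (n : ℕ) (U : Submodule ℂ E), finrank ℂ U = n → (∀ i, ∀ v ∈ U, q i v ∈ U) →
      (∀ T : Finset ι, T.card = L → ∀ v ∈ U, (∀ i ∈ T, q i v = v) → v = 0) →
      ∀ I : Finset ι, (∀ i ∈ I, ∃ v ∈ U, q i v ≠ 0) → I.card ≤ L * n := by
  classical
  intro n
  induction n using Nat.strong_induction_on with
  | _ n ih =>
  intro U hn hinv hz I hI
  by_cases hex : ∃ i ∈ I, ∃ v ∈ U, q i v ≠ v
  · obtain ⟨i, hi, v, hv, hvi⟩ := hex
    obtain ⟨w, hw, hwi⟩ := hI i hi
    let U₁ : Submodule ℂ E :=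
      { carrier := {u | u ∈ U ∧ q i u = u}
        add_mem' := by
          rintro x y ⟨hx, hx'⟩ ⟨hy, hy'⟩
          exact ⟨U.add_mem hx hy, by rw [map_add, hx', hy']⟩
        zero_mem' := ⟨U.zero_mem, by simp⟩
        smul_mem' := by
          rintro c x ⟨hx, hx'⟩
          exact ⟨U.smul_mem c hx, by rw [map_smul, hx']⟩ }
    let U₂ : Submodule ℂ E :=
      { carrier := {u | u ∈ U ∧ q i u = 0}
        add_mem' := by
          rintro x y ⟨hx, hx'⟩ ⟨hy, hy'⟩
          exact ⟨U.add_mem hx hy, by rw [map_add, hx', hy', add_zero]⟩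
        zero_mem' := ⟨U.zero_mem, by simp⟩
        smul_mem' := by
          rintro c x ⟨hx, hx'⟩
          exact ⟨U.smul_mem c hx, by rw [map_smul, hx', smul_zero]⟩ }
    have h1 : U₁ ≠ ⊥ := by
      rw [Submodule.ne_bot_iff]
      exact ⟨q i w, ⟨hinv i w hw, hidem i w⟩, hwi⟩
    have h2 : U₂ ≠ ⊥ := by
      rw [Submodule.ne_bot_iff]
      refine ⟨v - q i v, ⟨U.sub_mem hv (hinv i v hv), ?_⟩, sub_ne_zero.2 (Ne.symm hvi)⟩
      rw [map_sub, hidem, sub_self]
    have hinf : U₁ ⊓ U₂ = ⊥ := by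
      rw [eq_bot_iff]
      rintro u ⟨⟨_, hu1⟩, ⟨_, hu2⟩⟩
      rw [Submodule.mem_bot, ← hu1, hu2]
    have hsup : U₁ ⊔ U₂ = U := by
      refine le_antisymm (sup_le (fun u hu => hu.1) fun u hu => hu.1) fun u hu => ?_
      have : u = q i u + (u - q i u) := by abel
      rw [this]
      refine Submodule.add_mem_sup ⟨hinv i u hu, hidem i u⟩ ⟨U.sub_mem hu (hinv i u hu), ?_⟩
      rw [map_sub, hidem, sub_self]
    have hdim : finrank ℂ U₁ + finrank ℂ U₂ = n := by
      have := Submodule.finrank_sup_add_finrank_inf_eq U₁ U₂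
      rw [hinf, finrank_bot, add_zero, hsup, hn] at this
      exact this.symm
    have hp1 : 0 < finrank ℂ U₁ := by
      have : Nontrivial U₁ := (Submodule.nontrivial_iff_ne_bot).2 h1
      exact finrank_pos
    have hp2 : 0 < finrank ℂ U₂ := by
      have : Nontrivial U₂ := (Submodule.nontrivial_iff_ne_bot).2 h2
      exact finrank_pos
    have hi1 : ∀ j, ∀ v ∈ U₁, q j v ∈ U₁ := by
      rintro j u ⟨hu, hu'⟩
      exact ⟨hinv j u hu, by rw [hcomm, hu']⟩
    have hi2 : ∀ j, ∀ v ∈ U₂, q j v ∈ U₂ := by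
      rintro j u ⟨hu, hu'⟩
      exact ⟨hinv j u hu, by rw [hcomm, hu', map_zero]⟩
    have b1 := ih (finrank ℂ U₁) (by omega) U₁ rfl hi1
      (fun T hT v hv => hz T hT v hv.1) (I.filter fun j => ∃ v ∈ U₁, q j v ≠ 0)
      (fun j hj => (mem_filter.1 hj).2)
    have b2 := ih (finrank ℂ U₂) (by omega) U₂ rfl hi2
      (fun T hT v hv => hz T hT v hv.1) (I.filter fun j => ∃ v ∈ U₂, q j v ≠ 0)
      (fun j hj => (mem_filter.1 hj).2)
    have hcov : I ⊆ (I.filter fun j => ∃ v ∈ U₁, q j v ≠ 0) ∪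
        (I.filter fun j => ∃ v ∈ U₂, q j v ≠ 0) := by
      intro j hj
      rw [mem_union, mem_filter, mem_filter]
      by_contra hcon
      push Not at hcon
      obtain ⟨c1, c2⟩ := hcon
      have c1' := c1 hj
      have c2' := c2 hj
      obtain ⟨u, hu, hu'⟩ := hI j hj
      rw [← hsup] at hu
      obtain ⟨x, hx, y, hy, rfl⟩ := Submodule.mem_sup.1 hu
      rw [map_add, c1' x hx, c2' y hy, add_zero] at hu'
      exact hu' rfl
    calc I.card ≤ _ := Finset.card_le_card hcov
      _ ≤ _ := Finset.card_union_le _ _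
      _ ≤ L * finrank ℂ U₁ + L * finrank ℂ U₂ := add_le_add b1 b2
      _ = L * n := by rw [← mul_add, hdim]
  · push Not at hex
    rcases Finset.eq_empty_or_nonempty I with rfl | ⟨i, hi⟩
    · simp
    obtain ⟨w, hw, hwi⟩ := hI i hi
    have hw0 : w ≠ 0 := by rintro rfl; exact hwi (map_zero _)
    have hUne : U ≠ ⊥ := by rw [Submodule.ne_bot_iff]; exact ⟨w, hw, hw0⟩
    have hpos : 0 < n := by
      have : Nontrivial U := (Submodule.nontrivial_iff_ne_bot).2 hUne
      rw [← hn]; exact finrank_pos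
    by_cases hcard : L ≤ I.card
    · obtain ⟨T, hTI, hT⟩ := Finset.exists_subset_card_eq hcard
      exact absurd (hz T hT w hw fun j hj => hex j (hTI hj) w hw) hw0
    · push Not at hcard
      exact hcard.le.trans (Nat.le_mul_of_pos_right L hpos)

section

variable {G : Type*} [Group G] [Finite G] {Y : Type*} [Fintype Y] [MulAction G Y]
variable {ι : Type} [Fintype ι] [DecidableEq ι] {K : ι → Type*} [∀ i, Group (K i)]
  [∀ i, Fintype (K i)]

/-- the number of relevant blocks is at most `L * rank`. -/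
theorem relevant_card_le (Φ : (∀ i, K i) →* G) (φ : Y → Bool) (L : ℕ)
    (hperf : ∀ i, IsPerf (K i)) (hr : (mat G φ).rank < 2 ^ L)
    (hs : ∀ i, ∃ (g : G) (a : K i) (y : Y),
      φ (g • (Φ (Pi.mulSingle i a) • y)) ≠ φ (g • y)) :
    Fintype.card ι ≤ L * (mat G φ).rank := by
  classical
  set ψ : Y → ℂ := fun y => ((ind (φ y) : ℝ) : ℂ) with hψ
  have hfr : finrank ℂ (rowV G ψ) ≤ (mat G φ).rank := finrank_rowV_le φ
  have key := idem_card_le (fun i => (LinearMap.id - avg Φ i : Module.End ℂ (Y → ℂ)))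
    (by intro i v; simp [avg_avg])
    (by
      intro i j v
      simp only [LinearMap.sub_apply, LinearMap.id_apply, map_sub]
      rw [avg_comm Φ i j v]; abel) L (finrank ℂ (rowV G ψ)) (rowV G ψ) rfl
    (by
      intro i v hv
      simp only [LinearMap.sub_apply, LinearMap.id_apply]
      exact Submodule.sub_mem _ hv (avg_mem Φ i ψ hv))
    (by
      intro T hT v hv h
      refine eq_zero_of_avg Φ ψ T (fun i _ => hperf i) ?_ hv fun i hi => ?_
      · rw [hT]; omega
      · have := h i hi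
        simp only [LinearMap.sub_apply, LinearMap.id_apply] at this
        simpa using this) Finset.univ
    (by
      intro i _
      by_contra hcon
      push Not at hcon
      obtain ⟨g, a, y, h⟩ := hs i
      apply h
      have h1 := hcon (lam g ψ) (lam_mem_rowV ψ g)
      simp only [LinearMap.sub_apply, LinearMap.id_apply, sub_eq_zero] at h1
      have h2 : opA Φ i a (lam g ψ) = lam g ψ := by
        rw [h1, opA_avg]
      have h3 := congrFun h2 y
      have h4 : (opA Φ i a (lam g ψ) : Y → ℂ) y = ψ (g • (Φ (Pi.mulSingle i a) • y)) := rfl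
      have h5 : (lam g ψ : Y → ℂ) y = ψ (g • y) := rfl
      rw [h4, h5] at h3
      simp only [hψ, ind] at h3
      revert h3
      cases φ (g • (Φ (Pi.mulSingle i a) • y)) <;> cases φ (g • y) <;> simp)
  rw [Finset.card_univ] at key
  exact key.trans (Nat.mul_le_mul le_rfl hfr)

end

end Pool.Agent.Lib_helper74.LR
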