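import Mathlib
import Pool.Agent.Lib_helper74.LR.Relev

set_option autoImplicit false
set_option linter.unusedSectionVars false

/-! Greedy construction of small certificates from sensitive blocks. -/

namespace Pool.Agent.Lib_helper74.LR

open Finset

variable {G : Type*} [Group G] {Y : Type*} [MulAction G Y]
variable {P : Type} [Fintype P] [DecidableEq P]

theorem exists_cert (H : Finset P → Subgroup G) (φ : Y → Bool) (z : Y)
    (Nice Ok : Finset P → Prop) (h0 : Nice ∅) (β Δ : ℕ)
    (hsens : ∀ (t : ℕ) (B : Fin t → Finset P), (∀ i j, i ≠ j → Disjoint (B i) (B j)) →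
      (∀ i, Ok (B i)) → (∀ i, ∃ θ ∈ H (B i), φ (θ • z) ≠ φ z) → t ≤ Δ)
    (hstep : ∀ U, Nice U → (∃ θ ∈ H Uᶜ, φ (θ • z) ≠ φ z) →
      ∃ B : Finset P, Disjoint B U ∧ B.card ≤ β ∧ Nice (U ∪ B) ∧ Ok B ∧
        ∃ θ ∈ H B, φ (θ • z) ≠ φ z) :
    ∃ U : Finset P, Nice U ∧ U.card ≤ Δ * β ∧ ∀ θ ∈ H Uᶜ, φ (θ • z) = φ z := by
  classical
  let Q : ℕ → Prop := fun t => ∃ B : Fin t → Finset P, (∀ i j, i ≠ j → Disjoint (B i) (B j)) ∧
    (∀ i, (B i).card ≤ β) ∧ (∀ i, Ok (B i)) ∧ (∀ i, ∃ θ ∈ H (B i), φ (θ • z) ≠ φ z) ∧
    Nice (univ.biUnion B)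
  have hQ0 : Q 0 := by
    refine ⟨Fin.elim0, fun i => i.elim0, fun i => i.elim0, fun i => i.elim0, fun i => i.elim0, ?_⟩
    simpa using h0
  have hQle : ∀ t, Q t → t ≤ Δ := by
    rintro t ⟨B, h1, _, h3, h4, _⟩
    exact hsens t B h1 h3 h4
  have hmax : ∃ t, Q t ∧ ¬ Q (t + 1) := by
    by_contra hcon
    push Not at hcon
    have hall : ∀ t, Q t := fun t => by
      induction t with
      | zero => exact hQ0
      | succ t ih => exact hcon t ih
    have := hQle _ (hall (Δ + 1))
    omega
  obtain ⟨t, hQt, hnQ⟩ := hmax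
  have htL := hQle t hQt
  obtain ⟨B, h1, h2, h3, h4, h5⟩ := hQt
  refine ⟨univ.biUnion B, h5, ?_, ?_⟩
  · calc (univ.biUnion B).card ≤ ∑ i : Fin t, (B i).card := Finset.card_biUnion_le
      _ ≤ ∑ _i : Fin t, β := Finset.sum_le_sum fun i _ => h2 i
      _ = t * β := by simp
      _ ≤ Δ * β := Nat.mul_le_mul htL le_rfl
  · by_contra hcon
    push Not at hcon
    obtain ⟨B', hB1, hB2, hB3, hB4, hB5⟩ := hstep _ h5 hcon
    apply hnQ
    have hdisj : ∀ i, Disjoint (B i) B' := by
      intro i
      refine Disjoint.symm (Disjoint.mono_right ?_ hB1)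
      exact Finset.subset_biUnion_of_mem B (mem_univ i)
    refine ⟨Fin.snoc B B', ?_, ?_, ?_, ?_, ?_⟩
    · intro i j hij
      induction i using Fin.lastCases with
      | last =>
        induction j using Fin.lastCases with
        | last => exact absurd rfl hij
        | cast j =>
          simp only [Fin.snoc_last, Fin.snoc_castSucc]
          exact (hdisj j).symm
      | cast i =>
        induction j using Fin.lastCases with
        | last =>
          simp only [Fin.snoc_last, Fin.snoc_castSucc]
          exact hdisj i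
        | cast j =>
          simp only [Fin.snoc_castSucc]
          exact h1 i j fun h => hij (by rw [h])
    · intro i
      induction i using Fin.lastCases with
      | last => simpa only [Fin.snoc_last] using hB2
      | cast i => simpa only [Fin.snoc_castSucc] using h2 i
    · intro i
      induction i using Fin.lastCases with
      | last => rw [Fin.snoc_last]; exact hB4
      | cast i => rw [Fin.snoc_castSucc]; exact h3 i
    · intro i
      induction i using Fin.lastCases with
      | last => rw [Fin.snoc_last]; exact hB5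
      | cast i => rw [Fin.snoc_castSucc]; exact h4 i
    · have : univ.biUnion (Fin.snoc B B' : Fin (t + 1) → Finset P) = univ.biUnion B ∪ B' := by
        ext p
        simp only [mem_biUnion, mem_univ, true_and, mem_union]
        constructor
        · rintro ⟨i, hi⟩
          induction i using Fin.lastCases with
          | last => rw [Fin.snoc_last] at hi; exact Or.inr hi
          | cast i => rw [Fin.snoc_castSucc] at hi; exact Or.inl ⟨i, hi⟩
        · rintro (⟨i, hi⟩ | hi)
          · exact ⟨i.castSucc, by rw [Fin.snoc_castSucc]; exact hi⟩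
          · exact ⟨Fin.last t, by rw [Fin.snoc_last]; exact hi⟩
      rw [this]
      exact hB3

end Pool.Agent.Lib_helper74.LR
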