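import Mathlib
import Pool.Agent.Lib_helper74.LR.Cert

set_option autoImplicit false
set_option linter.unusedSectionVars false

/-! Groups with atoms: an abstract description of the factors of the group (alternating groups
and small perfect groups). -/

namespace Pool.Agent.Lib_helper74.LR

open Finset

/-- the subgroup of elements that fix all atoms outside `B` -/
def supp {M A : Type} [Group M] (Fx : A → Subgroup M) (B : Finset A) : Subgroup M where
  carrier := {g | ∀ p, p ∉ B → g ∈ Fx p}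
  mul_mem' := fun ha hb p hp => mul_mem (ha p hp) (hb p hp)
  one_mem' := fun p _ => one_mem _
  inv_mem' := fun ha p hp => inv_mem (ha p hp)

theorem mem_supp {M A : Type} [Group M] {Fx : A → Subgroup M} {B : Finset A} {g : M} :
    g ∈ supp Fx B ↔ ∀ p, p ∉ B → g ∈ Fx p := Iff.rfl

theorem supp_mono {M A : Type} [Group M] (Fx : A → Subgroup M) {B B' : Finset A} (h : B ⊆ B') :
    supp Fx B ≤ supp Fx B' := fun _ hg p hp => hg p fun h' => hp (h h')

/-- A group together with atoms. -/
structure AtomGroup (M : Type) [Group M] where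
  A : Type
  E : Type
  R : Type
  fA : Fintype A
  dA : DecidableEq A
  fE : Fintype E
  dE : DecidableEq E
  fR : Fintype R
  Fx : A → Subgroup M
  comm : ∀ B B' : Finset A, Disjoint B B' → ∀ a ∈ supp Fx B, ∀ b ∈ supp Fx B', a * b = b * a
  Good : Finset A → Prop
  good_univ : Good univ
  tri : ∀ (B : Finset A) (θ : M), θ ∈ supp Fx B → (∀ p ∈ B, θ ∉ Fx p) →
    ∃ (k : ℕ) (T : Fin k → Finset A) (c : Fin k → M) (p : Fin k → A),
      (∀ i j, i ≠ j → Disjoint (T i) (T j)) ∧ (∀ i, T i ⊆ B) ∧ (∀ i, p i ∈ T i) ∧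
      (∀ i, c i ∈ supp Fx (T i)) ∧
      (∀ i, ∀ h ∈ supp Fx (univ.filter fun a => a ∉ T i), (c i)⁻¹ * (h * θ) ∈ Fx (p i)) ∧
      B.card ≤ 6 * k
  enlarge : ∀ (w b : Finset A) (θ : M), Good w → b ⊆ w → θ ∈ supp Fx b →
    (∀ p ∈ b, θ ∉ Fx p) →
    ∃ s, b ⊆ s ∧ s ⊆ w ∧ Good s ∧ Good (w \ s) ∧ s.card ≤ 3 * b.card
  cl : Finset A → Finset A
  le_cl : ∀ B, B ⊆ cl B
  card_cl : ∀ B, (cl B).card ≤ 3 * B.card
  it : A → M → E
  holds : E → M → Prop
  it_holds : ∀ (S : Finset A) (g g' : M), (∀ v ∈ S, holds (it v g) g') →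
    g' * g⁻¹ ∈ supp Fx (univ.filter fun a => a ∉ S)
  rev : E → M → R
  dec : E → R → Set E
  dec_holds : ∀ e g, ∀ e' ∈ dec e (rev e g), holds e' g
  conflict : ∀ (S S' : Finset A) (g g' : M),
    (∀ v ∈ cl S, ∀ v' ∈ cl S', it v' g' ∈ dec (it v g) (rev (it v g) g') →
      holds (it v' g') g) →
    ∃ θ ∈ supp Fx (univ.filter fun a => a ∉ cl S),
      ∃ θ' ∈ supp Fx (univ.filter fun a => a ∉ cl S'), θ * g = θ' * g'

attribute [instance] AtomGroup.fA AtomGroup.dA AtomGroup.fE AtomGroup.dE AtomGroup.fR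

/-- membership of the image of a coproduct homomorphism in a subgroup -/
theorem noncomm_mem {G : Type} [Group G] {κ : Type} [Fintype κ] (H : κ → Subgroup G)
    (hcomm : Pairwise fun i j => ∀ (x : H i) (y : H j),
      Commute ((H i).subtype x) ((H j).subtype y)) (f : ∀ i, H i) (N : Subgroup G)
    (hN : ∀ i, (f i : G) ∈ N) :
    MonoidHom.noncommPiCoprod (fun i => (H i).subtype) hcomm f ∈ N := by
  rw [MonoidHom.noncommPiCoprod_apply]
  exact Subgroup.noncommProd_mem N _ fun i _ => hN i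

section

variable {G : Type} [Group G] [Finite G] {Y : Type} [Fintype Y] [MulAction G Y]
variable {P : Type} [Fintype P] [DecidableEq P]

/-- The triangular matrix argument for a minimal sensitive set of atoms. -/
theorem abs_tri (Fx : P → Subgroup G)
    (hcomm : ∀ B B' : Finset P, Disjoint B B' → ∀ a ∈ supp Fx B, ∀ b ∈ supp Fx B', a * b = b * a)
    (φ : Y → Bool) (z : Y) (B : Finset P) (θ : G) (hθ : θ ∈ supp Fx B) (hs : φ (θ • z) ≠ φ z)
    (hmin : ∀ p ∈ B, ∀ θ' ∈ supp Fx (B.erase p), φ (θ' • z) = φ z)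
    {κ : Type} [Fintype κ] [DecidableEq κ] (T : κ → Finset P) (c : κ → G) (p : κ → P)
    (hdis : ∀ i j, i ≠ j → Disjoint (T i) (T j)) (hT : ∀ i, T i ⊆ B) (hp : ∀ i, p i ∈ T i)
    (hc : ∀ i, c i ∈ supp Fx (T i))
    (hfix : ∀ i, ∀ h ∈ supp Fx (univ.filter fun a => a ∉ T i), (c i)⁻¹ * (h * θ) ∈ Fx (p i)) :
    2 ^ Fintype.card κ ≤ (mat G φ).rank + 1 := by
  classical
  have hcm : Pairwise fun i j => ∀ (x : supp Fx (T i)) (y : supp Fx (T j)),
      Commute ((supp Fx (T i)).subtype x) ((supp Fx (T j)).subtype y) := by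
    intro i j hij x y
    exact hcomm _ _ (hdis i j hij) x x.2 y y.2
  let Φ : (∀ i, supp Fx (T i)) →* G :=
    MonoidHom.noncommPiCoprod (fun i => (supp Fx (T i)).subtype) hcm
  let k : ∀ i, supp Fx (T i) := fun i => ⟨c i, hc i⟩
  refine tri_rank (κ := κ) φ (φ z) (fun S => Φ (piece k S))
    (fun S => ((Φ (piece k S))⁻¹ * θ) • z) ?_ ?_
  · intro S
    rw [← mul_smul, mul_inv_cancel_left]
    exact hs
  · intro S S' hSS
    rw [Finset.subset_iff] at hSS
    push Not at hSS
    obtain ⟨i, hi', hi⟩ := hSS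
    rw [← mul_smul, ← mul_assoc, ← map_inv, ← map_mul]
    set f : ∀ i, supp Fx (T i) := piece k S * (piece k S')⁻¹ with hf
    have hfi : f i = (k i)⁻¹ := by
      simp [hf, piece, hi, hi']
    -- split off the factor `i`
    have hsplit : f = Pi.mulSingle i ((k i)⁻¹) * Function.update f i 1 := by
      funext j
      by_cases hj : j = i
      · subst hj; simp [hfi]
      · simp [hj]
    have hmem1 : Φ f ∈ supp Fx B := noncomm_mem _ hcm f _ fun j => supp_mono Fx (hT j) (f j).2
    have hmem2 : Φ (Function.update f i 1) ∈ supp Fx (univ.filter fun a => a ∉ T i) := by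
      refine noncomm_mem _ hcm _ _ fun j => ?_
      by_cases hj : j = i
      · subst hj
        rw [Function.update_self]
        exact one_mem _
      · rw [Function.update_of_ne hj]
        refine supp_mono Fx ?_ (f j).2
        intro a ha
        rw [mem_filter]
        exact ⟨mem_univ _, fun h => (Finset.disjoint_left.1 (hdis j i hj) ha h)⟩
    have hsingle : Φ (Pi.mulSingle i ((k i)⁻¹)) = (c i)⁻¹ := by
      simp only [Φ, MonoidHom.noncommPiCoprod_mulSingle]
      rfl
    refine hmin (p i) (hT i (hp i)) _ ?_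
    intro q hq
    by_cases hqB : q ∈ B
    · have hqp : q = p i := by
        by_contra hne
        exact hq (Finset.mem_erase.2 ⟨hne, hqB⟩)
      rw [hqp, hsplit, map_mul, hsingle, mul_assoc]
      exact hfix i _ hmem2
    · exact mul_mem (hmem1 q hqB) (hθ q hqB)

end

end Pool.Agent.Lib_helper74.LR
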