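import Mathlib
import Pool.Agent.Lib_helper74.LR.Atom

set_option autoImplicit false
set_option linter.unusedSectionVars false

/-! The alternating group as a group with atoms (its points). -/

namespace Pool.Agent.Lib_helper74.LR

open Finset Equiv

section

variable {V : Type} [Fintype V] [DecidableEq V]

theorem pai (ω : Perm V) (v : V) : ω (ω⁻¹ v) = v := ω.apply_symm_apply v

theorem pia (ω : Perm V) (v : V) : ω⁻¹ (ω v) = v := ω.symm_apply_apply v

/-- stabilizer of a point in the alternating group -/
def fxV (v : V) : Subgroup (alternatingGroup V) where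
  carrier := {g | (g : Perm V) v = v}
  mul_mem' := by
    intro a b ha hb
    simp only [Set.mem_ofPred_eq] at ha hb ⊢
    rw [Subgroup.coe_mul, Perm.mul_apply, hb, ha]
  one_mem' := by simp
  inv_mem' := by
    intro a ha
    simp only [Set.mem_ofPred_eq] at ha ⊢
    rw [Subgroup.coe_inv, Perm.inv_eq_iff_eq]
    exact ha.symm

theorem mem_fxV {v : V} {g : alternatingGroup V} : g ∈ fxV v ↔ (g : Perm V) v = v := Iff.rfl

theorem alt_comm (B B' : Finset V) (hd : Disjoint B B') (a : alternatingGroup V)
    (ha : a ∈ supp fxV B) (b : alternatingGroup V) (hb : b ∈ supp fxV B') : a * b = b * a := by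
  have h : Perm.Disjoint (a : Perm V) (b : Perm V) := by
    intro x
    by_cases hx : x ∈ B
    · right; exact hb x fun h' => Finset.disjoint_left.1 hd hx h'
    · left; exact ha x hx
  apply Subtype.ext
  exact h.commute.eq

theorem perf_of_commutator {K : Type*} [Group K] (h : commutator K = ⊤) : IsPerf K := by
  intro f a
  have h1 : a ∈ commutator K := by rw [h]; exact Subgroup.mem_top a
  exact Abelianization.commutator_subset_ker f h1

theorem alt_perf (B : Finset V) (hB : B.card = 0 ∨ 5 ≤ B.card) : IsPerf (supp fxV B) := by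
  rcases hB with hB | hB
  · rw [Finset.card_eq_zero] at hB
    subst hB
    intro f a
    have : a = 1 := by
      apply Subtype.ext
      apply Subtype.ext
      ext x
      have h1 := a.2 x (Finset.notMem_empty x)
      rw [mem_fxV] at h1
      simp [h1]
    rw [this, map_one]
  · intro f a
    have hperf : IsPerf (alternatingGroup B) :=
      perf_of_commutator (commutator_alternatingGroup_eq_top (by simpa using hB))
    let j : alternatingGroup B →* supp fxV B :=
      (alternatingGroup.ofSubtype B).codRestrict (supp fxV B) (by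
        intro x p hp
        have h1 := (alternatingGroup.mem_range_ofSubtype_iff B (alternatingGroup.ofSubtype B x)).1
          ⟨x, rfl⟩
        rw [mem_fxV]
        by_contra hne
        exact hp (h1 (Perm.mem_support.2 hne)))
    have h2 : (a : alternatingGroup V) ∈ (alternatingGroup.ofSubtype B).range := by
      rw [alternatingGroup.mem_range_ofSubtype_iff]
      intro x hx
      by_contra hxB
      exact (Perm.mem_support.1 hx) (a.2 x hxB)
    obtain ⟨b, hb⟩ := h2
    have h3 : j b = a := Subtype.ext hb
    rw [← h3]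
    exact hperf (f.comp j) b

/-- three cycles -/
def cyc3 (p q u : V) (hpq : p ≠ q) (hqu : q ≠ u) : alternatingGroup V :=
  ⟨swap p q * swap q u, by
    rw [Perm.mem_alternatingGroup, map_mul, Perm.sign_swap hpq, Perm.sign_swap hqu]; decide⟩

theorem cyc3_apply (p q u : V) (hpq : p ≠ q) (hqu : q ≠ u) (hpu : p ≠ u) :
    (cyc3 p q u hpq hqu : Perm V) p = q := by
  simp only [cyc3, Perm.mul_apply]
  rw [swap_apply_of_ne_of_ne hpq hpu, swap_apply_left]

theorem cyc3_mem (p q u : V) (hpq : p ≠ q) (hqu : q ≠ u) :
    cyc3 p q u hpq hqu ∈ supp fxV {p, q, u} := by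
  intro x hx
  simp only [mem_insert, mem_singleton, not_or] at hx
  rw [mem_fxV]
  simp only [cyc3, Perm.mul_apply]
  rw [swap_apply_of_ne_of_ne hx.2.1 hx.2.2, swap_apply_of_ne_of_ne hx.1 hx.2.1]

theorem moved_mem {B : Finset V} {θ : alternatingGroup V} (hθ : θ ∈ supp fxV B)
    (hm : ∀ p ∈ B, θ ∉ fxV p) {p : V} (hp : p ∈ B) : (θ : Perm V) p ∈ B := by
  by_contra hcon
  have h1 := hθ _ hcon
  rw [mem_fxV] at h1
  exact hm p hp ((θ : Perm V).injective h1)

theorem card_moved {B : Finset V} {θ : alternatingGroup V} (hθ : θ ∈ supp fxV B)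
    (hm : ∀ p ∈ B, θ ∉ fxV p) : B.card = 0 ∨ 3 ≤ B.card := by
  have hsup : (θ : Perm V).support = B := by
    ext x
    rw [Perm.mem_support]
    constructor
    · intro h
      by_contra hx
      exact h (hθ x hx)
    · intro hx h
      exact hm x hx h
  by_contra hcon
  push Not at hcon
  obtain ⟨h0, h3⟩ := hcon
  have h12 : B.card ≤ 1 ∨ B.card = 2 := by omega
  rcases h12 with h | h
  · rw [← hsup, Perm.card_support_le_one] at h
    apply h0
    rw [← hsup, h, Perm.support_one, Finset.card_empty]
  · rw [← hsup, Perm.card_support_eq_two] at h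
    have h4 := h.sign_eq
    have h5 : Perm.sign (θ : Perm V) = 1 := θ.2
    rw [h5] at h4
    exact absurd h4 (by decide)

theorem alt_tri (B : Finset V) (θ : alternatingGroup V) (hθ : θ ∈ supp fxV B)
    (hm : ∀ p ∈ B, θ ∉ fxV p) :
    ∃ (k : ℕ) (T : Fin k → Finset V) (c : Fin k → alternatingGroup V) (p : Fin k → V),
      (∀ i j, i ≠ j → Disjoint (T i) (T j)) ∧ (∀ i, T i ⊆ B) ∧ (∀ i, p i ∈ T i) ∧
      (∀ i, c i ∈ supp fxV (T i)) ∧
      (∀ i, ∀ h ∈ supp fxV (univ.filter fun a => a ∉ T i), (c i)⁻¹ * (h * θ) ∈ fxV (p i)) ∧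
      B.card ≤ 6 * k := by
  classical
  have hmB : ∀ p ∈ B, (θ : Perm V) p ∈ B := fun p hp => moved_mem hθ hm hp
  have hne : ∀ p ∈ B, (θ : Perm V) p ≠ p := fun p hp h => hm p hp h
  let Q : ℕ → Prop := fun k => ∃ p u : Fin k → V,
    (∀ i, p i ∈ B ∧ u i ∈ B ∧ p i ≠ u i ∧ (θ : Perm V) (p i) ≠ u i) ∧
    ∀ i j, i ≠ j → Disjoint ({p i, (θ : Perm V) (p i), u i} : Finset V)
      {p j, (θ : Perm V) (p j), u j}
  have hQ0 : Q 0 := ⟨Fin.elim0, Fin.elim0, fun i => i.elim0, fun i => i.elim0⟩
  have hQle : ∀ k, Q k → k ≤ B.card := by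
    rintro k ⟨p, u, h1, h2⟩
    have hinj : Function.Injective p := by
      intro i j hij
      by_contra hne'
      exact Finset.disjoint_left.1 (h2 i j hne') (Finset.mem_insert_self _ _)
        (by rw [hij]; exact Finset.mem_insert_self _ _)
    calc k = (univ.image p).card := by
            rw [Finset.card_image_of_injective _ hinj, Finset.card_univ, Fintype.card_fin]
      _ ≤ B.card := Finset.card_le_card (by
            intro x hx
            obtain ⟨i, _, rfl⟩ := Finset.mem_image.1 hx
            exact (h1 i).1)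
  have hmax : ∃ k, Q k ∧ ¬ Q (k + 1) := by
    by_contra hcon
    push Not at hcon
    have hall : ∀ k, Q k := fun k => by
      induction k with
      | zero => exact hQ0
      | succ k ih => exact hcon k ih
    have := hQle _ (hall (B.card + 1))
    omega
  obtain ⟨k, ⟨p, u, h1, h2⟩, hnQ⟩ := hmax
  have hpq : ∀ i, p i ≠ (θ : Perm V) (p i) := fun i h => hne _ (h1 i).1 h.symm
  refine ⟨k, fun i => {p i, (θ : Perm V) (p i), u i},
    fun i => cyc3 (p i) ((θ : Perm V) (p i)) (u i) (hpq i) (h1 i).2.2.2, p, h2, ?_, ?_, ?_, ?_, ?_⟩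
  · intro i x hx
    simp only [mem_insert, mem_singleton] at hx
    rcases hx with rfl | rfl | rfl
    · exact (h1 i).1
    · exact hmB _ (h1 i).1
    · exact (h1 i).2.1
  · intro i; exact Finset.mem_insert_self _ _
  · intro i; exact cyc3_mem _ _ _ _ _
  · intro i h hh
    rw [mem_fxV]
    simp only [Subgroup.coe_mul, Subgroup.coe_inv, Perm.mul_apply]
    rw [Perm.inv_eq_iff_eq, cyc3_apply _ _ _ _ _ (h1 i).2.2.1]
    refine hh _ ?_
    simp
  · -- the count
    set W : Finset V := univ.biUnion fun i => ({p i, (θ : Perm V) (p i), u i} : Finset V) with hW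
    have hWcard : W.card ≤ 3 * k := by
      calc W.card ≤ ∑ i : Fin k, ({p i, (θ : Perm V) (p i), u i} : Finset V).card :=
            Finset.card_biUnion_le
        _ ≤ ∑ _i : Fin k, 3 := Finset.sum_le_sum fun i _ => Finset.card_le_three
        _ = 3 * k := by simp [mul_comm]
    have hnoext : ∀ x ∈ B \ W, (θ : Perm V) x ∈ B \ W → ∀ y ∈ B \ W,
        y = x ∨ y = (θ : Perm V) x := by
      intro x hx hx' y hy
      by_contra hcon
      push Not at hcon
      rw [Finset.mem_sdiff] at hx hx' hy
      apply hnQ
      have hdis : ∀ i, Disjoint ({p i, (θ : Perm V) (p i), u i} : Finset V)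
          {x, (θ : Perm V) x, y} := by
        intro i
        rw [Finset.disjoint_right]
        intro a ha ha'
        have haW : a ∈ W := Finset.mem_biUnion.2 ⟨i, mem_univ _, ha'⟩
        simp only [mem_insert, mem_singleton] at ha
        rcases ha with rfl | rfl | rfl
        · exact hx.2 haW
        · exact hx'.2 haW
        · exact hy.2 haW
      refine ⟨Fin.snoc p x, Fin.snoc u y, ?_, ?_⟩
      · intro i
        induction i using Fin.lastCases with
        | last =>
          simp only [Fin.snoc_last]
          exact ⟨hx.1, hy.1, fun h => hcon.1 h.symm, fun h => hcon.2 h.symm⟩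
        | cast i =>
          simp only [Fin.snoc_castSucc]
          exact h1 i
      · intro i j hij
        induction i using Fin.lastCases with
        | last =>
          induction j using Fin.lastCases with
          | last => exact absurd rfl hij
          | cast j =>
            simp only [Fin.snoc_last, Fin.snoc_castSucc]
            exact (hdis j).symm
        | cast i =>
          induction j using Fin.lastCases with
          | last =>
            simp only [Fin.snoc_last, Fin.snoc_castSucc]
            exact hdis i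
          | cast j =>
            simp only [Fin.snoc_castSucc]
            exact h2 i j fun h => hij (by rw [h])
    have hsplit : B.card ≤ W.card + (B \ W).card := by
      have h5 : (B \ W).card + (B ∩ W).card = B.card := Finset.card_sdiff_add_card_inter B W
      have h6 : (B ∩ W).card ≤ W.card := Finset.card_le_card Finset.inter_subset_right
      omega
    have hB3 := card_moved hθ hm
    by_cases hex : ∃ x ∈ B \ W, (θ : Perm V) x ∈ B \ W
    · obtain ⟨x, hx, hx'⟩ := hex
      have hsub : B \ W ⊆ {x, (θ : Perm V) x} := by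
        intro y hy
        simpa using hnoext x hx hx' y hy
      have hc2 : (B \ W).card ≤ 2 := (Finset.card_le_card hsub).trans Finset.card_le_two
      rcases Nat.eq_zero_or_pos k with hk | hk
      · have hxB : x ∈ B := (Finset.mem_sdiff.1 hx).1
        have hpos : 0 < B.card := Finset.card_pos.2 ⟨x, hxB⟩
        omega
      · omega
    · push Not at hex
      have hle : (B \ W).card ≤ W.card := by
        refine Finset.card_le_card_of_injOn (θ : Perm V) ?_ (θ : Perm V).injective.injOn
        intro x hx
        have hxB := (Finset.mem_sdiff.1 hx).1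
        by_contra hcon
        exact hex x hx (Finset.mem_sdiff.2 ⟨hmB x hxB, hcon⟩)
      omega

theorem alt_enlarge_aux (w b : Finset V) (hb : b ⊆ w) (h3 : 3 ≤ b.card) (h5 : 5 ≤ w.card) :
    ∃ s, b ⊆ s ∧ s ⊆ w ∧ (s.card = 0 ∨ 5 ≤ s.card) ∧ ((w \ s).card = 0 ∨ 5 ≤ (w \ s).card) ∧
      s.card ≤ 3 * b.card := by
  classical
  have hbw := Finset.card_le_card hb
  by_cases h : w.card ≤ 9 ∨ w.card < b.card + 5
  · refine ⟨w, hb, Finset.Subset.refl _, Or.inr h5, Or.inl (by simp), by omega⟩
  · push Not at h
    obtain ⟨s, hbs, hsw, hs⟩ := Finset.exists_subsuperset_card_eq hb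
      (n := max b.card 5) (le_max_left _ _) (by omega)
    refine ⟨s, hbs, hsw, Or.inr (by omega), Or.inr ?_, by omega⟩
    rw [Finset.card_sdiff_of_subset hsw]
    omega

theorem alt_ext (s s' : Finset V) (ω : alternatingGroup V)
    (h1 : ∀ v ∈ s, (ω : Perm V) v ∈ s' → (ω : Perm V) v = v)
    (h2 : ∀ v ∈ s, v ∈ s' → (ω : Perm V) v = v)
    (hs : s = univ ∨ 2 * s.card + 2 ≤ Fintype.card V)
    (hs' : s' = univ ∨ 2 * s'.card + 2 ≤ Fintype.card V) :
    ∃ θ : alternatingGroup V, (∀ v ∈ s, (θ : Perm V) v = v) ∧
      ∀ v ∈ s', (θ : Perm V) ((ω : Perm V)⁻¹ v) = v := by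
  classical
  rcases hs with hs | hs
  · refine ⟨1, fun v _ => rfl, fun v hv => ?_⟩
    have h3 := h1 ((ω : Perm V)⁻¹ v) (by rw [hs]; exact mem_univ _) (by
      rw [pai]; exact hv)
    rw [pai] at h3
    rw [← h3]
    rfl
  rcases hs' with hs' | hs'
  · refine ⟨ω, fun v hv => h1 v hv (by rw [hs']; exact mem_univ _), fun v _ => ?_⟩
    rw [pai]
  let f : V → V := fun x => if x ∈ s then x else (ω : Perm V) x
  let D : Finset V := s ∪ s'.image fun v => (ω : Perm V)⁻¹ v
  have hinj : Set.InjOn f (D : Set V) := by
    have key : ∀ x y, x ∈ s → y ∈ D → y ∉ s → f x = f y → x = y := by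
      intro x y hx hy hys hxy
      simp only [f, hx, hys, if_true, if_false] at hxy
      rcases Finset.mem_union.1 hy with h | h
      · exact absurd h hys
      · obtain ⟨v, hv, hvy⟩ := Finset.mem_image.1 h
        have h4 : (ω : Perm V) y = v := by rw [← hvy, pai]
        have h5 : x ∈ s' := by rw [hxy, h4]; exact hv
        have h6 := h2 x hx h5
        rw [hxy] at h6
        exact hxy.trans ((ω : Perm V).injective h6)
    intro x hx y hy hxy
    by_cases hxs : x ∈ s
    · by_cases hys : y ∈ s
      · simpa only [f, hxs, hys, if_true] using hxy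
      · exact key x y hxs hy hys hxy
    · by_cases hys : y ∈ s
      · exact (key y x hys hx hxs hxy.symm).symm
      · simp only [f, hxs, hys, if_false] at hxy
        exact (ω : Perm V).injective hxy
  obtain ⟨g, hg⟩ := Finset.exists_equiv_extend_of_card_eq (t := (univ : Finset V)) (s := D)
    (f := f) (by simp) (Finset.subset_univ _) hinj
  let k : Perm V := g.trans (Equiv.subtypeUnivEquiv fun x => mem_univ x)
  have hk : ∀ x ∈ D, k x = f x := fun x hx => hg x hx
  have hDcard : D.card + 2 ≤ Fintype.card V := by
    have h3 : D.card ≤ s.card + (s'.image fun v => (ω : Perm V)⁻¹ v).card :=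
      Finset.card_union_le _ _
    have h4 : (s'.image fun v => (ω : Perm V)⁻¹ v).card ≤ s'.card := Finset.card_image_le
    omega
  have hev : ∃ θ : alternatingGroup V, ∀ x ∈ D, (θ : Perm V) x = f x := by
    rcases Int.units_eq_one_or (Perm.sign k) with h | h
    · exact ⟨⟨k, h⟩, hk⟩
    · have hc : 1 < Dᶜ.card := by rw [Finset.card_compl]; omega
      obtain ⟨x, hx, y, hy, hxy⟩ := Finset.one_lt_card.1 hc
      refine ⟨⟨k * swap x y, ?_⟩, fun v hv => ?_⟩
      · rw [Perm.mem_alternatingGroup, map_mul, h, Perm.sign_swap hxy]; decide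
      · rw [Finset.mem_compl] at hx hy
        have hvx : v ≠ x := fun h' => hx (h' ▸ hv)
        have hvy : v ≠ y := fun h' => hy (h' ▸ hv)
        simp only [Perm.mul_apply]
        rw [swap_apply_of_ne_of_ne hvx hvy, hk v hv]
  obtain ⟨θ, hθ⟩ := hev
  refine ⟨θ, fun v hv => ?_, fun v hv => ?_⟩
  · rw [hθ v (Finset.mem_union_left _ hv)]
    simp only [f, hv, if_true]
  · have hvD : (ω : Perm V)⁻¹ v ∈ D :=
      Finset.mem_union_right _ (Finset.mem_image.2 ⟨v, hv, rfl⟩)
    rw [hθ _ hvD]
    by_cases hvs : (ω : Perm V)⁻¹ v ∈ s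
    · simp only [f, hvs, if_true]
      have h3 := h1 _ hvs (by rw [pai]; exact hv)
      rw [pai] at h3
      exact h3.symm
    · simp only [f, hvs, if_false]
      rw [pai]

/-- closure of a set of points -/
def clV (B : Finset V) : Finset V := if 2 * B.card + 2 ≤ Fintype.card V then B else univ

theorem clV_cases (B : Finset V) : clV B = univ ∨ 2 * (clV B).card + 2 ≤ Fintype.card V := by
  unfold clV
  split_ifs with h
  · right; exact h
  · left; rfl

variable (V) in
/-- The alternating group as a group with atoms. -/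
noncomputable def altFac (hV : 5 ≤ Fintype.card V) : AtomGroup (alternatingGroup V) :=
  { A := V
    E := V × V
    R := V × V
    fA := inferInstance
    dA := inferInstance
    fE := inferInstance
    dE := inferInstance
    fR := inferInstance
    Fx := fxV
    comm := alt_comm
    Good := fun B => B.card = 0 ∨ 5 ≤ B.card
    good_univ := Or.inr (by rw [Finset.card_univ]; exact hV)
    tri := alt_tri
    enlarge := by
      intro w b θ hw hb hθ hm
      rcases card_moved hθ hm with h | h
      · refine ⟨∅, ?_, Finset.empty_subset _, Or.inl rfl, ?_, by simp⟩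
        · rw [Finset.card_eq_zero] at h; rw [h]
        · rw [Finset.sdiff_empty]; exact hw
      · have hbw := Finset.card_le_card hb
        exact alt_enlarge_aux w b hb h (by omega)
    cl := clV
    le_cl := by
      intro B
      unfold clV
      split_ifs
      · exact Finset.Subset.refl _
      · exact Finset.subset_univ _
    card_cl := by
      intro B
      unfold clV
      split_ifs
      · omega
      · rw [Finset.card_univ]; omega
    it := fun v g => ((g : Perm V)⁻¹ v, v)
    holds := fun e g => (g : Perm V) e.1 = e.2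
    it_holds := by
      intro S g g' h p hp
      have hpS : p ∈ S := by
        by_contra hcon
        exact hp (by simpa using hcon)
      exact h p hpS
    rev := fun e g => ((g : Perm V) e.1, (g : Perm V)⁻¹ e.2)
    dec := fun e a => {e' | e' = (e.1, a.1) ∨ e' = (a.2, e.2)}
    dec_holds := by
      rintro e g e' (rfl | rfl)
      · rfl
      · exact pai _ _
    conflict := by
      intro S S' g g' h
      have h1 : ∀ v ∈ clV S, ((g' * g⁻¹ : alternatingGroup V) : Perm V) v ∈ clV S' →
          ((g' * g⁻¹ : alternatingGroup V) : Perm V) v = v := by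
        intro v hv hv'
        have h3 := h v hv _ hv' (by
          left
          simp [Perm.mul_apply])
        simp only [Subgroup.coe_mul, Subgroup.coe_inv, Perm.mul_apply, pia,
          pai] at h3 ⊢
        exact h3.symm
      have h2 : ∀ v ∈ clV S, v ∈ clV S' →
          ((g' * g⁻¹ : alternatingGroup V) : Perm V) v = v := by
        intro v hv hv'
        have h3 := h v hv _ hv' (Or.inr rfl)
        simp only [Subgroup.coe_mul, Subgroup.coe_inv, Perm.mul_apply] at h3 ⊢
        have h4 : (g : Perm V)⁻¹ v = (g' : Perm V)⁻¹ v := by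
          rw [Perm.inv_eq_iff_eq]; exact h3.symm
        rw [h4, pai]
      obtain ⟨θ, hθ1, hθ2⟩ := alt_ext (clV S) (clV S') (g' * g⁻¹) h1 h2 (clV_cases S) (clV_cases S')
      refine ⟨θ, ?_, θ * (g' * g⁻¹)⁻¹, ?_, by group⟩
      · intro p hp
        exact hθ1 p (by by_contra hcon; exact hp (by simpa using hcon))
      · intro p hp
        have := hθ2 p (by by_contra hcon; exact hp (by simpa using hcon))
        rw [mem_fxV, Subgroup.coe_mul, Perm.mul_apply]
        exact this }

theorem altFac_perf (hV : 5 ≤ Fintype.card V) (B : Finset (altFac V hV).A)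
    (hB : (altFac V hV).Good B) : IsPerf (supp (altFac V hV).Fx B) := alt_perf B hB

theorem altFac_E (hV : 5 ≤ Fintype.card V) :
    Fintype.card (altFac V hV).E = Fintype.card V * Fintype.card V :=
  Fintype.card_prod V V

theorem altFac_R (hV : 5 ≤ Fintype.card V) :
    Fintype.card (altFac V hV).R = Fintype.card V * Fintype.card V :=
  Fintype.card_prod V V

end

end Pool.Agent.Lib_helper74.LR
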