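import Mathlib
import Pool.Agent.Lib_helper74.LR.Atom

set_option autoImplicit false
set_option linter.unusedSectionVars false

/-! Transport of the atom structure along an isomorphism. -/

namespace Pool.Agent.Lib_helper74.LR

open Finset

theorem IsPerf.congr {K K' : Type*} [Group K] [Group K'] (e : K →* K')
    (he : Function.Surjective e) (h : IsPerf K) : IsPerf K' := by
  intro f a
  obtain ⟨b, rfl⟩ := he a
  exact h (f.comp e) b

/-- transport -/
def AtomGroup.comap {M M' : Type} [Group M] [Group M'] (e : M ≃* M') (𝒜 : AtomGroup M') :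
    AtomGroup M :=
  { A := 𝒜.A
    E := 𝒜.E
    R := 𝒜.R
    fA := 𝒜.fA
    dA := 𝒜.dA
    fE := 𝒜.fE
    dE := 𝒜.dE
    fR := 𝒜.fR
    Fx := fun p => (𝒜.Fx p).comap e.toMonoidHom
    comm := by
      intro B B' hd a ha b hb
      apply e.injective
      rw [map_mul, map_mul]
      exact 𝒜.comm B B' hd (e a) ha (e b) hb
    Good := 𝒜.Good
    good_univ := 𝒜.good_univ
    tri := by
      intro B θ hθ hm
      obtain ⟨k, T, c, p, h1, h2, h3, h4, h5, h6⟩ := 𝒜.tri B (e θ) hθ hm
      refine ⟨k, T, fun i => e.symm (c i), p, h1, h2, h3, ?_, ?_, h6⟩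
      · intro i q hq
        have := h4 i q hq
        simpa using this
      · intro i h hh
        have := h5 i (e h) hh
        simpa using this
    enlarge := by
      intro w b θ hw hb hθ hm
      exact 𝒜.enlarge w b (e θ) hw hb hθ hm
    cl := 𝒜.cl
    le_cl := 𝒜.le_cl
    card_cl := 𝒜.card_cl
    it := fun v g => 𝒜.it v (e g)
    holds := fun v g => 𝒜.holds v (e g)
    it_holds := by
      intro S g g' h p hp
      have := 𝒜.it_holds S (e g) (e g') h p hp
      simpa using this
    rev := fun v g => 𝒜.rev v (e g)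
    dec := 𝒜.dec
    dec_holds := fun v g => 𝒜.dec_holds v (e g)
    conflict := by
      intro S S' g g' h
      obtain ⟨θ, hθ, θ', hθ', heq⟩ := 𝒜.conflict S S' (e g) (e g') h
      refine ⟨e.symm θ, ?_, e.symm θ', ?_, ?_⟩
      · intro p hp
        have := hθ p hp
        simpa using this
      · intro p hp
        have := hθ' p hp
        simpa using this
      · apply e.injective
        rw [map_mul, map_mul, e.apply_symm_apply, e.apply_symm_apply, heq] }

theorem AtomGroup.comap_perf {M M' : Type} [Group M] [Group M'] (e : M ≃* M')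
    (𝒜 : AtomGroup M') (B : Finset 𝒜.A) (h : IsPerf (supp 𝒜.Fx B)) :
    IsPerf (supp (𝒜.comap e).Fx B) := by
  let j : supp 𝒜.Fx B →* supp (fun p => (𝒜.Fx p).comap e.toMonoidHom) B :=
    { toFun := fun k => ⟨e.symm k, fun p hp => by
        have := k.2 p hp
        simpa using this⟩
      map_one' := by apply Subtype.ext; simp
      map_mul' := fun a b => Subtype.ext (map_mul e.symm (a : M') (b : M')) }
  refine IsPerf.congr j ?_ h
  rintro ⟨a, ha⟩
  exact ⟨⟨e a, ha⟩, Subtype.ext (e.symm_apply_apply a)⟩

end Pool.Agent.Lib_helper74.LR
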