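import Mathlib
import Pool.Agent.Lib_helper74.LR.Atom

set_option autoImplicit false
set_option linter.unusedSectionVars false

/-! Products of groups with atoms. -/

namespace Pool.Agent.Lib_helper74.LR

open Finset

section

variable {T : Type} [Fintype T] [DecidableEq T] {M : T → Type} [∀ t, Group (M t)]
  [∀ t, Finite (M t)] (𝒜 : ∀ t, AtomGroup (M t))

/-- atoms of the product -/
abbrev PA : Type := Σ t, (𝒜 t).A

/-- stabilizers of atoms of the product -/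
def FxP : PA 𝒜 → Subgroup (∀ t, M t) := fun p =>
  ((𝒜 p.1).Fx p.2).comap (Pi.evalMonoidHom M p.1)

theorem mem_FxP {t : T} {a : (𝒜 t).A} {g : ∀ t, M t} : g ∈ FxP 𝒜 ⟨t, a⟩ ↔ g t ∈ (𝒜 t).Fx a :=
  Iff.rfl

/-- components of a set of atoms -/
def fib (B : Finset (PA 𝒜)) (t : T) : Finset (𝒜 t).A := univ.filter fun a => (⟨t, a⟩ : PA 𝒜) ∈ B

variable {𝒜}

theorem mem_fib {B : Finset (PA 𝒜)} {t : T} {a : (𝒜 t).A} :
    a ∈ fib 𝒜 B t ↔ (⟨t, a⟩ : PA 𝒜) ∈ B := by simp [fib]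

theorem sigma_fib (B : Finset (PA 𝒜)) : univ.sigma (fib 𝒜 B) = B := by
  ext ⟨t, a⟩
  simp [mem_fib]

theorem fib_sigma (s : ∀ t, Finset (𝒜 t).A) (t : T) : fib 𝒜 (univ.sigma s) t = s t := by
  ext a
  simp [mem_fib]

theorem card_fib (B : Finset (PA 𝒜)) : B.card = ∑ t, (fib 𝒜 B t).card := by
  conv_lhs => rw [← sigma_fib B]
  exact Finset.card_sigma _ _

theorem mem_suppP {B : Finset (PA 𝒜)} {g : ∀ t, M t} :
    g ∈ supp (FxP 𝒜) B ↔ ∀ t, g t ∈ supp (𝒜 t).Fx (fib 𝒜 B t) := by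
  constructor
  · intro h t a ha
    exact h ⟨t, a⟩ fun h' => ha (mem_fib.2 h')
  · rintro h ⟨t, a⟩ ha
    exact h t a fun h' => ha (mem_fib.1 h')

theorem comm_P (B B' : Finset (PA 𝒜)) (hd : Disjoint B B') (a : ∀ t, M t)
    (ha : a ∈ supp (FxP 𝒜) B) (b : ∀ t, M t) (hb : b ∈ supp (FxP 𝒜) B') : a * b = b * a := by
  funext t
  refine (𝒜 t).comm _ _ ?_ _ (mem_suppP.1 ha t) _ (mem_suppP.1 hb t)
  rw [Finset.disjoint_left] at hd ⊢
  intro x hx hx'
  exact hd (mem_fib.1 hx) (mem_fib.1 hx')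

/-- good sets of atoms -/
def GoodP (B : Finset (PA 𝒜)) : Prop := ∀ t, (𝒜 t).Good (fib 𝒜 B t)

theorem perf_P (B : Finset (PA 𝒜)) (hB : ∀ t, IsPerf (supp (𝒜 t).Fx (fib 𝒜 B t))) :
    IsPerf (supp (FxP 𝒜) B) := by
  classical
  intro f g
  have hpiece : ∀ S : Finset T, piece (fun t => (g : ∀ t, M t) t) S ∈ supp (FxP 𝒜) B := by
    intro S
    rw [mem_suppP]
    intro t
    unfold piece
    split_ifs
    · exact mem_suppP.1 g.2 t
    · exact one_mem _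
  have hall : ∀ S : Finset T, f ⟨piece (fun t => (g : ∀ t, M t) t) S, hpiece S⟩ = 1 := by
    intro S
    induction S using Finset.induction_on with
    | empty =>
      have : (⟨piece (fun t => (g : ∀ t, M t) t) ∅, hpiece ∅⟩ : supp (FxP 𝒜) B) = 1 := by
        apply Subtype.ext
        funext t
        simp [piece]
      rw [this, map_one]
    | insert t S ht ih =>
      have hs : ∀ b : supp (𝒜 t).Fx (fib 𝒜 B t), Pi.mulSingle t (b : M t) ∈ supp (FxP 𝒜) B := by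
        intro b
        rw [mem_suppP]
        intro t'
        by_cases h : t' = t
        · subst h; simp
        · rw [Pi.mulSingle_eq_of_ne h]; exact one_mem _
      let j : supp (𝒜 t).Fx (fib 𝒜 B t) →* supp (FxP 𝒜) B :=
        { toFun := fun b => ⟨Pi.mulSingle t (b : M t), hs b⟩
          map_one' := by apply Subtype.ext; simp
          map_mul' := by intro a b; apply Subtype.ext; simp [Pi.mulSingle_mul] }
      have h1 := hB t (f.comp j) ⟨(g : ∀ t, M t) t, mem_suppP.1 g.2 t⟩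
      have h2 : (⟨piece (fun t => (g : ∀ t, M t) t) (insert t S), hpiece _⟩ : supp (FxP 𝒜) B)
          = ⟨piece (fun t => (g : ∀ t, M t) t) S, hpiece S⟩ *
            j ⟨(g : ∀ t, M t) t, mem_suppP.1 g.2 t⟩ := by
        apply Subtype.ext
        exact piece_insert _ ht
      rw [h2, map_mul, ih, one_mul]
      exact h1
  have h3 : g = ⟨piece (fun t => (g : ∀ t, M t) t) univ, hpiece univ⟩ := by
    apply Subtype.ext
    funext t
    simp [piece]
  rw [h3]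
  exact hall univ

variable {Y : Type} [Fintype Y] [MulAction (∀ t, M t) Y]

/-- The greedy step. -/
theorem step_P (φ : Y → Bool) (L : ℕ) (hr : (mat (∀ t, M t) φ).rank < 2 ^ L) (z : Y)
    (U : Finset (PA 𝒜)) (hU : GoodP Uᶜ) (hs : ∃ θ ∈ supp (FxP 𝒜) Uᶜ, φ (θ • z) ≠ φ z) :
    ∃ B : Finset (PA 𝒜), Disjoint B U ∧ B.card ≤ 18 * L ∧ GoodP (U ∪ B)ᶜ ∧
      GoodP B ∧ ∃ θ ∈ supp (FxP 𝒜) B, φ (θ • z) ≠ φ z := by
  classical
  -- minimal sensitive set
  let 𝒮 : Finset (Finset (PA 𝒜)) :=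
    univ.filter fun B => B ⊆ Uᶜ ∧ ∃ θ ∈ supp (FxP 𝒜) B, φ (θ • z) ≠ φ z
  obtain ⟨B, hB, hBmin⟩ := Finset.exists_min_image 𝒮 Finset.card
    ⟨Uᶜ, by simp only [𝒮, mem_filter, mem_univ, true_and]; exact ⟨Finset.Subset.refl _, hs⟩⟩
  simp only [𝒮, mem_filter, mem_univ, true_and] at hB hBmin
  obtain ⟨hBU, θ, hθ, hθs⟩ := hB
  have hmin : ∀ p ∈ B, ∀ θ' ∈ supp (FxP 𝒜) (B.erase p), φ (θ' • z) = φ z := by
    intro p hp θ' hθ'
    by_contra hne
    have := hBmin (B.erase p) ⟨(Finset.erase_subset _ _).trans hBU, θ', hθ', hne⟩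
    have h2 := Finset.card_erase_lt_of_mem hp
    omega
  have hmove : ∀ p ∈ B, θ ∉ FxP 𝒜 p := by
    intro p hp hmem
    refine hθs (hmin p hp θ fun q hq => ?_)
    by_cases hqB : q ∈ B
    · have hqp : q = p := by
        by_contra hne
        exact hq (Finset.mem_erase.2 ⟨hne, hqB⟩)
      rw [hqp]; exact hmem
    · exact hθ q hqB
  have hθt : ∀ t, θ t ∈ supp (𝒜 t).Fx (fib 𝒜 B t) := mem_suppP.1 hθ
  have hmt : ∀ t, ∀ p ∈ fib 𝒜 B t, θ t ∉ (𝒜 t).Fx p := by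
    intro t p hp h
    exact hmove ⟨t, p⟩ (mem_fib.1 hp) h
  have htri := fun t => (𝒜 t).tri (fib 𝒜 B t) (θ t) (hθt t) (hmt t)
  choose k Tt c p hdis hTB hpT hcT hfix hcard using htri
  -- the size of the minimal set
  let Tκ : (Σ t, Fin (k t)) → Finset (PA 𝒜) := fun x => (Tt x.1 x.2).map ⟨Sigma.mk x.1, sigma_mk_injective⟩
  have hTκ : ∀ (x : Σ t, Fin (k t)) (q : PA 𝒜), q ∈ Tκ x ↔ ∃ a ∈ Tt x.1 x.2, (⟨x.1, a⟩ : PA 𝒜) = q := by
    intro x q
    simp [Tκ]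
  have hκ : 2 ^ Fintype.card (Σ t, Fin (k t)) ≤ (mat (∀ t, M t) φ).rank + 1 := by
    refine abs_tri (FxP 𝒜) comm_P φ z B θ hθ hθs hmin Tκ
      (fun x => Pi.mulSingle x.1 (c x.1 x.2)) (fun x => ⟨x.1, p x.1 x.2⟩) ?_ ?_ ?_ ?_ ?_
    · rintro ⟨t, i⟩ ⟨t', i'⟩ hne
      rw [Finset.disjoint_left]
      intro q hq hq'
      rw [hTκ] at hq hq'
      obtain ⟨a, ha, rfl⟩ := hq
      obtain ⟨a', ha', heq⟩ := hq'
      simp only at ha ha' heq
      rw [Sigma.mk.inj_iff] at heq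
      obtain ⟨h1, h2⟩ := heq
      subst h1
      have h3 := eq_of_heq h2
      subst h3
      have hii : i ≠ i' := fun h => hne (by rw [h])
      exact Finset.disjoint_left.1 (hdis t' i i' hii) ha ha'
    · intro x q hq
      rw [hTκ] at hq
      obtain ⟨a, ha, rfl⟩ := hq
      exact mem_fib.1 (hTB x.1 x.2 ha)
    · intro x
      rw [hTκ]
      exact ⟨_, hpT x.1 x.2, rfl⟩
    · intro x
      rw [mem_suppP]
      intro t'
      by_cases h : t' = x.1
      · subst h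
        rw [Pi.mulSingle_eq_same]
        refine supp_mono _ ?_ (hcT x.1 x.2)
        intro a ha
        rw [mem_fib, hTκ]
        exact ⟨a, ha, rfl⟩
      · rw [Pi.mulSingle_eq_of_ne h]; exact one_mem _
    · intro x h hh
      rw [mem_FxP]
      simp only [Pi.mul_apply, Pi.inv_apply, Pi.mulSingle_eq_same]
      refine hfix x.1 x.2 (h x.1) ?_
      have := mem_suppP.1 hh x.1
      refine supp_mono _ ?_ this
      intro a ha
      rw [mem_fib, mem_filter] at ha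
      rw [mem_filter]
      refine ⟨mem_univ _, fun ha' => ha.2 ?_⟩
      rw [hTκ]
      exact ⟨a, ha', rfl⟩
  have hκL : Fintype.card (Σ t, Fin (k t)) ≤ L := by
    have : 2 ^ Fintype.card (Σ t, Fin (k t)) ≤ 2 ^ L := by omega
    exact (Nat.pow_le_pow_iff_right (by norm_num)).1 this
  have hBcard : B.card ≤ 6 * L := by
    calc B.card = ∑ t, (fib 𝒜 B t).card := card_fib B
      _ ≤ ∑ t, 6 * k t := Finset.sum_le_sum fun t _ => hcard t
      _ = 6 * ∑ t, k t := (Finset.mul_sum _ _ _).symm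
      _ = 6 * Fintype.card (Σ t, Fin (k t)) := by
          rw [Fintype.card_sigma]; simp
      _ ≤ 6 * L := Nat.mul_le_mul le_rfl hκL
  -- enlarge
  have hen := fun t => (𝒜 t).enlarge (fib 𝒜 Uᶜ t) (fib 𝒜 B t) (θ t) (hU t)
    (fun a ha => mem_fib.2 (hBU (mem_fib.1 ha))) (hθt t) (hmt t)
  choose s hs1 hs2 hs3 hs4 hs5 using hen
  have hBs : B ⊆ univ.sigma s := by
    rintro ⟨t, a⟩ ha
    rw [Finset.mem_sigma]
    exact ⟨mem_univ _, hs1 t (mem_fib.2 ha)⟩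
  refine ⟨univ.sigma s, ?_, ?_, ?_, ?_, θ, supp_mono _ hBs hθ, hθs⟩
  · rw [Finset.disjoint_left]
    rintro ⟨t, a⟩ ha hU'
    rw [Finset.mem_sigma] at ha
    have := mem_fib.1 (hs2 t ha.2)
    rw [Finset.mem_compl] at this
    exact this hU'
  · calc (univ.sigma s).card = ∑ t, (s t).card := Finset.card_sigma _ _
      _ ≤ ∑ t, 3 * (fib 𝒜 B t).card := Finset.sum_le_sum fun t _ => hs5 t
      _ = 3 * B.card := by rw [card_fib, Finset.mul_sum]
      _ ≤ 18 * L := by omega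
  · intro t
    have : fib 𝒜 (U ∪ univ.sigma s)ᶜ t = fib 𝒜 Uᶜ t \ s t := by
      ext a
      simp [mem_fib]
    rw [this]
    exact hs4 t
  · intro t
    rw [fib_sigma]
    exact hs3 t

/-- Certificates. -/
theorem cert_P (φ : Y → Bool) (L Δ : ℕ) (hr : (mat (∀ t, M t) φ).rank < 2 ^ L) (z : Y)
    (hsens : ∀ (s : ℕ) (B : Fin s → Finset (PA 𝒜)), (∀ i j, i ≠ j → Disjoint (B i) (B j)) →
      (∀ i, GoodP (B i)) → (∀ i, ∃ θ ∈ supp (FxP 𝒜) (B i), φ (θ • z) ≠ φ z) → s ≤ Δ) :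
    ∃ U : Finset (PA 𝒜), U.card ≤ 18 * (Δ * L) ∧ ∀ θ ∈ supp (FxP 𝒜) Uᶜ, φ (θ • z) = φ z := by
  classical
  obtain ⟨U, _, h2, h3⟩ := exists_cert (supp (FxP 𝒜)) φ z (fun U => GoodP Uᶜ) GoodP
    (by
      intro t
      have : fib 𝒜 (∅ : Finset (PA 𝒜))ᶜ t = univ := by ext a; simp [mem_fib]
      rw [this]
      exact (𝒜 t).good_univ) (18 * L) Δ hsens
    (fun U hU hs => step_P φ L hr z U hU hs)
  exact ⟨U, h2.trans (le_of_eq (by ring)), h3⟩

end

end Pool.Agent.Lib_helper74.LR
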