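import Mathlib
import Pool.Agent.Lib_helper10.LogRank.Proto

set_option autoImplicit false
set_option linter.unusedSectionVars false

/-! From certificates with a conflict property to protocols: Bob runs a decision procedure on
Alice's input, Alice only answers queries. -/

namespace Pool.Agent.Lib_helper74.LR

open Finset Pool.Agent.Lib_helper10.LogRank

variable {X Y : Type}

theorem exists_enum {I : Type} [DecidableEq I] (s : Finset I) (c : ℕ) (hs : s.card ≤ c) :
    ∃ ℓ : Fin c → Option I, ∀ e ∈ s, ∃ i, ℓ i = some e := by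
  classical
  refine ⟨fun i => if h : (i : ℕ) < s.card then some (s.equivFin.symm ⟨i, h⟩ : s).1 else none,
    fun e he => ?_⟩
  refine ⟨⟨(s.equivFin ⟨e, he⟩ : Fin s.card), (s.equivFin ⟨e, he⟩).2.trans_le hs⟩, ?_⟩
  have h : ((s.equivFin ⟨e, he⟩ : Fin s.card) : ℕ) < s.card := (s.equivFin ⟨e, he⟩).2
  simp only [h, dif_pos]
  congr 1
  simp

theorem protocol_of_cert {I A : Type} [Fintype I] [DecidableEq I] [Fintype A] [Inhabited A]
    (f : X → Y → Bool) (holds : I → X → Prop) (rev : I → X → A) (dec : I → A → Set I)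
    (cert : X → Y → Finset I) (c b₁ b₂ : ℕ) (h0 : ∀ x y, (cert x y).card ≤ c)
    (h2 : ∀ x x' y, (∀ e ∈ cert x y, holds e x') → f x' y = f x y)
    (h3 : ∀ x x' y, f x y ≠ f x' y → ∃ e ∈ cert x y, ∃ e' ∈ cert x' y,
      e' ∈ dec e (rev e x') ∧ ¬ holds e' x)
    (h4 : ∀ e x, ∀ e' ∈ dec e (rev e x), holds e' x)
    (hI : Fintype.card I + 1 ≤ 2 ^ b₁) (hA : Fintype.card A ≤ 2 ^ b₂) :
    CCOn (fun _ _ => True) f (c * (c * b₂ + c * b₁) + 1) := by
  classical
  have main : ∀ (n : ℕ) (R : X → Y → Prop) (known : Finset I),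
      (∀ x y, R x y → ∀ e ∈ known, holds e x) →
      (∀ x y, R x y → f x y = false →
        (∃ x', (∀ e ∈ known, holds e x') ∧ f x' y = true) →
        ((cert x y).filter fun e => e ∉ known).card ≤ n) →
      CCOn R f (n * (c * b₂ + c * b₁) + 1) := by
    intro n
    induction n with
    | zero =>
      intro R known hk hinv
      rw [zero_mul]
      refine CCOn.bob (fun y => decide (∃ x', (∀ e ∈ known, holds e x') ∧ f x' y = true))
        fun b => ⟨Protocol.leaf b, le_rfl, fun x y hxy => ?_⟩
      obtain ⟨hR, hb⟩ := hxy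
      rw [Protocol.eval, ← hb]
      by_cases hf : f x y = true
      · rw [hf, decide_eq_true_eq]
        exact ⟨x, hk x y hR, hf⟩
      · rw [Bool.not_eq_true] at hf
        rw [hf, decide_eq_false_iff_not]
        rintro ⟨x', hx', hfx'⟩
        have h := hinv x y hR hf ⟨x', hx', hfx'⟩
        rw [Nat.le_zero, Finset.card_eq_zero, Finset.filter_eq_empty_iff] at h
        push Not at h
        have := h2 x x' y fun e he => hx' e (h he)
        rw [hf, hfx'] at this
        exact Bool.noConfusion this
    | succ n ih =>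
      intro R known hk hinv
      -- Bob's queries
      have hq : ∀ y, ∃ ℓ : Fin c → Option I,
          ((∃ x', (∀ e ∈ known, holds e x') ∧ f x' y = true) →
          ∃ x', (∀ e ∈ known, holds e x') ∧ f x' y = true ∧
            ∀ e ∈ cert x' y, ∃ i, ℓ i = some e) := by
        intro y
        by_cases hex : ∃ x', (∀ e ∈ known, holds e x') ∧ f x' y = true
        · obtain ⟨x', hx', hf⟩ := hex
          obtain ⟨ℓ, hℓ⟩ := exists_enum (cert x' y) c (h0 x' y)
          exact ⟨ℓ, fun _ => ⟨x', hx', hf, hℓ⟩⟩
        · exact ⟨fun _ => none, fun h => absurd h hex⟩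
      choose qry hqry using hq
      let ans : (Fin c → Option I) → X → Fin c → A := fun ℓ x i =>
        match ℓ i with
        | some e => rev e x
        | none => default
      have e1 : (n + 1) * (c * b₂ + c * b₁) + 1
          = (n * (c * b₂ + c * b₁) + 1) + c * b₂ + c * b₁ := by ring
      rw [e1]
      refine sendB qry ?_ fun ℓ => ?_
      · rw [Fintype.card_fun, Fintype.card_option, Fintype.card_fin, mul_comm, pow_mul]
        exact Nat.pow_le_pow_left hI c
      refine sendA (ans ℓ) ?_ fun a => ?_
      · rw [Fintype.card_fun, Fintype.card_fin, mul_comm, pow_mul]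
        exact Nat.pow_le_pow_left hA c
      refine ih _ (known ∪ univ.filter fun e' => ∃ i e, ℓ i = some e ∧ e' ∈ dec e (a i)) ?_ ?_
      · rintro x y ⟨⟨hR, hℓ⟩, ha⟩ e' he'
        rcases Finset.mem_union.1 he' with he' | he'
        · exact hk x y hR e' he'
        · obtain ⟨i, e, hie, he'⟩ := (Finset.mem_filter.1 he').2
          have : a i = rev e x := by
            rw [← ha]; simp only [ans, hie]
          rw [this] at he'
          exact h4 e x e' he'
      · rintro x y ⟨⟨hR, hℓ⟩, ha⟩ hf ⟨x'', hx'', hfx''⟩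
        have hx''k : ∀ e ∈ known, holds e x'' := fun e he => hx'' e (Finset.mem_union_left _ he)
        obtain ⟨x', hx', hfx', hen⟩ := hqry y ⟨x'', hx''k, hfx''⟩
        obtain ⟨e, he, e', he', hdec, hnh⟩ := h3 x' x y (by rw [hfx', hf]; decide)
        obtain ⟨i, hi⟩ := hen e he
        rw [hℓ] at hi
        have hold := hinv x y hR hf ⟨x'', hx''k, hfx''⟩
        have hai : a i = rev e x := by
          rw [← ha]; simp only [ans, hi]
        have hnew : e' ∈ univ.filter fun e' => ∃ i e, ℓ i = some e ∧ e' ∈ dec e (a i) :=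
          Finset.mem_filter.2 ⟨mem_univ _, i, e, hi, by rw [hai]; exact hdec⟩
        have hnk : e' ∉ known := fun h => hnh (hx' e' h)
        refine Nat.le_of_lt_succ (lt_of_lt_of_le (Finset.card_lt_card ?_) hold)
        rw [Finset.ssubset_iff_of_subset]
        · refine ⟨e', mem_filter.2 ⟨he', hnk⟩, fun h => ?_⟩
          exact (mem_filter.1 h).2 (Finset.mem_union_right _ hnew)
        · intro e'' h
          rw [mem_filter] at h ⊢
          exact ⟨h.1, fun hk' => h.2 (Finset.mem_union_left _ hk')⟩
  refine main c _ ∅ (fun _ _ _ e he => absurd he (Finset.notMem_empty e)) ?_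
  intro x y _ _ _
  refine le_trans (Finset.card_le_card ?_) (h0 x y)
  intro e he
  exact Finset.mem_of_mem_filter e he

end Pool.Agent.Lib_helper74.LR
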