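import Mathlib
import Pool.Agent.Lib_helper74.LR.AtomProd
import Pool.Agent.Lib_helper74.LR.Query

set_option autoImplicit false
set_option linter.unusedSectionVars false

/-! The protocol for a product of groups with atoms. -/

namespace Pool.Agent.Lib_helper74.LR

open Finset Pool.Agent.Lib_helper10.LogRank

section

variable {T : Type} [Fintype T] [DecidableEq T] {M : T → Type} [∀ t, Group (M t)]
  [∀ t, Finite (M t)] (𝒜 : ∀ t, AtomGroup (M t))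
variable {Y : Type} [Fintype Y] [MulAction (∀ t, M t) Y]

/-- closure of a set of atoms -/
def clP (U : Finset (PA 𝒜)) : Finset (PA 𝒜) := univ.sigma fun t => (𝒜 t).cl (fib 𝒜 U t)

theorem card_clP (U : Finset (PA 𝒜)) : (clP 𝒜 U).card ≤ 3 * U.card := by
  calc (clP 𝒜 U).card = ∑ t, ((𝒜 t).cl (fib 𝒜 U t)).card := Finset.card_sigma _ _
    _ ≤ ∑ t, 3 * (fib 𝒜 U t).card := Finset.sum_le_sum fun t _ => (𝒜 t).card_cl _
    _ = 3 * U.card := by rw [card_fib, Finset.mul_sum]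

theorem core_protocol (φ : Y → Bool) (L Δ b : ℕ) (hr : (mat (∀ t, M t) φ).rank < 2 ^ L)
    (hsens : ∀ (z : Y) (s : ℕ) (B : Fin s → Finset (PA 𝒜)),
      (∀ i j, i ≠ j → Disjoint (B i) (B j)) → (∀ i, GoodP (B i)) →
      (∀ i, ∃ θ ∈ supp (FxP 𝒜) (B i), φ (θ • z) ≠ φ z) → s ≤ Δ)
    (hE : Fintype.card (Σ t, (𝒜 t).E) + 1 ≤ 2 ^ b)
    (hR : Fintype.card (Σ t, (𝒜 t).R) + 1 ≤ 2 ^ b) :
    CCOn (fun _ _ => True) (fun (g : ∀ t, M t) (y : Y) => φ (g • y))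
      (54 * (Δ * L) * (54 * (Δ * L) * b + 54 * (Δ * L) * b) + 1) := by
  classical
  choose U hU1 hU2 using fun z => cert_P (𝒜 := 𝒜) φ L Δ hr z (hsens z)
  let W : Y → Finset (PA 𝒜) := fun z => clP 𝒜 (U z)
  have hW1 : ∀ z, (W z).card ≤ 54 * (Δ * L) := fun z =>
    (card_clP 𝒜 (U z)).trans (by have := hU1 z; omega)
  have hW2 : ∀ z, ∀ θ : ∀ t, M t,
      (∀ t, θ t ∈ supp (𝒜 t).Fx (univ.filter fun a => a ∉ (𝒜 t).cl (fib 𝒜 (U z) t))) →
      φ (θ • z) = φ z := by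
    intro z θ hθ
    refine hU2 z θ (mem_suppP.2 fun t => supp_mono _ ?_ (hθ t))
    intro a ha
    rw [mem_filter] at ha
    rw [mem_fib, Finset.mem_compl]
    intro h
    exact ha.2 ((𝒜 t).le_cl _ (mem_fib.2 h))
  let cert : (∀ t, M t) → Y → Finset (Σ t, (𝒜 t).E) := fun g y =>
    (W (g • y)).image fun p => ⟨p.1, (𝒜 p.1).it p.2 (g p.1)⟩
  have hcert : ∀ g y t (v : (𝒜 t).A), v ∈ (𝒜 t).cl (fib 𝒜 (U (g • y)) t) →
      (⟨t, (𝒜 t).it v (g t)⟩ : Σ t, (𝒜 t).E) ∈ cert g y := by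
    intro g y t v hv
    refine Finset.mem_image.2 ⟨⟨t, v⟩, ?_, rfl⟩
    exact Finset.mem_sigma.2 ⟨mem_univ _, hv⟩
  refine protocol_of_cert (I := Σ t, (𝒜 t).E) (A := Option (Σ t, (𝒜 t).R))
    (fun (g : ∀ t, M t) (y : Y) => φ (g • y)) (fun e g => (𝒜 e.1).holds e.2 (g e.1))
    (fun e g => some ⟨e.1, (𝒜 e.1).rev e.2 (g e.1)⟩)
    (fun x a => {x' | ∃ (t : T) (e e' : (𝒜 t).E) (r : (𝒜 t).R), x = ⟨t, e⟩ ∧ a = some ⟨t, r⟩ ∧
      x' = ⟨t, e'⟩ ∧ e' ∈ (𝒜 t).dec e r}) cert (54 * (Δ * L)) b b ?_ ?_ ?_ ?_ hE ?_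
  · intro g y
    exact Finset.card_image_le.trans (hW1 _)
  · intro g g' y h
    have h1 : φ ((g' * g⁻¹) • (g • y)) = φ (g • y) := by
      refine hW2 (g • y) (g' * g⁻¹) fun t => ?_
      refine (𝒜 t).it_holds _ (g t) (g' t) fun v hv => ?_
      exact h _ (hcert g y t v hv)
    rw [← mul_smul, inv_mul_cancel_right] at h1
    exact h1
  · intro g g' y hne
    by_contra hcon
    push Not at hcon
    apply hne
    have hc : ∀ t, ∃ θ ∈ supp (𝒜 t).Fx (univ.filter fun a => a ∉ (𝒜 t).cl (fib 𝒜 (U (g • y)) t)),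
        ∃ θ' ∈ supp (𝒜 t).Fx (univ.filter fun a => a ∉ (𝒜 t).cl (fib 𝒜 (U (g' • y)) t)),
          θ * g t = θ' * g' t := by
      intro t
      refine (𝒜 t).conflict _ _ (g t) (g' t) fun v hv v' hv' hd => ?_
      exact hcon _ (hcert g y t v hv) _ (hcert g' y t v' hv') ⟨t, _, _, _, rfl, rfl, rfl, hd⟩
    choose θ hθ θ' hθ' heq using hc
    have h1 : φ (θ • (g • y)) = φ (g • y) := hW2 (g • y) θ hθ
    have h2 : φ (θ' • (g' • y)) = φ (g' • y) := hW2 (g' • y) θ' hθ'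
    have h3 : θ * g = θ' * g' := by funext t; exact heq t
    rw [← h1, ← h2, ← mul_smul, ← mul_smul, h3]
  · rintro x g x' ⟨t, e, e', r, rfl, h2, rfl, h4⟩
    have h2' := Option.some.inj h2
    rw [Sigma.mk.inj_iff] at h2'
    have h5 := eq_of_heq h2'.2
    simp only at h5 ⊢
    rw [← h5] at h4
    exact (𝒜 t).dec_holds e (g t) e' h4
  · rw [Fintype.card_option]; exact hR

end

end Pool.Agent.Lib_helper74.LR
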