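import Mathlib
import Pool.Agent.Lib_helper74.LR.Atom

set_option autoImplicit false
set_option linter.unusedSectionVars false

/-! A perfect group as a group with one atom. -/

namespace Pool.Agent.Lib_helper74.LR

open Finset

section

variable (K : Type) [Group K] [Fintype K]

theorem supp_bot_empty : supp (fun _ : Unit => (⊥ : Subgroup K)) ∅ = ⊥ := by
  rw [eq_bot_iff]
  intro g hg
  exact hg () (Finset.notMem_empty _)

theorem supp_bot_ne {B : Finset Unit} (hB : () ∉ B) :
    supp (fun _ : Unit => (⊥ : Subgroup K)) B = ⊥ := by
  rw [eq_bot_iff]
  intro g hg
  exact hg () hB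

theorem supp_bot_mem {B : Finset Unit} (hB : () ∈ B) :
    supp (fun _ : Unit => (⊥ : Subgroup K)) B = ⊤ := by
  rw [eq_top_iff]
  intro g _ p hp
  exact absurd hB hp

/-- The structure of a group with one atom. -/
noncomputable def blkFac : AtomGroup K := by
  classical
  exact
  { A := Unit
    E := K
    R := K
    fA := inferInstance
    dA := inferInstance
    fE := inferInstance
    dE := inferInstance
    fR := inferInstance
    Fx := fun _ => ⊥
    comm := by
      intro B B' hd a ha b hb
      by_cases h : () ∈ B
      · have h' : () ∉ B' := fun h' => Finset.disjoint_left.1 hd h h'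
        rw [supp_bot_ne K h', Subgroup.mem_bot] at hb
        rw [hb, mul_one, one_mul]
      · rw [supp_bot_ne K h, Subgroup.mem_bot] at ha
        rw [ha, mul_one, one_mul]
    Good := fun _ => True
    good_univ := trivial
    tri := by
      intro B θ hθ hm
      by_cases h : () ∈ B
      · refine ⟨1, fun _ => {()}, fun _ => θ, fun _ => (), ?_, ?_, ?_, ?_, ?_, ?_⟩
        · intro i j hij; exact absurd (Subsingleton.elim i j) hij
        · intro i; simpa using h
        · intro i; simp
        · intro i p hp; exact absurd (by simp) hp
        · intro i x hx
          have : () ∉ (univ.filter fun a => a ∉ ({()} : Finset Unit)) := by simp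
          rw [supp_bot_ne K this, Subgroup.mem_bot] at hx
          rw [hx, one_mul, inv_mul_cancel]
          exact one_mem _
        · have : B.card ≤ 1 := by
            have := Finset.card_le_univ B
            simpa using this
          omega
      · refine ⟨0, fun i => i.elim0, fun i => i.elim0, fun i => i.elim0, fun i => i.elim0,
          fun i => i.elim0, fun i => i.elim0, fun i => i.elim0, fun i => i.elim0, ?_⟩
        have : B = ∅ := by
          rw [Finset.eq_empty_iff_forall_notMem]
          intro x; exact h
        rw [this]; simp
    enlarge := by
      intro w b θ _ hb _ _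
      exact ⟨b, Finset.Subset.refl _, hb, trivial, trivial, by omega⟩
    cl := id
    le_cl := fun B => Finset.Subset.refl _
    card_cl := fun B => by simp only [id]; omega
    it := fun _ g => g
    holds := fun e g => g = e
    it_holds := by
      intro S g g' h
      by_cases hS : () ∈ S
      · rw [h () hS, mul_inv_cancel]; exact one_mem _
      · have : () ∈ (univ.filter fun a => a ∉ S) := by simpa using hS
        rw [supp_bot_mem K this]; exact Subgroup.mem_top _
    rev := fun _ g => g
    dec := fun _ a => {a}
    dec_holds := by
      intro e g e' he'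
      exact he'.symm
    conflict := by
      intro S S' g g' h
      simp only [id] at h ⊢
      by_cases hS : () ∈ S
      · by_cases hS' : () ∈ S'
        · have := h () hS () hS' rfl
          exact ⟨1, one_mem _, 1, one_mem _, by rw [one_mul, one_mul]; exact this⟩
        · refine ⟨1, one_mem _, g * g'⁻¹, ?_, by rw [one_mul, inv_mul_cancel_right]⟩
          have : () ∈ (univ.filter fun a => a ∉ S') := by simpa using hS'
          rw [supp_bot_mem K this]; exact Subgroup.mem_top _
      · refine ⟨g' * g⁻¹, ?_, 1, one_mem _, by rw [one_mul, inv_mul_cancel_right]⟩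
        have : () ∈ (univ.filter fun a => a ∉ S) := by simpa using hS
        rw [supp_bot_mem K this]; exact Subgroup.mem_top _ }

theorem supp_bot_perf (hK : IsPerf K) (B : Finset Unit) :
    IsPerf (supp (fun _ : Unit => (⊥ : Subgroup K)) B) := by
  intro f a
  by_cases h : () ∈ B
  · have htop := supp_bot_mem K h
    let j : K →* supp (fun _ : Unit => (⊥ : Subgroup K)) B :=
      { toFun := fun k => ⟨k, by rw [htop]; exact Subgroup.mem_top k⟩
        map_one' := rfl
        map_mul' := fun _ _ => rfl }
    exact hK (f.comp j) (a : K)
  · have hbot := supp_bot_ne K h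
    have : a = 1 := by
      apply Subtype.ext
      obtain ⟨x, hx⟩ := a
      have h2 : x ∈ (⊥ : Subgroup K) := hbot ▸ hx
      exact Subgroup.mem_bot.1 h2
    rw [this, map_one]

theorem blkFac_perf (hK : IsPerf K) (B : Finset (blkFac K).A) :
    IsPerf (supp (blkFac K).Fx B) := supp_bot_perf K hK B

theorem blkFac_E : Fintype.card (blkFac K).E = Fintype.card K := by
  exact Fintype.card_congr (Equiv.refl K)

theorem blkFac_R : Fintype.card (blkFac K).R = Fintype.card K := by
  exact Fintype.card_congr (Equiv.refl K)

end

end Pool.Agent.Lib_helper74.LR
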