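import Mathlib
import Pool.Agent.Lib_helper74.LR.AtomProd

set_option autoImplicit false
set_option linter.unusedSectionVars false

/-! Sensitive blocks when some of the factors are not perfect but the function has low degree in
them. -/

namespace Pool.Agent.Lib_helper74.LR

open Finset Module

theorem alt_sum_zero {κ : Type} [DecidableEq κ] (T : Finset κ) (hT : T ≠ ∅) (α β : ℝ)
    (g : Finset κ → ℝ) (hg : ∑ U ∈ T.powerset, (-1 : ℝ) ^ U.card * g U = 0) :
    ∑ U ∈ T.powerset, (-1 : ℝ) ^ (T.card + U.card) * (α + β * g U) = 0 := by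
  have h3 : ∑ U ∈ T.powerset, (-1 : ℝ) ^ U.card = 0 := by
    have := Finset.sum_powerset_neg_one_pow_card (x := T)
    rw [if_neg hT] at this
    exact_mod_cast this
  have h6 : ∀ U : Finset κ, (-1 : ℝ) ^ (T.card + U.card) * (α + β * g U)
      = (-1 : ℝ) ^ T.card * (α * (-1 : ℝ) ^ U.card + β * ((-1 : ℝ) ^ U.card * g U)) := fun U => by
    rw [pow_add]; ring
  simp only [h6]
  rw [← Finset.mul_sum, Finset.sum_add_distrib, ← Finset.mul_sum, ← Finset.mul_sum, h3, hg]
  ring

theorem diag_cubeLow {κ : Type} [Fintype κ] [DecidableEq κ] (h : Finset κ → Finset κ → ℝ)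
    (d e : ℕ)
    (h1 : ∀ T : Finset κ, d < T.card → ∀ W' : Finset κ,
      ∑ W ∈ T.powerset, (-1 : ℝ) ^ (T.card + W.card) * h W W' = 0)
    (h2 : ∀ T : Finset κ, e < T.card → ∀ W : Finset κ,
      ∑ W' ∈ T.powerset, (-1 : ℝ) ^ (T.card + W'.card) * h W W' = 0) :
    (fun V => h V V) ∈ Lib_helper10.LogRank.cubeLow κ (d + e) := by
  classical
  let c : Finset κ → Finset κ → ℝ := fun T T' =>
    ∑ W ∈ T.powerset, (-1 : ℝ) ^ (T.card + W.card) *
      ∑ W' ∈ T'.powerset, (-1 : ℝ) ^ (T'.card + W'.card) * h W W'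
  have hc1 : ∀ T T', d < T.card → c T T' = 0 := by
    intro T T' hT
    simp only [c]
    simp only [Finset.mul_sum]
    rw [Finset.sum_comm]
    refine Finset.sum_eq_zero fun W' _ => ?_
    have := h1 T hT W'
    have h3 : ∀ W : Finset κ, (-1 : ℝ) ^ (T.card + W.card) * ((-1 : ℝ) ^ (T'.card + W'.card) *
        h W W') = (-1 : ℝ) ^ (T'.card + W'.card) * ((-1 : ℝ) ^ (T.card + W.card) * h W W') :=
      fun W => by ring
    simp only [h3]
    rw [← Finset.mul_sum, this, mul_zero]
  have hc2 : ∀ T T', e < T'.card → c T T' = 0 := by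
    intro T T' hT'
    simp only [c]
    refine Finset.sum_eq_zero fun W _ => ?_
    rw [h2 T' hT' W, mul_zero]
  have hrep : (fun V => h V V) = ∑ T : Finset κ, ∑ T' : Finset κ, c T T' •
      (fun V : Finset κ => if T ∪ T' ⊆ V then (1 : ℝ) else 0) := by
    funext V
    have e1 : h V V = ∑ T ∈ V.powerset, ∑ T' ∈ V.powerset, c T T' := by
      have e2 := moebius V (fun W => h W V)
      rw [e2]
      refine Finset.sum_congr rfl fun T _ => ?_
      have e3 : ∀ W : Finset κ, h W V = ∑ T' ∈ V.powerset, ∑ W' ∈ T'.powerset,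
          (-1 : ℝ) ^ (T'.card + W'.card) * h W W' := fun W => moebius V (fun W' => h W W')
      simp only [c]
      rw [Finset.sum_comm]
      refine Finset.sum_congr rfl fun W _ => ?_
      rw [← Finset.mul_sum, e3 W]
    rw [e1, Finset.sum_apply]
    have e4 : ∀ T : Finset κ, (∑ T' : Finset κ, c T T' •
        (fun V : Finset κ => if T ∪ T' ⊆ V then (1 : ℝ) else 0)) V
        = if T ⊆ V then ∑ T' ∈ V.powerset, c T T' else 0 := by
      intro T
      rw [Finset.sum_apply]
      simp only [Pi.smul_apply, smul_eq_mul, mul_ite, mul_one, mul_zero, Finset.union_subset_iff]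
      by_cases hT : T ⊆ V
      · simp only [hT, true_and, if_true]
        rw [← Finset.sum_filter]
        congr 1
        ext T'; simp
      · simp only [hT, false_and, if_false, Finset.sum_const_zero]
    simp only [e4]
    rw [← Finset.sum_filter]
    congr 1
    ext T; simp
  rw [hrep]
  refine Submodule.sum_mem _ fun T _ => Submodule.sum_mem _ fun T' _ => ?_
  by_cases hT : d < T.card
  · rw [hc1 T T' hT, zero_smul]; exact Submodule.zero_mem _
  by_cases hT' : e < T'.card
  · rw [hc2 T T' hT', zero_smul]; exact Submodule.zero_mem _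
  refine Submodule.smul_mem _ _ (Submodule.subset_span ⟨T ∪ T', ?_, fun V => ?_⟩)
  · have := Finset.card_union_le T T'
    omega
  · have : T ∪ T' ⊆ V ↔ T ∪ T' ⊆ V ∩ (T ∪ T') := by
      constructor
      · intro h; exact Finset.subset_inter h (Finset.Subset.refl _)
      · intro h; exact h.trans Finset.inter_subset_left
    simp only [← this]

section

variable {T : Type} [Fintype T] [DecidableEq T] {M : T → Type} [∀ t, Group (M t)]
  [∀ t, Finite (M t)] {𝒜 : ∀ t, AtomGroup (M t)}
variable {Y : Type} [Fintype Y] [MulAction (∀ t, M t) Y]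

open Classical in
/-- the part of `θ` on the coordinates whose owner is in `U` -/
noncomputable def ownPart {κ : Type} (o : T → Option κ) (θ : ∀ t, M t) (U : Finset κ) :
    ∀ t, M t := fun t => if ∃ i ∈ U, o t = some i then θ t else 1

theorem ownPart_pos {κ : Type} {o : T → Option κ} {θ : ∀ t, M t} {U : Finset κ} {t : T}
    (h : ∃ i ∈ U, o t = some i) : ownPart o θ U t = θ t := if_pos h

theorem ownPart_neg {κ : Type} {o : T → Option κ} {θ : ∀ t, M t} {U : Finset κ} {t : T}
    (h : ¬ ∃ i ∈ U, o t = some i) : ownPart o θ U t = 1 := if_neg h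

theorem sens_mixed (ab : T → Prop) (φ : Y → Bool) (L d : ℕ)
    (hr : (mat (∀ t, M t) φ).rank < 2 ^ L)
    (hab : ∀ (s : ℕ) (S : Finset (Fin s)) (o : T → Option (Fin s)) (θ : ∀ t, M t),
      (∀ t, ¬ ab t → θ t = 1) → d < S.card → ∀ y : Y,
      ∑ U ∈ S.powerset, (-1 : ℝ) ^ U.card * ind (φ (ownPart o θ U • y)) = 0)
    (h0 : ∀ t, ab t → ∀ B B' : Finset (𝒜 t).A, Disjoint B B' →
      supp (𝒜 t).Fx B = ⊥ ∨ supp (𝒜 t).Fx B' = ⊥)
    (h1 : ∀ t, ¬ ab t → ∀ B, (𝒜 t).Good B → IsPerf (supp (𝒜 t).Fx B))
    (z : Y) (s : ℕ) (B : Fin s → Finset (PA 𝒜)) (hdis : ∀ i j, i ≠ j → Disjoint (B i) (B j))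
    (hgood : ∀ i, GoodP (B i)) (hs : ∀ i, ∃ θ ∈ supp (FxP 𝒜) (B i), φ (θ • z) ≠ φ z) :
    s ≤ (d + L) ^ 2 := by
  classical
  have hbot : ∀ t, ab t → supp (𝒜 t).Fx ∅ = ⊥ := by
    intro t ht
    rcases h0 t ht ∅ univ (Finset.disjoint_empty_left _) with h | h
    · exact h
    · rw [eq_bot_iff] at h ⊢
      exact (supp_mono _ (Finset.empty_subset _)).trans h
  choose θ hθ hθs using hs
  have huniq : ∀ t, ab t → ∀ i j, θ i t ≠ 1 → θ j t ≠ 1 → i = j := by
    intro t ht i j hi hj
    by_contra hij
    have hd : Disjoint (fib 𝒜 (B i) t) (fib 𝒜 (B j) t) := by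
      rw [Finset.disjoint_left]
      intro a ha ha'
      exact Finset.disjoint_left.1 (hdis i j hij) (mem_fib.1 ha) (mem_fib.1 ha')
    rcases h0 t ht _ _ hd with h | h
    · have := mem_suppP.1 (hθ i) t
      rw [h, Subgroup.mem_bot] at this
      exact hi this
    · have := mem_suppP.1 (hθ j) t
      rw [h, Subgroup.mem_bot] at this
      exact hj this
  let o : T → Option (Fin s) := fun t =>
    if h : ab t ∧ ∃ i, θ i t ≠ 1 then some (Classical.choose h.2) else none
  let ϑ : ∀ t, M t := fun t =>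
    if h : ab t ∧ ∃ i, θ i t ≠ 1 then θ (Classical.choose h.2) t else 1
  have hϑ : ∀ t, ¬ ab t → ϑ t = 1 := by
    intro t ht
    simp only [ϑ]
    rw [dif_neg]
    exact fun h => ht h.1
  -- the parts outside `ab`
  let B' : Fin s → Finset (PA 𝒜) := fun i => (B i).filter fun p => ¬ ab p.1
  have hfibB' : ∀ i t, fib 𝒜 (B' i) t = if ab t then ∅ else fib 𝒜 (B i) t := by
    intro i t
    ext a
    rw [mem_fib]
    simp only [B', mem_filter]
    split_ifs with h
    · simp [h]
    · simp [h, mem_fib]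
  have hperf : ∀ i, IsPerf (supp (FxP 𝒜) (B' i)) := by
    intro i
    refine perf_P _ fun t => ?_
    rw [hfibB']
    by_cases h : ab t
    · rw [if_pos h, hbot t h]
      intro f a
      have : a = 1 := Subsingleton.elim _ _
      rw [this, map_one]
    · rw [if_neg h]
      exact h1 t h _ (hgood i t)
  have hdis' : ∀ i j, i ≠ j → Disjoint (B' i) (B' j) := by
    intro i j hij
    exact Disjoint.mono (Finset.filter_subset _ _) (Finset.filter_subset _ _) (hdis i j hij)
  have hcomm : Pairwise fun i j => ∀ (x : supp (FxP 𝒜) (B' i)) (y : supp (FxP 𝒜) (B' j)),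
      Commute ((supp (FxP 𝒜) (B' i)).subtype x) ((supp (FxP 𝒜) (B' j)).subtype y) := by
    intro i j hij x y
    exact comm_P _ _ (hdis' i j hij) x x.2 y y.2
  let Φ : (∀ i, supp (FxP 𝒜) (B' i)) →* (∀ t, M t) :=
    MonoidHom.noncommPiCoprod (fun i => (supp (FxP 𝒜) (B' i)).subtype) hcomm
  have hn : ∀ i, (fun t => if ab t then 1 else θ i t) ∈ supp (FxP 𝒜) (B' i) := by
    intro i
    rw [mem_suppP]
    intro t
    rw [hfibB']
    split_ifs with h
    · exact one_mem _
    · exact mem_suppP.1 (hθ i) t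
  let k : ∀ i, supp (FxP 𝒜) (B' i) := fun i => ⟨_, hn i⟩
  have (i : Fin s) : Fintype (supp (FxP 𝒜) (B' i)) := Fintype.ofFinite _
  -- elements of the image of Φ vanish on `ab`
  let N : Subgroup (∀ t, M t) :=
    { carrier := {g | ∀ t, ab t → g t = 1}
      mul_mem' := fun ha hb t ht => by rw [Pi.mul_apply, ha t ht, hb t ht, one_mul]
      one_mem' := fun _ _ => rfl
      inv_mem' := fun ha t ht => by rw [Pi.inv_apply, ha t ht, inv_one] }
  have hΦ : ∀ (f : ∀ i, supp (FxP 𝒜) (B' i)) t, ab t → Φ f t = 1 := by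
    intro f
    refine noncomm_mem _ hcomm f N fun i t ht => ?_
    have := mem_suppP.1 (f i).2 t
    rw [hfibB', if_pos ht, hbot t ht, Subgroup.mem_bot] at this
    exact this
  have hcm : ∀ (U : Finset (Fin s)) (f : ∀ i, supp (FxP 𝒜) (B' i)),
      ownPart o ϑ U * Φ f = Φ f * ownPart o ϑ U := by
    intro U f
    funext t
    simp only [Pi.mul_apply]
    by_cases h : ab t
    · rw [hΦ f t h, mul_one, one_mul]
    · have : ownPart o ϑ U t = 1 := by
        unfold ownPart
        split_ifs
        · exact hϑ t h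
        · rfl
      rw [this, mul_one, one_mul]
  have hsing : ∀ i, ownPart o ϑ {i} * Φ (piece k {i}) = θ i := by
    intro i
    have hpiece0 : piece k (∅ : Finset (Fin s)) = 1 := by funext i; simp [piece]
    have hpiece1 : piece k {i} = Pi.mulSingle i (k i) := by
      rw [← Finset.insert_empty, piece_insert k (Finset.notMem_empty i), hpiece0, one_mul]
    have hΦi : Φ (piece k {i}) = (fun t => if ab t then 1 else θ i t) := by
      rw [hpiece1]
      simp only [Φ, MonoidHom.noncommPiCoprod_mulSingle]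
      rfl
    rw [hΦi]
    funext t
    simp only [Pi.mul_apply, ownPart]
    by_cases h : ab t
    · rw [if_pos h, mul_one]
      by_cases hi : θ i t = 1
      · rw [hi, if_neg]
        rintro ⟨j, hj, hj'⟩
        rw [Finset.mem_singleton] at hj
        subst hj
        simp only [o] at hj'
        split_ifs at hj' with h'
        have h3 := Classical.choose_spec h'.2
        rw [Option.some.inj hj'] at h3
        exact h3 hi
      · have h' : ab t ∧ ∃ i, θ i t ≠ 1 := ⟨h, i, hi⟩
        have h3 := Classical.choose_spec h'.2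
        have h4 : Classical.choose h'.2 = i := huniq t h _ _ h3 hi
        rw [if_pos]
        · simp only [ϑ]
          rw [dif_pos h', h4]
        · refine ⟨i, Finset.mem_singleton_self i, ?_⟩
          simp only [o]
          rw [dif_pos h', h4]
    · rw [if_neg h, hϑ t h]
      simp
  -- the two-variable function
  let hh : Finset (Fin s) → Finset (Fin s) → ℝ := fun W W' =>
    ind (φ (ownPart o ϑ W • (Φ (piece k W') • z)))
  let h2 : Finset (Fin s) → Finset (Fin s) → ℝ := fun W W' =>
    if φ (ownPart o ϑ W • (Φ (piece k W') • z)) = φ z then 0 else 1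
  have haff : ∀ W W', h2 W W' = ind (φ z) + (1 - 2 * ind (φ z)) * hh W W' := by
    intro W W'
    simp only [h2, hh, ind]
    cases φ z <;> cases φ (ownPart o ϑ W • (Φ (piece k W') • z)) <;> norm_num
  have hlow : (fun V => h2 V V) ∈ Lib_helper10.LogRank.cubeLow (Fin s) (d + L) := by
    refine diag_cubeLow h2 d L ?_ ?_
    · intro S hS W'
      simp only [haff]
      refine alt_sum_zero S (by rintro rfl; simp at hS) _ _ (fun W => hh W W') ?_
      exact hab s S o ϑ hϑ hS _
    · intro S hS W
      simp only [haff]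
      refine alt_sum_zero S (by rintro rfl; simp at hS) _ _ (fun W' => hh W W') ?_
      have hfr : finrank ℂ (rowV (∀ t, M t) (fun y => ((ind (φ y) : ℝ) : ℂ))) < 2 ^ S.card :=
        (finrank_rowV_le φ).trans_lt (hr.trans_le (Nat.pow_le_pow_right (by norm_num) hS.le))
      have h3 := diff_eq_zero Φ (fun y => ((ind (φ y) : ℝ) : ℂ)) S (fun i _ => hperf i) hfr k
        (ownPart o ϑ W • z)
      have h4 : ∀ W', φ (Φ (piece k W') • (ownPart o ϑ W • z))
          = φ (ownPart o ϑ W • (Φ (piece k W') • z)) := by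
        intro W'
        rw [← mul_smul, ← hcm, mul_smul]
      simp only [h4] at h3
      simp only [hh]
      exact_mod_cast h3
  have key := Lib_helper10.LogRank.card_le_sq_of_cubeLow (κ := Fin s) (d := d + L)
    (h := fun V => h2 V V) hlow ?_ ?_ ?_
  · rwa [Fintype.card_fin] at key
  · intro V; simp only [h2]; split_ifs <;> norm_num
  · have e1 : ownPart o ϑ (∅ : Finset (Fin s)) = 1 := by funext t; simp [ownPart]
    have e2 : piece k (∅ : Finset (Fin s)) = 1 := by funext i; simp [piece]
    simp only [h2, e1, e2, map_one, one_smul, if_true]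
  · intro i
    simp only [h2]
    rw [if_neg]
    rw [← mul_smul, hsing i]
    exact hθs i

end

end Pool.Agent.Lib_helper74.LR
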