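import Mathlib
import Pool.Agent.Lib_helper74.LR.AltFac

set_option autoImplicit false
set_option linter.unusedSectionVars false

/-! The size of the factors on which a low rank function depends. -/

namespace Pool.Agent.Lib_helper74.LR

open Finset Module

section

variable {G : Type} [Group G] [Finite G] {Y : Type} [Fintype Y] [MulAction G Y]

/-- the subgroup of elements that act trivially -/
def kerS {K : Type} [Group K] (Ψ : K →* G) (φ : Y → Bool) : Subgroup K where
  carrier := {a | ∀ (g : G) (y : Y), φ (g • (Ψ a • y)) = φ (g • y)}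
  mul_mem' := by
    intro a b ha hb g y
    rw [map_mul, mul_smul, ha, hb]
  one_mem' := by intro g y; rw [map_one, one_smul]
  inv_mem' := by
    intro a ha g y
    have := ha g (Ψ a⁻¹ • y)
    rw [← mul_smul (Ψ a), ← map_mul, mul_inv_cancel, map_one, one_smul] at this
    exact this.symm

theorem kerS_normal {K : Type} [Group K] (Ψ : K →* G) (φ : Y → Bool) : (kerS Ψ φ).Normal := by
  constructor
  intro a ha c g y
  have h1 := ha (g * Ψ c) (Ψ c⁻¹ • y)
  rw [map_mul, map_mul]
  simp only [mul_smul] at h1 ⊢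
  rw [h1, ← mul_smul (Ψ c), ← map_mul, mul_inv_cancel, map_one, one_smul]

theorem exists_supp_ne_one {V : Type} [Fintype V] [DecidableEq V] (B : Finset V)
    (hB : 3 ≤ B.card) : ∃ a ∈ supp (fxV (V := V)) B, a ≠ 1 := by
  obtain ⟨p, hp, q, hq, u, hu, h1, h2, h3⟩ := Finset.two_lt_card.1 hB
  refine ⟨cyc3 p q u h1 h3, supp_mono _ ?_ (cyc3_mem p q u h1 h3), ?_⟩
  · intro x hx
    simp only [mem_insert, mem_singleton] at hx
    rcases hx with rfl | rfl | rfl <;> assumption
  · intro h
    have := cyc3_apply p q u h1 h3 h2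
    rw [h] at this
    exact h1 this

/-- A relevant alternating factor has few points. -/
theorem alt_size {V : Type} [Fintype V] [DecidableEq V] (Ψ : alternatingGroup V →* G)
    (φ : Y → Bool) (L : ℕ) (hr : (mat G φ).rank < 2 ^ L) (hV : 5 ≤ Fintype.card V)
    (hrel : ∃ (g : G) (a : alternatingGroup V) (y : Y), φ (g • (Ψ a • y)) ≠ φ (g • y)) :
    Fintype.card V / 5 ≤ L * (mat G φ).rank := by
  classical
  set m := Fintype.card V / 5 with hm
  have hcard : Fintype.card (Fin m × Fin 5) ≤ Fintype.card V := by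
    simp only [Fintype.card_prod, Fintype.card_fin]
    omega
  obtain ⟨e⟩ := Function.Embedding.nonempty_of_card_le hcard
  let B : Fin m → Finset V := fun i => univ.image fun x : Fin 5 => e (i, x)
  have hB5 : ∀ i, (B i).card = 5 := by
    intro i
    rw [Finset.card_image_of_injective]
    · simp
    · intro x y hxy
      exact (Prod.mk.inj (e.injective hxy)).2
  have hdis : ∀ i j, i ≠ j → Disjoint (B i) (B j) := by
    intro i j hij
    rw [Finset.disjoint_left]
    intro x hx hx'
    obtain ⟨a, _, rfl⟩ := Finset.mem_image.1 hx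
    obtain ⟨b, _, hb⟩ := Finset.mem_image.1 hx'
    exact hij (Prod.mk.inj (e.injective hb)).1.symm
  have hsimple : IsSimpleGroup (alternatingGroup V) :=
    alternatingGroup.isSimpleGroup (by rw [Nat.card_eq_fintype_card]; exact hV)
  have hN : kerS Ψ φ = ⊥ := by
    rcases hsimple.eq_bot_or_eq_top_of_normal _ (kerS_normal Ψ φ) with h | h
    · exact h
    · exfalso
      obtain ⟨g, a, y, hne⟩ := hrel
      have ha : a ∈ kerS Ψ φ := by rw [h]; exact Subgroup.mem_top a
      exact hne (ha g y)
  have hcm : Pairwise fun i j => ∀ (x : supp (fxV (V := V)) (B i)) (y : supp (fxV (V := V)) (B j)),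
      Commute ((supp (fxV (V := V)) (B i)).subtype x) ((supp (fxV (V := V)) (B j)).subtype y) := by
    intro i j hij x y
    exact alt_comm _ _ (hdis i j hij) x x.2 y y.2
  let Φ : (∀ i, supp (fxV (V := V)) (B i)) →* alternatingGroup V :=
    MonoidHom.noncommPiCoprod (fun i => (supp (fxV (V := V)) (B i)).subtype) hcm
  have (i : Fin m) : Fintype (supp (fxV (V := V)) (B i)) := Fintype.ofFinite _
  have key := relevant_card_le (Ψ.comp Φ) φ L
    (fun i => alt_perf (B i) (Or.inr (by rw [hB5 i]))) hr ?_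
  · rwa [Fintype.card_fin] at key
  · intro i
    obtain ⟨a, ha, ha1⟩ := exists_supp_ne_one (B i) (by rw [hB5 i]; norm_num)
    have h2 : a ∉ kerS Ψ φ := by rw [hN]; exact ha1
    have h3 : ∃ (g : G) (y : Y), φ (g • (Ψ a • y)) ≠ φ (g • y) := by
      by_contra hcon
      push Not at hcon
      exact h2 hcon
    obtain ⟨g, y, hgy⟩ := h3
    refine ⟨g, ⟨a, ha⟩, y, ?_⟩
    have h4 : (Ψ.comp Φ) (Pi.mulSingle i ⟨a, ha⟩) = Ψ a := by
      simp only [MonoidHom.comp_apply, Φ, MonoidHom.noncommPiCoprod_mulSingle]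
      rfl
    rw [h4]
    exact hgy

/-- A relevant factor has a nontrivial complex representation of small dimension. -/
theorem rep_of_relevant {K : Type} [Group K] (Ψ : K →* G) (φ : Y → Bool)
    (hrel : ∃ (g : G) (a : K) (y : Y), φ (g • (Ψ a • y)) ≠ φ (g • y)) :
    ∃ (n : ℕ) (ρ : K →* Matrix.GeneralLinearGroup (Fin n) ℂ), ρ ≠ 1 ∧ n ≤ (mat G φ).rank := by
  classical
  set ψ : Y → ℂ := fun y => ((ind (φ y) : ℝ) : ℂ) with hψ
  let V := rowV G ψ
  let ρ0 : K →* Module.End ℂ V :=
    { toFun := fun a => (lam (Ψ a⁻¹) : Module.End ℂ (Y → ℂ)).restrict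
        (fun v hv => rowV_inv ψ (Ψ a⁻¹) hv)
      map_one' := by
        ext v : 2
        simp only [LinearMap.coe_restrict_apply, inv_one, map_one]
        exact lam_one _
      map_mul' := by
        intro a b
        ext v : 2
        simp only [LinearMap.coe_restrict_apply, mul_inv_rev, map_mul]
        exact lam_mul _ _ _ }
  let b := Module.finBasis ℂ V
  let ρ1 : K →* Matrix (Fin (finrank ℂ V)) (Fin (finrank ℂ V)) ℂ :=
    (LinearMap.toMatrixAlgEquiv b : _ →* _).comp ρ0
  refine ⟨finrank ℂ V, ρ1.toHomUnits, ?_, finrank_rowV_le φ⟩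
  intro h
  obtain ⟨g, a, y, hne⟩ := hrel
  apply hne
  have h1 : ρ1 a⁻¹ = 1 := by
    exact congrArg Units.val (DFunLike.congr_fun h a⁻¹)
  have h2 : ρ0 a⁻¹ = 1 := by
    apply (LinearMap.toMatrixAlgEquiv b).injective
    rw [map_one]
    exact h1
  have h3 : lam (Ψ a) (lam g ψ) = lam g ψ := by
    have h4 := congrArg (fun f : Module.End ℂ V => ((f ⟨lam g ψ, lam_mem_rowV ψ g⟩ : V) : Y → ℂ)) h2
    simpa [ρ0] using h4
  have h5 := congrFun h3 y
  rw [lam_apply, lam_apply, lam_apply] at h5
  simp only [hψ, ind] at h5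
  revert h5
  cases φ (g • (Ψ a • y)) <;> cases φ (g • y) <;> simp

end

end Pool.Agent.Lib_helper74.LR
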