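import Mathlib
import Pool.Agent.Lib_helper74.LR.Adm
import Pool.Agent.Lib_helper74.LR.AtomProto
import Pool.Agent.Lib_helper74.LR.AtomMap
import Pool.Agent.Lib_helper74.LR.BlkFac
import Pool.Agent.Lib_helper74.LR.Size
import Pool.Agent.Lib_helper74.LR.Mixed
import Pool.Agent.Lib_helper10.LogRank.Final

set_option autoImplicit false
set_option linter.unusedSectionVars false

/-! The protocol for a product of groups, after dropping the irrelevant factors. -/

namespace Pool.Agent.Lib_helper74.LR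

open Finset Pool.Agent.Lib_helper10.LogRank

theorem Admissible.isPerf {A c : ℕ} {K : Type} [Group K] (h : Admissible A c K) : IsPerf K := by
  rcases h with ⟨n, hn, ⟨e⟩⟩ | ⟨h, _⟩
  · have h1 : IsPerf (alternatingGroup (Fin n)) :=
      perf_of_commutator (commutator_alternatingGroup_eq_top (by simpa using hn))
    exact IsPerf.congr e.symm.toMonoidHom e.symm.surjective h1
  · exact perf_of_commutator h

section

variable {T : Type} [Fintype T] [DecidableEq T] {M : T → Type} [∀ t, Group (M t)]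
  [∀ t, Finite (M t)]
variable {Y : Type} [Fintype Y] [MulAction (∀ t, M t) Y]

variable (M) in
/-- the factor `t` is relevant -/
def Rel (φ : Y → Bool) (t : T) : Prop :=
  ∃ (g : ∀ t, M t) (a : M t) (y : Y), φ (g • (Pi.mulSingle t a • y)) ≠ φ (g • y)

/-- extension by one -/
def extHom (p : T → Prop) [DecidablePred p] : (∀ t : {t // p t}, M t) →* (∀ t, M t) where
  toFun g t := if h : p t then g ⟨t, h⟩ else 1
  map_one' := by funext t; by_cases h : p t <;> simp [h]
  map_mul' := by intro a b; funext t; by_cases h : p t <;> simp [h]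

theorem extHom_apply (p : T → Prop) [DecidablePred p] (g : ∀ t : {t // p t}, M t) (t : T) :
    extHom p g t = if h : p t then g ⟨t, h⟩ else 1 := rfl

theorem extHom_single (p : T → Prop) [DecidablePred p] (t : {t // p t}) (a : M t) :
    extHom p (Pi.mulSingle t a) = Pi.mulSingle t.1 a := by
  funext s
  rw [extHom_apply]
  by_cases h : s = t.1
  · subst h
    rw [dif_pos t.2]
    simp
  · rw [Pi.mulSingle_eq_of_ne h]
    split_ifs with h'
    · rw [Pi.mulSingle_eq_of_ne]
      intro h2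
      exact h (congrArg Subtype.val h2)
    · rfl

theorem irr (φ : Y → Bool) (h : ∀ t, M t) (hh : ∀ t, Rel M φ t → h t = 1) (g : ∀ t, M t) (y : Y) :
    φ (g • (h • y)) = φ (g • y) := by
  have hall : ∀ S : Finset T, φ (g • (piece h S • y)) = φ (g • y) := by
    intro S
    induction S using Finset.induction_on with
    | empty =>
      have : piece h (∅ : Finset T) = 1 := by funext t; simp [piece]
      rw [this, one_smul]
    | insert t S ht ih =>
      rw [piece_insert h ht]
      by_cases hrel : Rel M φ t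
      · rw [hh t hrel, Pi.mulSingle_one, mul_one]
        exact ih
      · unfold Rel at hrel
        push Not at hrel
        have h1 := hrel (g * piece h S) (h t) y
        rw [mul_smul, mul_smul] at h1
        rw [mul_smul, h1]
        exact ih
  have h2 : piece h univ = h := by funext t; simp [piece]
  have := hall univ
  rwa [h2] at this

/-- atoms for a relevant factor -/
theorem exists_atoms (A c L : ℕ) (φ : Y → Bool) (hr : (mat (∀ t, M t) φ).rank < 2 ^ L)
    (hL : ∀ n ≤ (mat (∀ t, M t) φ).rank, Nat.log 2 n + 1 ≤ L) (t : T)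
    (hadm : Admissible A c (M t)) (hrel : Rel M φ t) :
    ∃ 𝒜 : AtomGroup (M t), (∀ B, 𝒜.Good B → IsPerf (supp 𝒜.Fx B)) ∧
      Fintype.card 𝒜.E ≤ 2 ^ (4 * L + 7 + A * L ^ c) ∧
      Fintype.card 𝒜.R ≤ 2 ^ (4 * L + 7 + A * L ^ c) := by
  classical
  obtain ⟨g, a, y, hne⟩ := hrel
  rcases hadm with ⟨n, hn, ⟨e⟩⟩ | ⟨hperf, hrep⟩
  · have hV : 5 ≤ Fintype.card (Fin n) := by simpa using hn
    have hsize := alt_size ((MonoidHom.mulSingle M t).comp e.symm.toMonoidHom) φ L hr hV
      ⟨g, e a, y, by simpa using hne⟩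
    rw [Fintype.card_fin] at hsize
    have hLlt : L < 2 ^ L := Nat.lt_two_pow_self
    have h1 : L * (mat (∀ t, M t) φ).rank + 1 ≤ 2 ^ (2 * L) := by
      rw [two_mul, pow_add]
      have h2 : L + 1 ≤ 2 ^ L := hLlt
      have h3 : (mat (∀ t, M t) φ).rank + 1 ≤ 2 ^ L := hr
      calc L * (mat (∀ t, M t) φ).rank + 1 ≤ (L + 1) * ((mat (∀ t, M t) φ).rank + 1) := by
            nlinarith
        _ ≤ 2 ^ L * 2 ^ L := Nat.mul_le_mul h2 h3
    have h2 : n ≤ 2 ^ (2 * L + 3) := by
      have h3 : n ≤ 5 * (L * (mat (∀ t, M t) φ).rank) + 4 := by omega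
      rw [pow_add]
      omega
    have h3 : n * n ≤ 2 ^ (4 * L + 7 + A * L ^ c) := by
      calc n * n ≤ 2 ^ (2 * L + 3) * 2 ^ (2 * L + 3) := Nat.mul_le_mul h2 h2
        _ = 2 ^ (4 * L + 6) := by rw [← pow_add]; congr 1; ring
        _ ≤ 2 ^ (4 * L + 7 + A * L ^ c) := Nat.pow_le_pow_right (by norm_num) (by omega)
    refine ⟨(altFac (Fin n) hV).comap e, ?_, ?_, ?_⟩
    · intro B hB
      exact AtomGroup.comap_perf e _ B (altFac_perf hV B hB)
    · have h4 := altFac_E (V := Fin n) hV
      rw [Fintype.card_fin] at h4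
      exact h4.le.trans h3
    · have h4 := altFac_R (V := Fin n) hV
      rw [Fintype.card_fin] at h4
      exact h4.le.trans h3
  · have : Fintype (M t) := Fintype.ofFinite _
    obtain ⟨n, ρ, hρ, hn⟩ := rep_of_relevant (MonoidHom.mulSingle M t) φ
      ⟨g, a, y, by simpa using hne⟩
    have h1 := hrep n ρ hρ
    have h2 := hL n hn
    have h3 : Nat.log 2 (Nat.card (M t)) ≤ A * L ^ c :=
      h1.trans (Nat.mul_le_mul le_rfl (Nat.pow_le_pow_left h2 c))
    have h4 : Fintype.card (M t) ≤ 2 ^ (4 * L + 7 + A * L ^ c) := by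
      have h5 : Nat.card (M t) < 2 ^ (Nat.log 2 (Nat.card (M t)) + 1) :=
        Nat.lt_pow_succ_log_self (by norm_num) _
      rw [Nat.card_eq_fintype_card] at h5 h3
      exact h5.le.trans (Nat.pow_le_pow_right (by norm_num) (by omega))
    exact ⟨blkFac (M t), fun B _ => blkFac_perf (M t) (perf_of_commutator hperf) B, h4, h4⟩

theorem base_general (φ : Y → Bool) (L d b : ℕ) (hr : (mat (∀ t, M t) φ).rank < 2 ^ L)
    (p : T → Prop) [DecidablePred p] (hp : ∀ t, Rel M φ t → p t) (ab : T → Prop)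
    (𝒜 : ∀ t : {t // p t}, AtomGroup (M t))
    (h0 : ∀ t : {t // p t}, ab t.1 → ∀ B B' : Finset (𝒜 t).A, Disjoint B B' →
      supp (𝒜 t).Fx B = ⊥ ∨ supp (𝒜 t).Fx B' = ⊥)
    (h1 : ∀ t : {t // p t}, ¬ ab t.1 → ∀ B, (𝒜 t).Good B → IsPerf (supp (𝒜 t).Fx B))
    (hab : ∀ (s : ℕ) (S : Finset (Fin s)) (o : T → Option (Fin s)) (θ : ∀ t, M t),
      (∀ t, ¬ ab t → θ t = 1) → d < S.card → ∀ y : Y,
      ∑ U ∈ S.powerset, (-1 : ℝ) ^ U.card * ind (φ (ownPart o θ U • y)) = 0)
    (hE : Fintype.card (Σ t, (𝒜 t).E) + 1 ≤ 2 ^ b)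
    (hR : Fintype.card (Σ t, (𝒜 t).R) + 1 ≤ 2 ^ b) :
    CCOn (fun _ _ => True) (fun (g : ∀ t, M t) (y : Y) => φ (g • y))
      (54 * ((d + L) ^ 2 * L) * (54 * ((d + L) ^ 2 * L) * b + 54 * ((d + L) ^ 2 * L) * b) + 1) := by
  classical
  let ext : (∀ t : {t // p t}, M t) →* (∀ t, M t) := extHom p
  let act : MulAction (∀ t : {t // p t}, M t) Y := MulAction.compHom Y ext
  have hact : ∀ (g : ∀ t : {t // p t}, M t) (y : Y), g • y = ext g • y := fun _ _ => rfl
  have hrk : (mat (∀ t : {t // p t}, M t) φ).rank ≤ (mat (∀ t, M t) φ).rank := by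
    have : mat (∀ t : {t // p t}, M t) φ = (mat (∀ t, M t) φ).submatrix ext id := rfl
    rw [this]
    exact Matrix.rank_submatrix_le _ _ _
  have hrk' : (mat (∀ t : {t // p t}, M t) φ).rank < 2 ^ L := hrk.trans_lt hr
  have hab' : ∀ (s : ℕ) (S : Finset (Fin s)) (o : {t // p t} → Option (Fin s))
      (θ : ∀ t : {t // p t}, M t), (∀ t : {t // p t}, ¬ ab t.1 → θ t = 1) → d < S.card →
      ∀ y : Y, ∑ U ∈ S.powerset, (-1 : ℝ) ^ U.card * ind (φ (ownPart o θ U • y)) = 0 := by
    intro s S o θ hθ hS y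
    have h2 := hab s S (fun t => if h : p t then o ⟨t, h⟩ else none) (ext θ) ?_ hS y
    · refine Eq.trans (Finset.sum_congr rfl fun U _ => ?_) h2
      rw [hact]
      congr 4
      funext t
      show extHom p (ownPart o θ U) t = _
      rw [extHom_apply]
      by_cases h : p t
      · rw [dif_pos h]
        by_cases h3 : ∃ i ∈ U, o ⟨t, h⟩ = some i
        · rw [ownPart_pos h3, ownPart_pos (by simpa only [dif_pos h] using h3)]
          show _ = extHom p θ t
          rw [extHom_apply, dif_pos h]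
        · rw [ownPart_neg h3, ownPart_neg (by simpa only [dif_pos h] using h3)]
      · rw [dif_neg h, ownPart_neg]
        simp only [dif_neg h]
        simp
    · intro t ht
      show extHom p θ t = 1
      rw [extHom_apply]
      by_cases h : p t
      · rw [dif_pos h]; exact hθ ⟨t, h⟩ ht
      · rw [dif_neg h]
  have hcore := core_protocol 𝒜 φ L ((d + L) ^ 2) b hrk'
    (fun z s B hd hg hs => sens_mixed (fun t : {t // p t} => ab t.1) φ L d hrk' hab' h0 h1 z s B
      hd hg hs) hE hR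
  obtain ⟨π, hπ1, hπ2⟩ := hcore
  let res : (∀ t, M t) → (∀ t : {t // p t}, M t) := fun g t => g t
  refine ⟨Protocol.pull (X := ∀ t : {t // p t}, M t) (Y := Y) (X' := ∀ t, M t) (Y' := Y) res id π,
    ?_, ?_⟩
  · rw [Protocol.pull_cost]
    exact hπ1
  · intro g y _
    rw [Protocol.pull_eval]
    have h4 := hπ2 (res g) (id y) trivial
    rw [h4]
    simp only [id]
    rw [hact]
    have h5 : g = ext (res g) * ((ext (res g))⁻¹ * g) := by
      group
    conv_rhs => rw [h5, mul_smul]
    symm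
    refine irr φ _ ?_ _ y
    intro t ht
    have hpt : p t := hp t ht
    rw [Pi.mul_apply, Pi.inv_apply, extHom_apply, dif_pos hpt]
    exact inv_mul_cancel _

end

end Pool.Agent.Lib_helper74.LR
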