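import Mathlib
import Pool.Agent.Lib_helper10.LogRank.Main

set_option autoImplicit false
set_option linter.unusedSectionVars false

/-! Periodic extension of the box part (extracted from helper10's proof of `main_cc`), expansion
of the extended function, and vanishing of iterated differences of low degree functions. -/

namespace Pool.Agent.Lib_helper74.LR

open Finset Polynomial Pool.Agent.Lib_helper10.LogRank

variable {k : ℕ} {N : Fin k → ℕ} {Q : Type}

/-- the window -/
noncomputable def win (N : Fin k → ℕ) (r : ℕ) (l : Fin k → ℕ) (i : Fin k) : ℕ :=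
  if l i = 0 then 2 * N i - 1 - 2 * r else (Psi r ℝ).natDegree ^ 2 + (Psi r ℝ).natDegree

/-- the shifted position -/
def pos (r : ℕ) (l : Fin k → ℕ) (x₀ v z : Fin k → ℕ) : Fin k → ℕ :=
  fun i => if l i = 0 then r + z i else x₀ i + v i

theorem exists_ext [Fintype Q] (f : Q → (Fin k → ℕ) → Bool) {r : ℕ} (hr : 0 < r)
    (hrank : realRank (fun (x : ∀ i, Fin (N i)) (y : Q × ∀ i, Fin (N i)) =>
      f y.1 (fun i => (x i : ℕ) + y.2 i)) ≤ r) (l : Fin k → ℕ) (x₀ : ∀ i, Fin (N i))
    (hx₀ : ∀ i, code N r x₀ i = l i) (y : Q × ∀ i, Fin (N i)) :
    ∃ G : (Fin k → ℕ) → ℝ, (∀ z, G z = 0 ∨ G z = 1) ∧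
      (∀ i z, T (Psi r ℝ) (line G z i) = 0) ∧ ∀ z, (∀ i, z i < win N r l i) →
        G z = if f y.1 (pos r l (fun i => x₀ i) (fun i => y.2 i) z) then 1 else 0 := by
  classical
  have hNreg : ∀ i, l i = 0 → RR r ≤ N i := by
    intro i hi
    have : reg N r x₀ i := by rw [← code_eq_zero, hx₀, hi]
    exact this.1
  let D := (Psi r ℝ).natDegree
  let g : (Q × ∀ i, Fin (N i)) → (Fin k → ℕ) → ℝ := fun y z =>
    if f y.1 (pos r l (fun i => x₀ i) (fun i => y.2 i) z) then 1 else 0
  refine extension (f := g y) (Psi_monic r ℝ) ?_ ?_ ?_
  · intro i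
    simp only [win]
    split_ifs with h
    · exact (RR_facts hr (hNreg i h)).2.2
    · exact le_rfl
  · intro z _
    simp only [g]
    split_ifs <;> simp
  · intro i z hz n hn
    by_cases hi : l i = 0
    · -- Hankel direction
      let Z : Fin k → ℕ := fun j => if l j = 0 then r + z j else x₀ j + y.2 j
      let s : ℕ → Bool := fun m => f y.1 (Function.update Z i m)
      have hline : line (g y) z i = fun n => if s (r + n) then (1 : ℝ) else 0 := by
        funext m
        simp only [line, g, s]
        congr 3
        funext j
        unfold pos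
        by_cases hj : j = i
        · subst hj; simp [hi]
        · simp [hj, Z]
      obtain ⟨hf1, hf2, hf3⟩ := RR_facts hr (hNreg i hi)
      have hZ : ∀ j, j ≠ i → Z j ≤ 2 * (N j - 1) := by
        intro j hj
        have := hz j hj
        have hy := (y.2 j).2
        have hx := (x₀ j).2
        simp only [win, Z] at *
        split_ifs at * with hj0
        · omega
        · omega
      have hNpos : ∀ j, 0 < N j := fun j => lt_of_le_of_lt (Nat.zero_le _) (x₀ j).2
      let a : Fin (N i) → ∀ j, Fin (N j) := fun t =>
        Function.update (fun j => (⟨min (Z j) (N j - 1), by have := hNpos j; omega⟩ : Fin (N j))) i t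
      let b : Fin (N i) → ∀ j, Fin (N j) := fun t =>
        Function.update (fun j => (⟨min (Z j - min (Z j) (N j - 1)) (N j - 1),
          by have := hNpos j; omega⟩ : Fin (N j))) i t
      have hrank' : (Matrix.of fun (t u : Fin (N i)) =>
          if s (t + u) then (1 : ℝ) else 0).rank ≤ r := by
        have h1 := realRank_comp_le (fun (x : ∀ i, Fin (N i)) (y : Q × ∀ i, Fin (N i)) =>
          f y.1 (fun i => (x i : ℕ) + y.2 i)) a (fun t => (y.1, b t))
        refine le_trans (le_of_eq ?_) (h1.trans hrank)
        unfold realRank
        congr 1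
        ext t u
        have e0 : Function.update Z i ((t : ℕ) + u) = fun j => ((a t j : ℕ) + (b u j : ℕ)) := by
          funext j
          by_cases hj : j = i
          · subst hj; simp [a, b]
          · have := hZ j hj
            simp only [a, b, Function.update_of_ne hj]
            omega
        have e1 : s (t + u) = f y.1 (fun j => ((a t j : ℕ) + (b u j : ℕ))) :=
          congrArg (f y.1) e0
        show (if s (t + u) then (1 : ℝ) else 0) =
          if f y.1 (fun j => ((a t j : ℕ) + (b u j : ℕ))) then 1 else 0
        rw [e1]
      have hwi : win N r l i = 2 * N i - 1 - 2 * r := if_pos hi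
      have := hankel_Psi hf1 hf2 hrank' n (by rw [← hwi]; exact hn)
      rw [hline]
      exact this
    · -- constant direction
      have hline : line (g y) z i = fun _ => g y z := by
        funext m
        simp only [line, g]
        congr 3
        funext j
        unfold pos
        by_cases hj : j = i
        · subst hj; simp [hi]
        · simp [hj]
      rw [hline, T_Psi_const hr]
      rfl

/-- one step of the expansion of a function killed by `p` in the direction `i` -/
theorem expand_line {p : ℝ[X]} (hp : p.Monic) {G : (Fin k → ℕ) → ℝ} {i : Fin k}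
    (hG : ∀ z, T p (line G z i) = 0) (z z' : Fin k → ℕ) :
    G (fun j => z j + z' j) = ∑ n ∈ Finset.range p.natDegree,
      kap p (z i) n * G (fun j => (Function.update z i n) j + z' j) := by
  let Z : Fin k → ℕ := fun j => z j + z' j
  have h1 : T p (fun n => line G Z i (n + z' i)) = 0 := by
    rw [T_shift, hG]
    rfl
  have h2 := congrFun (ext_eq hp h1) (z i)
  have h3 : line G Z i (z i + z' i) = G Z := by
    unfold line
    congr 1
    exact Function.update_eq_self i Z
  rw [← h3, ← h2]
  unfold Lib_helper10.LogRank.ext
  refine Finset.sum_congr rfl fun n _ => ?_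
  congr 1
  show G (Function.update Z i (n + z' i)) = G fun j => Function.update z i n j + z' j
  congr 1
  funext j
  by_cases hj : j = i
  · subst hj; simp
  · simp [hj, Z]

/-- all translates are in the span of finitely many ones -/
theorem expand_span {p : ℝ[X]} (hp : p.Monic) {E : Type*} (G : E → (Fin k → ℕ) → ℝ)
    (hG : ∀ q i z, T p (line (G q) z i) = 0) (z' : E → (Fin k → ℕ)) (z : Fin k → ℕ) :
    (fun q => G q (fun j => z j + z' q j)) ∈ Submodule.span ℝ
      (Set.range fun a : Fin k → Fin p.natDegree => fun q => G q (fun j => (a j : ℕ) + z' q j)) := by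
  classical
  have key : ∀ (n : ℕ) (z : Fin k → ℕ),
      (Finset.univ.filter fun i => p.natDegree ≤ z i).card = n →
      (fun q => G q (fun j => z j + z' q j)) ∈ Submodule.span ℝ
      (Set.range fun a : Fin k → Fin p.natDegree => fun q => G q (fun j => (a j : ℕ) + z' q j)) := by
    intro n
    induction n with
    | zero =>
      intro z hz
      rw [Finset.card_eq_zero, Finset.filter_eq_empty_iff] at hz
      push Not at hz
      exact Submodule.subset_span ⟨fun j => ⟨z j, hz (mem_univ j)⟩, rfl⟩
    | succ n ih =>
      intro z hz
      obtain ⟨i, hi⟩ := Finset.card_pos.1 (by rw [hz]; omega :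
        0 < (Finset.univ.filter fun i => p.natDegree ≤ z i).card)
      have h1 : (fun q => G q (fun j => z j + z' q j)) = ∑ n ∈ Finset.range p.natDegree,
          kap p (z i) n • (fun q => G q (fun j => (Function.update z i n) j + z' q j)) := by
        funext q
        rw [Finset.sum_apply]
        exact expand_line hp (hG q i) z (z' q)
      rw [h1]
      refine Submodule.sum_mem _ fun m hm => Submodule.smul_mem _ _ (ih _ ?_)
      have h2 : (Finset.univ.filter fun j => p.natDegree ≤ Function.update z i m j)
          = (Finset.univ.filter fun j => p.natDegree ≤ z j).erase i := by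
        ext j
        simp only [mem_filter, mem_univ, true_and, mem_erase]
        by_cases hj : j = i
        · subst hj
          have := Finset.mem_range.1 hm
          simp only [Function.update_self, ne_eq, not_true_eq_false, false_and, iff_false]
          omega
        · simp [hj]
      rw [h2, Finset.card_erase_of_mem hi, hz]
      rfl
  exact key _ z rfl

/-- iterated differences of low degree functions vanish -/
theorem diff_lowDeg {ι : Type} [Fintype ι] [DecidableEq ι] {A : ι → Type} [∀ i, AddCommGroup (A i)]
    {d : ℕ} {h : (∀ i, A i) → ℝ} (hh : h ∈ lowDeg A d) {s : ℕ} (S : Finset (Fin s))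
    (hS : d < S.card) (o : ι → Option (Fin s)) (w : ∀ i, A i)
    (e : Finset (Fin s) → ∀ i, A i)
    (he : ∀ U V : Finset (Fin s), ∀ i, (∀ j, o i = some j → (j ∈ U ↔ j ∈ V)) → e U i = e V i) :
    ∑ U ∈ S.powerset, (-1 : ℝ) ^ U.card * h (e U + w) = 0 := by
  classical
  let Λ : ((∀ i, A i) → ℝ) →ₗ[ℝ] ℝ :=
    { toFun := fun h => ∑ U ∈ S.powerset, (-1 : ℝ) ^ U.card * h (e U + w)
      map_add' := by
        intro a b
        simp only [Pi.add_apply, mul_add, Finset.sum_add_distrib]
      map_smul' := by
        intro c a
        simp only [Pi.smul_apply, smul_eq_mul, RingHom.id_apply, Finset.mul_sum]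
        refine Finset.sum_congr rfl fun U _ => by ring }
  have hle : lowDeg A d ≤ LinearMap.ker Λ := by
    refine iSup₂_le fun P hP g hg => ?_
    rw [LinearMap.mem_ker]
    show ∑ U ∈ S.powerset, (-1 : ℝ) ^ U.card * g (e U + w) = 0
    -- an index which owns no coordinate of `P`
    have hex : ∃ j ∈ S, ∀ i ∈ P, o i ≠ some j := by
      by_contra hcon
      push Not at hcon
      have h1 : S.image some ⊆ P.image o := by
        intro x hx
        obtain ⟨j, hj, rfl⟩ := Finset.mem_image.1 hx
        obtain ⟨i, hi, hij⟩ := hcon j hj
        exact Finset.mem_image.2 ⟨i, hi, hij⟩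
      have h2 := Finset.card_le_card h1
      rw [Finset.card_image_of_injective _ (Option.some_injective _)] at h2
      have h3 : (P.image o).card ≤ P.card := Finset.card_image_le
      omega
    obtain ⟨j, hjS, hj⟩ := hex
    have hSj : S = insert j (S.erase j) := (Finset.insert_erase hjS).symm
    rw [hSj, Finset.sum_powerset_insert (Finset.notMem_erase j S), ← Finset.sum_add_distrib]
    refine Finset.sum_eq_zero fun U hU => ?_
    have hjU : j ∉ U := fun h => Finset.notMem_erase j S (Finset.mem_powerset.1 hU h)
    rw [Finset.card_insert_of_notMem hjU]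
    have : g (e (insert j U) + w) = g (e U + w) := by
      refine hg _ _ fun i hi => ?_
      rw [Pi.add_apply, Pi.add_apply]
      congr 1
      refine he _ _ i fun m hm => ?_
      have hne : m ≠ j := by
        rintro rfl
        exact hj i hi hm
      simp [hne]
    rw [this, pow_succ]
    ring
  exact LinearMap.mem_ker.1 (hle hh)

end Pool.Agent.Lib_helper74.LR
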