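import Mathlib
import Pool.Agent.Lib_helper74.LR.Base
import Pool.Agent.Lib_helper74.LR.Ext

set_option autoImplicit false
set_option linter.unusedSectionVars false

/-! Boxes times groups: the rank of the periodic extension. -/

namespace Pool.Agent.Lib_helper74.LR

open Finset Polynomial Pool.Agent.Lib_helper10.LogRank

theorem rank_le_of_rows {m m' n : Type} [Finite m] [Finite m'] [Fintype n] (A : Matrix m n ℝ)
    (B : Matrix m' n ℝ) (h : ∀ i, A.row i ∈ Submodule.span ℝ (Set.range B.row)) :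
    A.rank ≤ B.rank := by
  rw [Matrix.rank_eq_finrank_span_row, Matrix.rank_eq_finrank_span_row]
  refine Submodule.finrank_mono (Submodule.span_le.2 ?_)
  rintro _ ⟨i, rfl⟩
  exact h i

section

variable (k r : ℕ) {ι : Type} (K : ι → Type)

/-- the factors: one abelian factor for each prime, and the nonabelian ones -/
def MB : PP r ⊕ ι → Type
  | .inl p => Multiplicative (AA (Fin k) r p)
  | .inr i => K i

instance instGroupMB [∀ i, Group (K i)] : ∀ t, Group (MB k r K t)
  | .inl p => inferInstanceAs (Group (Multiplicative (AA (Fin k) r p)))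
  | .inr i => inferInstanceAs (Group (K i))

instance instFiniteMB [∀ i, Finite (K i)] : ∀ t, Finite (MB k r K t)
  | .inl p => inferInstanceAs (Finite (Multiplicative (AA (Fin k) r p)))
  | .inr i => inferInstanceAs (Finite (K i))

variable {K}

/-- the abelian part of a group element -/
def abP (g : ∀ t, MB k r K t) : ∀ p : PP r, AA (Fin k) r p := fun p =>
  Multiplicative.toAdd (show Multiplicative (AA (Fin k) r p) from g (.inl p))

/-- the nonabelian part of a group element -/
def naP (g : ∀ t, MB k r K t) : ∀ i, K i := fun i => g (.inr i)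

/-- the group element with given parts -/
def mkG (a : ∀ p : PP r, AA (Fin k) r p) (h : ∀ i, K i) : ∀ t, MB k r K t
  | .inl p => Multiplicative.ofAdd (a p)
  | .inr i => h i

theorem abP_mkG (a : ∀ p : PP r, AA (Fin k) r p) (h : ∀ i, K i) : abP k r (mkG k r a h) = a := rfl

theorem naP_mkG (a : ∀ p : PP r, AA (Fin k) r p) (h : ∀ i, K i) : naP k r (mkG k r a h) = h := rfl

variable [∀ i, Group (K i)]

theorem abP_one : abP k r (1 : ∀ t, MB k r K t) = 0 := rfl

theorem naP_one : naP k r (1 : ∀ t, MB k r K t) = 1 := rfl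

theorem abP_mul (g h : ∀ t, MB k r K t) : abP k r (g * h) = abP k r g + abP k r h := rfl

theorem naP_mul (g h : ∀ t, MB k r K t) : naP k r (g * h) = naP k r g * naP k r h := rfl

variable (N : Fin k → ℕ) (Y : Type) [MulAction (∀ i, K i) Y]

/-- the points on which the group acts -/
def YB : Type := (∀ p : PP r, AA (Fin k) r p) × (Y × ∀ i, Fin (N i))

variable {N Y} in
/-- the point with given parts -/
def mkYB (w : ∀ p : PP r, AA (Fin k) r p) (q : Y × ∀ i, Fin (N i)) : YB k r N Y := (w, q)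

noncomputable instance instFintypeYB [Fintype Y] : Fintype (YB k r N Y) :=
  inferInstanceAs (Fintype ((∀ p : PP r, AA (Fin k) r p) × (Y × ∀ i, Fin (N i))))

instance instActionYB : MulAction (∀ t, MB k r K t) (YB k r N Y) where
  smul g q := (abP k r g + q.1, (naP k r g • q.2.1, q.2.2))
  one_smul q := by
    show (abP k r (1 : ∀ t, MB k r K t) + q.1, (naP k r (1 : ∀ t, MB k r K t) • q.2.1, q.2.2)) = q
    rw [abP_one, naP_one, zero_add, one_smul]
    rfl
  mul_smul g h q := by
    show (abP k r (g * h) + q.1, (naP k r (g * h) • q.2.1, q.2.2)) =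
      (abP k r g + (abP k r h + q.1), (naP k r g • (naP k r h • q.2.1), q.2.2))
    rw [abP_mul, naP_mul, add_assoc, mul_smul]

theorem smulYB (g : ∀ t, MB k r K t) (q : YB k r N Y) :
    g • q = (abP k r g + q.1, (naP k r g • q.2.1, q.2.2)) := rfl

end

section

variable {k r : ℕ} {ι : Type} [Fintype ι] {K : ι → Type} [∀ i, Group (K i)] [∀ i, Finite (K i)]
variable {N : Fin k → ℕ} {Y : Type} [Fintype Y] [MulAction (∀ i, K i) Y]

/-- the Boolean function on the points -/
noncomputable def phiB (Gx : Y × (∀ i, Fin (N i)) → (Fin k → ℕ) → ℝ)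
    (c : (∀ p : PP r, AA (Fin k) r p) → (Fin k → ℕ)) (q : YB k r N Y) : Bool :=
  @decide (Gx q.2 (c q.1) = 1) (Classical.propDecidable _)

theorem ind_phiB {Gx : Y × (∀ i, Fin (N i)) → (Fin k → ℕ) → ℝ}
    (hG1 : ∀ q z, Gx q z = 0 ∨ Gx q z = 1) (c : (∀ p : PP r, AA (Fin k) r p) → (Fin k → ℕ))
    (q : YB k r N Y) : ind (phiB Gx c q) = Gx q.2 (c q.1) := by
  unfold ind phiB
  rcases hG1 q.2 (c q.1) with h | h
  · rw [h]; simp
  · rw [h]; simp

theorem rank_box (hr : 0 < r) (f : Y → (Fin k → ℕ) → Bool) (l : Fin k → ℕ)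
    (x₀ : ∀ i, Fin (N i)) (hx₀ : ∀ i, code N r x₀ i = l i)
    (Gx : Y × (∀ i, Fin (N i)) → (Fin k → ℕ) → ℝ)
    (hG1 : ∀ q z, Gx q z = 0 ∨ Gx q z = 1) (hG2 : ∀ q i z, T (Psi r ℝ) (line (Gx q) z i) = 0)
    (hG3 : ∀ q z, (∀ i, z i < win N r l i) →
      Gx q z = if f q.1 (pos r l (fun i => x₀ i) (fun i => q.2 i) z) then 1 else 0)
    (c : (∀ p : PP r, AA (Fin k) r p) → (Fin k → ℕ))
    (hc : ∀ u i p, ((c u i : ℕ) : ZMod (QQ r p)) = u p i) :
    (mat (∀ t, MB k r K t) (phiB (N := N) (Y := Y) Gx c)).rank ≤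
      realRank (fun (x : (∀ i, Fin (N i)) × (∀ i, K i)) (q : Y × ∀ i, Fin (N i)) =>
        f (x.2 • q.1) (fun i => (x.1 i : ℕ) + q.2 i)) := by
  classical
  have : Fintype (∀ i, K i) := Fintype.ofFinite _
  set D := (Psi r ℝ).natDegree with hD
  have hNreg : ∀ i, l i = 0 → RR r ≤ N i := by
    intro i hi
    have : reg N r x₀ i := by rw [← code_eq_zero, hx₀, hi]
    exact this.1
  have hGper : ∀ q, Gx q ∈ Submodule.span ℝ (periodicSet (Fin k) r) := fun q =>
    mem_span_periodic hr (hG2 q)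
  have hadd : ∀ q a w, Gx q (c (a + w)) = Gx q (fun j => c a j + c w j) := by
    intro q a w
    rw [← crt_eq_of_periodic hc (hGper q) (fun j => c a j + c w j)]
    congr 2
    funext p i
    rw [Nat.cast_add, hc, hc]
    rfl
  let M₁ : Matrix ((Fin k → Fin D) × (∀ i, K i)) (YB k r N Y) ℝ :=
    Matrix.of fun e q => Gx (e.2 • q.2.1, q.2.2) (fun j => (e.1 j : ℕ) + c q.1 j)
  let M₂ : Matrix ((Fin k → Fin D) × (∀ i, K i)) ((Fin k → Fin D) × (Y × ∀ i, Fin (N i))) ℝ :=
    Matrix.of fun e q => Gx (e.2 • q.2.1, q.2.2) (fun j => (q.1 j : ℕ) + e.1 j)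
  have hstep1 : (mat (∀ t, MB k r K t) (phiB (N := N) (Y := Y) Gx c)).rank ≤ M₁.rank := by
    refine rank_le_of_rows _ _ fun g => ?_
    have h1 : (mat (∀ t, MB k r K t) (phiB (N := N) (Y := Y) Gx c)).row g
        = fun q : YB k r N Y => Gx (naP k r g • q.2.1, q.2.2)
          (fun j => c (abP k r g) j + c q.1 j) := by
      funext q
      show ind (phiB Gx c (g • q)) = _
      rw [ind_phiB hG1, smulYB]
      exact hadd _ _ _
    rw [h1]
    have h2 := expand_span (Psi_monic r ℝ)
      (fun q : YB k r N Y => Gx (naP k r g • q.2.1, q.2.2)) (fun q i z => hG2 _ i z)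
      (fun q => c q.1) (c (abP k r g))
    refine Submodule.span_mono ?_ h2
    rintro _ ⟨a, rfl⟩
    exact ⟨(a, naP k r g), rfl⟩
  have hstep2 : M₁.rank ≤ M₂.rank := by
    rw [← Matrix.rank_transpose M₁, ← Matrix.rank_transpose M₂]
    refine rank_le_of_rows _ _ fun q => ?_
    have h1 : M₁.transpose.row q = fun e : (Fin k → Fin D) × (∀ i, K i) =>
        Gx (e.2 • q.2.1, q.2.2) (fun j => c q.1 j + e.1 j) := by
      funext e
      show Gx (e.2 • q.2.1, q.2.2) (fun j => (e.1 j : ℕ) + c q.1 j) = _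
      congr 1
      funext j
      exact add_comm _ _
    rw [h1]
    have h2 := expand_span (Psi_monic r ℝ)
      (fun e : (Fin k → Fin D) × (∀ i, K i) => Gx (e.2 • q.2.1, q.2.2)) (fun e i z => hG2 _ i z)
      (fun e j => (e.1 j : ℕ)) (c q.1)
    refine Submodule.span_mono ?_ h2
    rintro _ ⟨a, rfl⟩
    exact ⟨(a, q.2), rfl⟩
  have hDN : ∀ i, l i = 0 → r + D ≤ N i ∧ 2 * D ≤ win N r l i := by
    intro i hi
    obtain ⟨h1, h2, h3⟩ := RR_facts hr (hNreg i hi)
    have h4 : D ≤ 2 * r ^ 3 := Psi_natDegree r ℝ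
    have h5 := hNreg i hi
    unfold RR at h5
    have h6 : r ^ 3 ≤ r ^ 6 := Nat.pow_le_pow_right hr (by norm_num)
    have h7 : r ≤ r ^ 6 := Nat.le_self_pow (by norm_num) r
    refine ⟨by omega, ?_⟩
    unfold win
    rw [if_pos hi]
    have h8 : 2 * D ≤ D ^ 2 + D := by nlinarith [Nat.zero_le D, sq_nonneg ((D : ℤ) - 1), Nat.le_self_pow (two_ne_zero) D]
    exact h8.trans h3
  have hDw : ∀ i, l i ≠ 0 → 2 * D ≤ win N r l i := by
    intro i hi
    unfold win
    rw [if_neg hi]
    nlinarith [Nat.zero_le D, Nat.le_self_pow (two_ne_zero) D]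
  have hstep3 : M₂.rank ≤ realRank (fun (x : (∀ i, Fin (N i)) × (∀ i, K i))
      (q : Y × ∀ i, Fin (N i)) => f (x.2 • q.1) (fun i => (x.1 i : ℕ) + q.2 i)) := by
    let ua : (Fin k → Fin D) → ∀ i, Fin (N i) := fun a i =>
      if h : l i = 0 then ⟨r + a i, by have := (hDN i h).1; have := (a i).2; omega⟩ else x₀ i
    let vb : (Fin k → Fin D) → (∀ i, Fin (N i)) → ∀ i, Fin (N i) := fun b v i =>
      if h : l i = 0 then ⟨b i, by have := (hDN i h).1; have := (b i).2; omega⟩ else v i
    have h1 := realRank_comp_le (fun (x : (∀ i, Fin (N i)) × (∀ i, K i))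
      (q : Y × ∀ i, Fin (N i)) => f (x.2 • q.1) (fun i => (x.1 i : ℕ) + q.2 i))
      (fun e : (Fin k → Fin D) × (∀ i, K i) => (ua e.1, e.2))
      (fun q : (Fin k → Fin D) × (Y × ∀ i, Fin (N i)) => (q.2.1, vb q.1 q.2.2))
    refine le_trans (le_of_eq ?_) h1
    unfold realRank
    congr 1
    ext e q
    simp only [M₂, Matrix.of_apply]
    rw [hG3]
    · congr 2
      have : (pos r l (fun i => (x₀ i : ℕ)) (fun i => (q.2.2 i : ℕ)) fun j => (q.1 j : ℕ) + e.1 j)
          = fun i => ((ua e.1 i : ℕ) + vb q.1 q.2.2 i) := by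
        funext i
        unfold pos
        simp only [ua, vb]
        by_cases h : l i = 0
        · simp only [h, if_true, dif_pos]
          omega
        · simp only [h, if_false, dif_neg, not_false_eq_true]
      rw [this]
    · intro i
      have h2 : 2 * D ≤ win N r l i := by
        by_cases h : l i = 0
        · exact (hDN i h).2
        · exact hDw i h
      have h3 := (q.1 i).2
      have h4 := (e.1 i).2
      omega
  exact hstep1.trans (hstep2.trans hstep3)

end

end Pool.Agent.Lib_helper74.LR
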