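import Mathlib
import Pool.Agent.Lib_helper74.LR.Box

set_option autoImplicit false
set_option linter.unusedSectionVars false

/-! Boxes times groups: the protocol. -/

namespace Pool.Agent.Lib_helper74.LR

open Finset Polynomial Pool.Agent.Lib_helper10.LogRank

section

variable {k r : ℕ} {ι : Type} [Fintype ι] {K : ι → Type} [∀ i, Group (K i)] [∀ i, Finite (K i)]
variable {N : Fin k → ℕ} {Y : Type} [Fintype Y] [MulAction (∀ i, K i) Y]

/-- abelian index -/
def isAb : PP r ⊕ ι → Prop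
  | .inl _ => True
  | .inr _ => False

theorem hab_box (hr : 0 < r) (Gx : Y × (∀ i, Fin (N i)) → (Fin k → ℕ) → ℝ)
    (hG1 : ∀ q z, Gx q z = 0 ∨ Gx q z = 1) (hG2 : ∀ q i z, T (Psi r ℝ) (line (Gx q) z i) = 0)
    (c : (∀ p : PP r, AA (Fin k) r p) → (Fin k → ℕ))
    (hc : ∀ u i p, ((c u i : ℕ) : ZMod (QQ r p)) = u p i)
    (s : ℕ) (S : Finset (Fin s)) (o : PP r ⊕ ι → Option (Fin s)) (θ : ∀ t, MB k r K t)
    (hθ : ∀ t, ¬ isAb t → θ t = 1) (hS : k * (Nat.log 2 r + 1) < S.card) (y : YB k r N Y) :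
    ∑ U ∈ S.powerset, (-1 : ℝ) ^ U.card * ind (phiB Gx c (ownPart o θ U • y)) = 0 := by
  classical
  have hna : ∀ U : Finset (Fin s), naP k r (ownPart o θ U) = 1 := by
    intro U
    funext i
    show ownPart o θ U (.inr i) = 1
    by_cases h : ∃ j ∈ U, o (.inr i) = some j
    · rw [ownPart_pos h]; exact hθ _ (fun h => h)
    · rw [ownPart_neg h]
  have h1 : ∀ U : Finset (Fin s), ind (phiB Gx c (ownPart o θ U • y))
      = Gx y.2 (c (abP k r (ownPart o θ U) + y.1)) := by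
    intro U
    rw [ind_phiB hG1, smulYB, hna U, one_smul]
  simp only [h1]
  have hlow := lowDeg_of_periodic hc (mem_span_periodic hr (hG2 y.2))
  rw [Fintype.card_fin] at hlow
  refine diff_lowDeg (A := fun p : PP r => AA (Fin k) r p) hlow S hS (fun p => o (.inl p)) y.1
    (fun U => abP k r (ownPart o θ U)) ?_
  intro U V p hUV
  show Multiplicative.toAdd (show Multiplicative (AA (Fin k) r p) from ownPart o θ U (.inl p)) =
    Multiplicative.toAdd (show Multiplicative (AA (Fin k) r p) from ownPart o θ V (.inl p))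
  have : ownPart o θ U (.inl p) = ownPart o θ V (.inl p) := by
    by_cases h : ∃ j ∈ U, o (.inl p) = some j
    · obtain ⟨j, hj, hoj⟩ := h
      rw [ownPart_pos ⟨j, hj, hoj⟩, ownPart_pos ⟨j, (hUV j hoj).1 hj, hoj⟩]
    · rw [ownPart_neg h, ownPart_neg]
      rintro ⟨j, hj, hoj⟩
      exact h ⟨j, (hUV j hoj).2 hj, hoj⟩
  rw [this]

theorem box_protocol (A c₀ : ℕ) (hadm : ∀ i, Admissible A c₀ (K i)) (hr : 0 < r)
    (f : Y → (Fin k → ℕ) → Bool) (l : Fin k → ℕ)
    (x₀ : ∀ i, Fin (N i)) (hx₀ : ∀ i, code N r x₀ i = l i)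
    (Gx : Y × (∀ i, Fin (N i)) → (Fin k → ℕ) → ℝ)
    (hG1 : ∀ q z, Gx q z = 0 ∨ Gx q z = 1) (hG2 : ∀ q i z, T (Psi r ℝ) (line (Gx q) z i) = 0)
    (hG3 : ∀ q z, (∀ i, z i < win N r l i) →
      Gx q z = if f q.1 (pos r l (fun i => x₀ i) (fun i => q.2 i) z) then 1 else 0)
    (c : (∀ p : PP r, AA (Fin k) r p) → (Fin k → ℕ))
    (hc : ∀ u i p, ((c u i : ℕ) : ZMod (QQ r p)) = u p i)
    (hrank : realRank (fun (x : (∀ i, Fin (N i)) × (∀ i, K i)) (q : Y × ∀ i, Fin (N i)) =>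
        f (x.2 • q.1) (fun i => (x.1 i : ℕ) + q.2 i)) ≤ r) :
    CCOn (fun _ _ => True) (fun (g : ∀ t, MB k r K t) (q : YB k r N Y) => phiB Gx c (g • q))
      (81649 * ((A + 1) * (k + 1) ^ 5 * (Nat.log 2 r + 1) ^ (c₀ + 7))) := by
  classical
  set ℓ := Nat.log 2 r with hℓ
  set L := ℓ + 1 with hL
  have hrL : r < 2 ^ L := Nat.lt_pow_succ_log_self (by norm_num) r
  have hL1 : 1 ≤ L := by omega
  set φ : YB k r N Y → Bool := phiB Gx c with hφ
  have hrk : (mat (∀ t, MB k r K t) φ).rank ≤ r :=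
    (rank_box hr f l x₀ hx₀ Gx hG1 hG2 hG3 c hc).trans hrank
  have hrk' : (mat (∀ t, MB k r K t) φ).rank < 2 ^ L := hrk.trans_lt hrL
  have hLn : ∀ n ≤ (mat (∀ t, MB k r K t) φ).rank, Nat.log 2 n + 1 ≤ L := fun n hn =>
    Nat.add_le_add_right (Nat.log_mono_right (hn.trans hrk)) 1
  let p : PP r ⊕ ι → Prop := fun t => isAb t ∨ Rel (MB k r K) φ t
  set q := 4 * L + 7 + A * L ^ c₀ + k * (L + 1) with hq
  have hatoms : ∀ t : {t // p t}, ∃ 𝒜 : AtomGroup (MB k r K t.1),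
      (isAb t.1 → ∀ B B' : Finset 𝒜.A, Disjoint B B' → supp 𝒜.Fx B = ⊥ ∨ supp 𝒜.Fx B' = ⊥) ∧
      (¬ isAb t.1 → ∀ B, 𝒜.Good B → IsPerf (supp 𝒜.Fx B)) ∧
      Fintype.card 𝒜.E ≤ 2 ^ q ∧ Fintype.card 𝒜.R ≤ 2 ^ q := by
    rintro ⟨t, ht⟩
    rcases t with pr | i
    · have hfin : Fintype (MB k r K (.inl pr)) :=
        inferInstanceAs (Fintype (Multiplicative (AA (Fin k) r pr)))
      have hcard : Fintype.card (MB k r K (.inl pr)) ≤ 2 ^ q := by
        have h1 : Fintype.card (MB k r K (.inl pr)) = (QQ r pr) ^ k := by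
          have h2 : Fintype.card (AA (Fin k) r pr) = (QQ r pr) ^ k := by
            rw [Fintype.card_fun, Fintype.card_fin, ZMod.card]
          rw [← h2]
          exact Fintype.card_congr (Equiv.refl (AA (Fin k) r pr))
        rw [h1]
        have h3 : QQ r pr ≤ 2 ^ (L + 1) := by
          refine (QQ_le hr pr).trans ?_
          rw [pow_succ]; omega
        calc (QQ r pr) ^ k ≤ (2 ^ (L + 1)) ^ k := Nat.pow_le_pow_left h3 k
          _ = 2 ^ (k * (L + 1)) := by rw [← pow_mul, mul_comm]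
          _ ≤ 2 ^ q := Nat.pow_le_pow_right (by norm_num) (by omega)
      refine ⟨blkFac (MB k r K (.inl pr)), fun _ B B' hd => ?_, fun h => absurd trivial h, ?_, ?_⟩
      · by_cases hB : (() : Unit) ∈ (show Finset Unit from B)
        · right
          have hB' : (() : Unit) ∉ (show Finset Unit from B') := fun h' =>
            Finset.disjoint_left.1 hd hB h'
          exact supp_bot_ne _ hB'
        · left
          exact supp_bot_ne _ hB
      · rw [blkFac_E]; exact hcard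
      · rw [blkFac_R]; exact hcard
    · have hrel : Rel (MB k r K) φ (.inr i) := by
        rcases ht with h | h
        · exact absurd h (fun h => h)
        · exact h
      obtain ⟨𝒜, h1, h2, h3⟩ := exists_atoms (M := MB k r K) A c₀ L φ hrk' hLn (.inr i)
        (show Admissible A c₀ (K i) from hadm i) hrel
      have h4 : 2 ^ (4 * L + 7 + A * L ^ c₀) ≤ 2 ^ q := Nat.pow_le_pow_right (by norm_num) (by omega)
      exact ⟨𝒜, fun h => absurd h (fun h => h), fun _ => h1, h2.trans h4, h3.trans h4⟩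
  choose 𝒜 hA0 hA1 hE hR using hatoms
  -- the number of factors
  have hcardT : Fintype.card {t // p t} + 1 ≤ 2 ^ (2 * L + 1) := by
    let p₂ : PP r ⊕ ι → Prop := fun t => ¬ isAb t ∧ Rel (MB k r K) φ t
    have h2 : Fintype.card {t // p₂ t} ≤ L * (mat (∀ t, MB k r K t) φ).rank := by
      have hfin (t : {t // p₂ t}) : Fintype (MB k r K t) := Fintype.ofFinite _
      refine relevant_card_le (extHom (M := MB k r K) p₂) φ L (fun t => ?_) hrk' fun t => ?_
      · obtain ⟨t, ht⟩ := t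
        rcases t with pr | i
        · exact absurd trivial ht.1
        · exact (show Admissible A c₀ (K i) from hadm i).isPerf
      · obtain ⟨g, a, y, hne⟩ := t.2.2
        exact ⟨g, a, y, by rw [extHom_single]; exact hne⟩
    have h3 : Fintype.card {t // p t} ≤ Fintype.card (PP r) + Fintype.card {t // p₂ t} := by
      rw [Fintype.card_subtype p, Fintype.card_subtype p₂]
      have h4 : (univ.filter p) ⊆ (univ.image (Sum.inl : PP r → PP r ⊕ ι)) ∪ univ.filter p₂ := by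
        intro t ht
        rw [mem_union, mem_filter]
        rcases t with pr | i
        · left; exact Finset.mem_image_of_mem _ (mem_univ _)
        · right
          refine ⟨mem_univ _, fun h => h, ?_⟩
          rcases (mem_filter.1 ht).2 with h | h
          · exact absurd h (fun h => h)
          · exact h
      refine (Finset.card_le_card h4).trans ((Finset.card_union_le _ _).trans ?_)
      refine Nat.add_le_add_right ?_ _
      exact Finset.card_image_le.trans (by rw [Finset.card_univ])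
    have h5 : Fintype.card (PP r) ≤ 2 * r := card_PP
    have h6 : L * (mat (∀ t, MB k r K t) φ).rank ≤ L * r := Nat.mul_le_mul le_rfl hrk
    have h7 : L + 2 ≤ 2 ^ (L + 1) := by
      have : L < 2 ^ L := Nat.lt_two_pow_self
      rw [pow_succ]; omega
    calc Fintype.card {t // p t} + 1 ≤ (L + 2) * (r + 1) := by nlinarith
      _ ≤ 2 ^ (L + 1) * 2 ^ L := Nat.mul_le_mul h7 hrL
      _ = 2 ^ (2 * L + 1) := by rw [← pow_add]; congr 1; ring
  have hsum : ∀ F : {t // p t} → ℕ, (∀ t, F t ≤ 2 ^ q) → ∑ t, F t + 1 ≤ 2 ^ (2 * L + 1 + q) := by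
    intro F hF
    have h4 : ∑ t, F t ≤ Fintype.card {t // p t} * 2 ^ q := by
      calc ∑ t, F t ≤ ∑ _t : {t // p t}, 2 ^ q := Finset.sum_le_sum fun t _ => hF t
        _ = _ := by rw [Finset.sum_const, Finset.card_univ, smul_eq_mul]
    have h5 : 1 ≤ 2 ^ q := Nat.one_le_two_pow
    calc ∑ t, F t + 1 ≤ Fintype.card {t // p t} * 2 ^ q + 2 ^ q := add_le_add h4 h5
      _ = (Fintype.card {t // p t} + 1) * 2 ^ q := by ring
      _ ≤ 2 ^ (2 * L + 1) * 2 ^ q := Nat.mul_le_mul hcardT le_rfl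
      _ = 2 ^ (2 * L + 1 + q) := (pow_add _ _ _).symm
  have hmain := base_general (M := MB k r K) φ L (k * L) (2 * L + 1 + q) hrk' p
    (fun t ht => Or.inr ht) isAb 𝒜 hA0 hA1
    (fun s S o θ hθ hS y => hab_box hr Gx hG1 hG2 c hc s S o θ hθ hS y)
    (by rw [Fintype.card_sigma]; exact hsum _ hE)
    (by rw [Fintype.card_sigma]; exact hsum _ hR)
  refine hmain.mono (fun _ _ h => h) ?_
  have e1 : (k * L + L) ^ 2 * L = (k + 1) ^ 2 * L ^ 3 := by ring
  rw [e1]
  have hb : 2 * L + 1 + q ≤ 14 * ((A + 1) * (k + 1)) * L ^ (c₀ + 1) := by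
    have h4 : L ≤ L ^ (c₀ + 1) := Nat.le_self_pow (by omega) L
    have h5 : L ^ c₀ ≤ L ^ (c₀ + 1) := Nat.pow_le_pow_right hL1 (by omega)
    have h6 : A * L ^ c₀ ≤ A * L ^ (c₀ + 1) := Nat.mul_le_mul le_rfl h5
    have h8 : k * (L + 1) ≤ 2 * k * L ^ (c₀ + 1) := by
      calc k * (L + 1) ≤ k * (2 * L) := Nat.mul_le_mul le_rfl (by omega)
        _ = 2 * k * L := by ring
        _ ≤ 2 * k * L ^ (c₀ + 1) := Nat.mul_le_mul le_rfl h4
    calc 2 * L + 1 + q = 6 * L + 8 + A * L ^ c₀ + k * (L + 1) := by rw [hq]; ring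
      _ ≤ 14 * L ^ (c₀ + 1) + A * L ^ (c₀ + 1) + 2 * k * L ^ (c₀ + 1) := by omega
      _ = (14 + A + 2 * k) * L ^ (c₀ + 1) := by ring
      _ ≤ 14 * ((A + 1) * (k + 1)) * L ^ (c₀ + 1) := by
          refine Nat.mul_le_mul ?_ le_rfl
          nlinarith
  have hpow : 1 ≤ (A + 1) * (k + 1) ^ 5 * L ^ (c₀ + 7) := by
    have h4 : 1 ≤ L ^ (c₀ + 7) := Nat.one_le_pow _ _ hL1
    have h5 : 1 ≤ (k + 1) ^ 5 := Nat.one_le_pow _ _ (by omega)
    calc 1 = 1 * 1 * 1 := by norm_num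
      _ ≤ (A + 1) * (k + 1) ^ 5 * L ^ (c₀ + 7) :=
        Nat.mul_le_mul (Nat.mul_le_mul (by omega) h5) h4
  calc 54 * ((k + 1) ^ 2 * L ^ 3) * (54 * ((k + 1) ^ 2 * L ^ 3) * (2 * L + 1 + q) +
        54 * ((k + 1) ^ 2 * L ^ 3) * (2 * L + 1 + q)) + 1
      = 5832 * (k + 1) ^ 4 * L ^ 6 * (2 * L + 1 + q) + 1 := by ring
    _ ≤ 5832 * (k + 1) ^ 4 * L ^ 6 * (14 * ((A + 1) * (k + 1)) * L ^ (c₀ + 1)) + 1 :=
        Nat.add_le_add_right (Nat.mul_le_mul le_rfl hb) 1
    _ = 81648 * ((A + 1) * (k + 1) ^ 5 * L ^ (c₀ + 7)) + 1 := by ring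
    _ ≤ 81648 * ((A + 1) * (k + 1) ^ 5 * L ^ (c₀ + 7)) + (A + 1) * (k + 1) ^ 5 * L ^ (c₀ + 7) :=
        Nat.add_le_add_left hpow _
    _ = 81649 * ((A + 1) * (k + 1) ^ 5 * L ^ (c₀ + 7)) := by ring

end

end Pool.Agent.Lib_helper74.LR
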