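import Mathlib
import Pool.Agent.Lib_helper74.LR.BoxMain

set_option autoImplicit false
set_option linter.unusedSectionVars false

/-! Final assembly. -/

namespace Pool.Agent.Lib_helper74.LR

open Finset Polynomial Pool.Agent.Lib_helper10.LogRank

theorem box_cc {k r : ℕ} {ι : Type} [Fintype ι] {K : ι → Type} [∀ i, Group (K i)]
    [∀ i, Finite (K i)] {N : Fin k → ℕ} {Y : Type} [Fintype Y] [MulAction (∀ i, K i) Y]
    (A c₀ : ℕ) (hadm : ∀ i, Admissible A c₀ (K i)) (hr : 0 < r)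
    (f : Y → (Fin k → ℕ) → Bool)
    (hrank : realRank (fun (x : (∀ i, Fin (N i)) × (∀ i, K i)) (q : Y × ∀ i, Fin (N i)) =>
        f (x.2 • q.1) (fun i => (x.1 i : ℕ) + q.2 i)) ≤ r) :
    CCOn (fun _ _ => True) (fun (x : (∀ i, Fin (N i)) × (∀ i, K i)) (q : Y × ∀ i, Fin (N i)) =>
        f (x.2 • q.1) (fun i => (x.1 i : ℕ) + q.2 i))
      (81649 * ((A + 1) * (k + 1) ^ 5 * (Nat.log 2 r + 1) ^ (c₀ + 7)) +
        k * (10 + 6 * Nat.log 2 r)) := by
  classical
  have hfG : Fintype (∀ i, K i) := Fintype.ofFinite _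
  set ℓ := Nat.log 2 r with hℓ
  have hrℓ : r < 2 ^ (ℓ + 1) := Nat.lt_pow_succ_log_self (by norm_num) r
  have hcardL : Fintype.card (Fin k → Fin (2 * RR r + 1)) ≤ 2 ^ (k * (10 + 6 * ℓ)) := by
    rw [Fintype.card_fun, Fintype.card_fin, Fintype.card_fin, mul_comm k, pow_mul]
    refine Nat.pow_le_pow_left ?_ k
    have h1 : r ^ 6 ≤ (2 ^ (ℓ + 1)) ^ 6 := Nat.pow_le_pow_left hrℓ.le 6
    have h2 : 1 ≤ r ^ 6 := Nat.one_le_pow _ _ hr
    calc 2 * RR r + 1 ≤ 16 * r ^ 6 := by unfold RR; omega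
      _ ≤ 16 * (2 ^ (ℓ + 1)) ^ 6 := by omega
      _ = 2 ^ (10 + 6 * ℓ) := by rw [← pow_mul]; ring
  refine sendA (fun (x : (∀ i, Fin (N i)) × (∀ i, K i)) i =>
    (⟨code N r x.1 i, code_lt hr x.1 i⟩ : Fin (2 * RR r + 1))) hcardL fun l => ?_
  by_cases hx₀ : ∃ x₀ : ∀ i, Fin (N i), ∀ i, code N r x₀ i = l i
  swap
  · refine ⟨Protocol.leaf true, Nat.zero_le _, fun x y hxy => absurd ⟨x.1, fun i => ?_⟩ hx₀⟩
    have := congrFun hxy.2 i
    exact congrArg Fin.val this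
  obtain ⟨x₀, hx₀⟩ := hx₀
  have hcodex : ∀ x : (∀ i, Fin (N i)) × (∀ i, K i),
      (True ∧ (fun i => (⟨code N r x.1 i, code_lt hr x.1 i⟩ : Fin (2 * RR r + 1))) = l) →
      (∀ i, (l i : ℕ) = 0 → reg N r x.1 i) ∧
      (∀ i, (l i : ℕ) ≠ 0 → (x.1 i : ℕ) = x₀ i) := by
    intro x hxy
    have hc : ∀ i, code N r x.1 i = l i := fun i => congrArg Fin.val (congrFun hxy.2 i)
    refine ⟨fun i hi => ?_, fun i hi => ?_⟩
    · rw [← code_eq_zero, hc, hi]
    · exact code_inj x.1 x₀ i (by rw [hc, hx₀]) (by rw [hx₀]; exact hi)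
  -- the extension
  have hrank1 : realRank (fun (x : ∀ i, Fin (N i)) (y : Y × ∀ i, Fin (N i)) =>
      f y.1 (fun i => (x i : ℕ) + y.2 i)) ≤ r := by
    have h1 := realRank_comp_le (fun (x : (∀ i, Fin (N i)) × (∀ i, K i))
      (q : Y × ∀ i, Fin (N i)) => f (x.2 • q.1) (fun i => (x.1 i : ℕ) + q.2 i))
      (fun x : ∀ i, Fin (N i) => (x, (1 : ∀ i, K i))) (fun q : Y × ∀ i, Fin (N i) => q)
    simp only [one_smul] at h1
    exact h1.trans hrank
  have hext := fun q : Y × ∀ i, Fin (N i) =>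
    exists_ext f hr hrank1 (fun i => (l i : ℕ)) x₀ hx₀ q
  choose Gx hG1 hG2 hG3 using hext
  obtain ⟨c, hc⟩ := exists_crt (Fin k) r
  have hGper : ∀ y, Gx y ∈ Submodule.span ℝ (periodicSet (Fin k) r) := fun y =>
    mem_span_periodic hr (hG2 y)
  obtain ⟨π, hπ1, hπ2⟩ := box_protocol (K := K) A c₀ hadm hr f (fun i => (l i : ℕ)) x₀ hx₀ Gx
    hG1 hG2 hG3 c hc hrank
  let α : (∀ i, Fin (N i)) → ∀ p : PP r, AA (Fin k) r p := fun x p i =>
    ((if (l i : ℕ) = 0 then (x i : ℕ) - r else 0 : ℕ) : ZMod (QQ r p))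
  let β : (∀ i, Fin (N i)) → ∀ p : PP r, AA (Fin k) r p := fun y p i =>
    ((if (l i : ℕ) = 0 then (y i : ℕ) else 0 : ℕ) : ZMod (QQ r p))
  refine ⟨Protocol.pull (X := ∀ t, MB k r K t) (Y := YB k r N Y)
    (X' := (∀ i, Fin (N i)) × (∀ i, K i)) (Y' := Y × ∀ i, Fin (N i))
    (fun x => mkG k r (α x.1) x.2) (fun q => mkYB k r (β q.2) q) π, ?_, ?_⟩
  · rw [Protocol.pull_cost]; exact hπ1
  rintro x q hxy
  rw [Protocol.pull_eval, hπ2 _ _ trivial]
  obtain ⟨hx1, hx2⟩ := hcodex x hxy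
  let z : Fin k → ℕ := fun i => if (l i : ℕ) = 0 then (x.1 i : ℕ) - r + q.2 i else 0
  have hz : α x.1 + β q.2 = fun p i => (z i : ZMod (QQ r p)) := by
    funext p i
    simp only [α, β, z, Pi.add_apply]
    split_ifs <;> simp
  have hzw : ∀ i, z i < win N r (fun i => (l i : ℕ)) i := by
    intro i
    simp only [z, win]
    split_ifs with hi
    · have h1 := hx1 i hi
      have h2 := (q.2 i).2
      unfold reg at h1
      omega
    · have hD1 : 0 < (Psi r ℝ).natDegree := by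
        have : Psi r ℝ ≠ 1 := by
          intro h1
          have h2 := T_Psi_const hr 1
          rw [h1] at h2
          have := congrFun h2 0
          simp [T] at this
        have h3 : (Psi r ℝ).natDegree ≠ 0 := fun h0 => this ((Psi_monic r ℝ).natDegree_eq_zero.1 h0)
        exact Nat.pos_of_ne_zero h3
      positivity
  have he : (pos r (fun i => (l i : ℕ)) (fun i => (x₀ i : ℕ)) (fun i => (q.2 i : ℕ)) z)
      = fun i => (x.1 i : ℕ) + q.2 i := by
    funext i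
    unfold pos
    by_cases hi : (l i : ℕ) = 0
    · have h1 := hx1 i hi
      unfold reg at h1
      simp only [hi, if_true, z]
      omega
    · simp only [hi, if_false]
      rw [hx2 i hi]
  have hval : ind (phiB (N := N) (Y := Y) Gx c (mkG k r (α x.1) x.2 • mkYB k r (β q.2) q))
      = if f (x.2 • q.1) (fun i => (x.1 i : ℕ) + q.2 i) then (1 : ℝ) else 0 := by
    rw [ind_phiB hG1, smulYB, abP_mkG, naP_mkG]
    show Gx (x.2 • q.1, q.2) (c (α x.1 + β q.2)) = _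
    rw [hz, crt_eq_of_periodic hc (hGper _), hG3 _ z hzw, he]
  unfold ind at hval
  cases h1 : phiB (N := N) (Y := Y) Gx c (mkG k r (α x.1) x.2 • mkYB k r (β q.2) q) <;>
    cases h2 : f (x.2 • q.1) (fun i => (x.1 i : ℕ) + q.2 i) <;> simp [h1, h2] at hval ⊢

/-- The main theorem for nonzero functions. -/
theorem final_ne (A c a k : ℕ) (N : Fin k → ℕ) (ι : Type) [Fintype ι] (K : ι → Type)
    [∀ i, Group (K i)] [∀ i, Finite (K i)] (hK : ∀ i, Admissible A c (K i))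
    (X₀ Y₀ : Type) [Fintype X₀] [Fintype Y₀] [MulAction (∀ i, K i) X₀] [MulAction (∀ i, K i) Y₀]
    (hX : Nat.card (MulAction.orbitRel.Quotient (∀ i, K i) X₀) ≤ 2 ^ a)
    (f : (Fin k → ℕ) → X₀ → Y₀ → Bool)
    (hf : ∀ (g : ∀ i, K i) (w : Fin k → ℕ) (x : X₀) (y : Y₀), f w (g • x) (g • y) = f w x y)
    (X Y : Type) [Fintype X] [Fintype Y] (row : (∀ j, Fin (N j)) × X₀ → X)
    (col : (∀ j, Fin (N j)) × Y₀ → Y) (hrow : Function.Surjective row)
    (hcol : Function.Surjective col) (F : X → Y → Bool)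
    (hF : ∀ u x v y, F (row (u, x)) (col (v, y)) = f (fun j => (u j : ℕ) + v j) x y)
    (hne : ∃ x y, F x y = true) :
    ∃ π : Protocol X Y, (∀ x y, π.eval x y = F x y) ∧
      π.cost ≤ a + 100000 * (A + 1) * (k + 1) ^ 5 * (Nat.log 2 (realRank F) + 1) ^ (c + 7) := by
  classical
  set r := realRank F with hr
  have hr0 : 0 < r := by
    rcases Nat.eq_zero_or_pos r with h | h
    · exfalso
      obtain ⟨x, y, hxy⟩ := hne
      have h1 := realRank_comp_le F (fun _ : Fin 1 => x) (fun _ : Fin 1 => y)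
      rw [← hr, h] at h1
      have h2 : realRank (fun _ _ : Fin 1 => F x y) = 1 := by
        unfold realRank
        rw [hxy]
        have : (Matrix.of fun (_ : Fin 1) (_ : Fin 1) => if true = true then (1 : ℝ) else 0)
            = (1 : Matrix (Fin 1) (Fin 1) ℝ) := by
          ext i j
          have : i = j := Subsingleton.elim _ _
          subst this
          simp
        rw [this, Matrix.rank_one]
        simp
      rw [h2] at h1
      omega
    · exact h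
  let Q := MulAction.orbitRel.Quotient (∀ i, K i) X₀
  have : Fintype Q := Fintype.ofFinite _
  let lab : X₀ → Q := fun x => Quotient.mk _ x
  let rep : Q → X₀ := Quotient.out
  have hg : ∀ x : X₀, ∃ g : ∀ i, K i, g • rep (lab x) = x := by
    intro x
    have h1 : (MulAction.orbitRel (∀ i, K i) X₀).r (rep (lab x)) x :=
      Quotient.exact (Quotient.out_eq (lab x))
    have h2 : rep (lab x) ∈ MulAction.orbit (∀ i, K i) x := h1
    obtain ⟨g, hg⟩ := h2
    exact ⟨g⁻¹, by rw [← hg]; simp⟩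
  choose gx hgx using hg
  have hbase : ∀ o : Q, CCOn (fun _ _ => True)
      (fun (x : (∀ i, Fin (N i)) × (∀ i, K i)) (q : Y₀ × ∀ i, Fin (N i)) =>
        f (fun i => (x.1 i : ℕ) + q.2 i) (rep o) (x.2 • q.1))
      (81649 * ((A + 1) * (k + 1) ^ 5 * (Nat.log 2 r + 1) ^ (c + 7)) +
        k * (10 + 6 * Nat.log 2 r)) := by
    intro o
    refine box_cc A c hK hr0 (fun y w => f w (rep o) y) ?_
    have h1 := realRank_comp_le F
      (fun x : (∀ i, Fin (N i)) × (∀ i, K i) => row (x.1, x.2⁻¹ • rep o))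
      (fun q : Y₀ × ∀ i, Fin (N i) => col (q.2, q.1))
    refine le_trans (le_of_eq ?_) h1
    congr 1
    funext x q
    rw [hF, ← hf x.2 _ (x.2⁻¹ • rep o) q.1, smul_inv_smul]
  let inv₁ : X → (∀ j, Fin (N j)) × X₀ := Function.surjInv hrow
  let inv₂ : Y → (∀ j, Fin (N j)) × Y₀ := Function.surjInv hcol
  have hcc : CCOn (fun _ _ => True) F
      (81649 * ((A + 1) * (k + 1) ^ 5 * (Nat.log 2 r + 1) ^ (c + 7)) +
        k * (10 + 6 * Nat.log 2 r) + a) := by
    refine sendA (fun x => lab (inv₁ x).2) (by rw [← Nat.card_eq_fintype_card]; exact hX)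
      fun o => ?_
    obtain ⟨π, hπ1, hπ2⟩ := hbase o
    refine ⟨π.pull (fun x => ((inv₁ x).1, (gx (inv₁ x).2)⁻¹)) (fun y => ((inv₂ y).2, (inv₂ y).1)),
      by rw [Protocol.pull_cost]; exact hπ1, ?_⟩
    rintro x y ⟨_, hxo⟩
    rw [Protocol.pull_eval, hπ2 _ _ trivial]
    simp only
    have h1 : row (inv₁ x) = x := Function.surjInv_eq hrow x
    have h2 : col (inv₂ y) = y := Function.surjInv_eq hcol y
    conv_rhs => rw [← h1, ← h2]
    have h3 := hF (inv₁ x).1 (inv₁ x).2 (inv₂ y).1 (inv₂ y).2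
    rw [Prod.mk.eta, Prod.mk.eta] at h3
    rw [h3, ← hf (gx (inv₁ x).2) _ (rep o) _, smul_inv_smul, ← hxo, hgx]
  obtain ⟨π, h1, h2⟩ := hcc
  refine ⟨π, fun x y => h2 x y trivial, h1.trans ?_⟩
  set L := Nat.log 2 r + 1 with hL
  have hL1 : 1 ≤ L := by omega
  have e1 : k * (10 + 6 * Nat.log 2 r) ≤ 16 * ((A + 1) * (k + 1) ^ 5 * L ^ (c + 7)) := by
    have h4 : L ≤ L ^ (c + 7) := Nat.le_self_pow (by omega) L
    have h5 : k + 1 ≤ (k + 1) ^ 5 := Nat.le_self_pow (by norm_num) _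
    calc k * (10 + 6 * Nat.log 2 r) ≤ (k + 1) * (16 * L) :=
          Nat.mul_le_mul (by omega) (by omega)
      _ = 16 * (1 * (k + 1) * L) := by ring
      _ ≤ 16 * ((A + 1) * (k + 1) ^ 5 * L ^ (c + 7)) :=
          Nat.mul_le_mul le_rfl (Nat.mul_le_mul (Nat.mul_le_mul (by omega) h5) h4)
  calc 81649 * ((A + 1) * (k + 1) ^ 5 * L ^ (c + 7)) + k * (10 + 6 * Nat.log 2 r) + a
      ≤ 81649 * ((A + 1) * (k + 1) ^ 5 * L ^ (c + 7)) +
        16 * ((A + 1) * (k + 1) ^ 5 * L ^ (c + 7)) + a := by omega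
    _ ≤ a + 100000 * ((A + 1) * (k + 1) ^ 5 * L ^ (c + 7)) := by omega
    _ = a + 100000 * (A + 1) * (k + 1) ^ 5 * L ^ (c + 7) := by ring

/-- The main theorem. -/
theorem final (A c a k : ℕ) (N : Fin k → ℕ) (ι : Type) [Fintype ι] (K : ι → Type)
    [∀ i, Group (K i)] [∀ i, Finite (K i)] (hK : ∀ i, Admissible A c (K i))
    (X₀ Y₀ : Type) [Fintype X₀] [Fintype Y₀] [MulAction (∀ i, K i) X₀] [MulAction (∀ i, K i) Y₀]
    (hX : Nat.card (MulAction.orbitRel.Quotient (∀ i, K i) X₀) ≤ 2 ^ a)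
    (f : (Fin k → ℕ) → X₀ → Y₀ → Bool)
    (hf : ∀ (g : ∀ i, K i) (w : Fin k → ℕ) (x : X₀) (y : Y₀), f w (g • x) (g • y) = f w x y)
    (X Y : Type) [Fintype X] [Fintype Y] (row : (∀ j, Fin (N j)) × X₀ → X)
    (col : (∀ j, Fin (N j)) × Y₀ → Y) (hrow : Function.Surjective row)
    (hcol : Function.Surjective col) (F : X → Y → Bool)
    (hF : ∀ u x v y, F (row (u, x)) (col (v, y)) = f (fun j => (u j : ℕ) + v j) x y) :
    ∃ π : Protocol X Y, (∀ x y, π.eval x y = F x y) ∧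
      π.cost ≤ a + 100000 * (A + 1) * (k + 1) ^ 5 * (Nat.log 2 (realRank F) + 1) ^ (c + 7) := by
  by_cases hne : ∃ x y, F x y = true
  · exact final_ne A c a k N ι K hK X₀ Y₀ hX f hf X Y row col hrow hcol F hF hne
  · push Not at hne
    refine ⟨Protocol.leaf false, fun x y => ?_, Nat.zero_le _⟩
    rw [Protocol.eval]
    exact (Bool.eq_false_iff.2 (hne x y)).symm

end Pool.Agent.Lib_helper74.LR
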